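import Pool.Agent.Helper60.Per.Roots3

set_option autoImplicit false

namespace Pool.Agent.Helper60.Per

open Finset Polynomial

variable {k p : ℕ} {c : ℝ} {b : ℕ → ℝ}

/-- `B(x) = ∑ b_j x^j`. -/
noncomputable def Bf (k : ℕ) (b : ℕ → ℝ) (x : ℂ) : ℂ := ∑ j ∈ Finset.Ico 1 k, (b j : ℂ) * x ^ j

theorem P_eq (x : ℂ) : P k b x = x ^ k + 1 - Bf k b x := rfl

theorem Bf_of_root {x : ℂ} (hx : P k b x = 0) : Bf k b x = x ^ k + 1 := by
  rw [P_eq] at hx
  linear_combination -hx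

theorem norm_Bf_le (hb : ∀ j, 0 ≤ b j) {x : ℂ} (hx : ‖x‖ = 1) :
    ‖Bf k b x‖ ≤ ∑ j ∈ Finset.Ico 1 k, b j := by
  unfold Bf
  apply (norm_sum_le _ _).trans
  apply Finset.sum_le_sum
  intro j _
  rw [norm_mul, norm_pow, hx, one_pow, mul_one, Complex.norm_real, Real.norm_of_nonneg (hb j)]

theorem Sys.zeta_ne_one (hS : Sys k p c b) (hc : 0 ≤ c) (hb : ∀ j, 0 ≤ b j) {x : ℂ}
    (hx : P k b x = 0) : x ^ k ≠ 1 := by
  intro h
  have h1 := norm_Bf_le (k := k) hb (hS.norm_one hx)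
  rw [Bf_of_root hx, h] at h1
  have h2 := hS.hsum
  have h3 : ‖(1 + 1 : ℂ)‖ = 2 := by norm_num
  rw [h3] at h1
  linarith

theorem Sys.P_neg_one (hS : Sys k p c b) (hk : Odd k) : P k b (-1) = 0 := by
  have hpal := hS.palin
  have h1 : Bf k b (-1) = - Bf k b (-1) := by
    unfold Bf
    rw [← Finset.sum_neg_distrib]
    apply Finset.sum_bij' (fun j _ => k - j) (fun j _ => k - j)
    · intro j hj
      rw [Finset.mem_Ico] at hj ⊢
      omega
    · intro j hj
      rw [Finset.mem_Ico] at hj ⊢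
      omega
    · intro j hj
      rw [Finset.mem_Ico] at hj
      omega
    · intro j hj
      rw [Finset.mem_Ico] at hj
      omega
    · intro j hj
      rw [hpal j hj]
      rw [Finset.mem_Ico] at hj
      have e : (-1 : ℂ) ^ k = (-1) ^ j * (-1) ^ (k - j) := by
        rw [← pow_add]; congr 1; omega
      rw [hk.neg_one_pow] at e
      have e2 : ((-1 : ℂ) ^ (k - j)) * (-1) ^ (k - j) = 1 := by
        rw [← mul_pow]; norm_num
      have e3 : (-1 : ℂ) ^ j = - (-1) ^ (k - j) := by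
        linear_combination (-((-1 : ℂ) ^ j)) * e2 - ((-1 : ℂ) ^ (k - j)) * e
      rw [e3]; ring
  have h2 : Bf k b (-1) = 0 := by
    linear_combination (1 / 2 : ℂ) * h1
  rw [P_eq, h2, hk.neg_one_pow]
  ring

/-- The polynomial `B`. -/
noncomputable def BPol (k : ℕ) (b : ℕ → ℝ) : ℂ[X] :=
  ∑ j ∈ Finset.Ico 1 k, C (b j : ℂ) * X ^ j

theorem eval_BPol (x : ℂ) : (BPol k b).eval x = Bf k b x := by
  unfold BPol Bf
  simp [Polynomial.eval_finsetSum]

theorem degree_BPol (hk : 1 ≤ k) (b : ℕ → ℝ) : (BPol k b).degree < k := by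
  unfold BPol
  apply lt_of_le_of_lt (degree_sum_le _ _)
  rw [Finset.sup_lt_iff (by exact_mod_cast (WithBot.bot_lt_coe k))]
  intro j hj
  rw [Finset.mem_Ico] at hj
  exact lt_of_le_of_lt (degree_C_mul_X_pow_le _ _) (by exact_mod_cast hj.2)

theorem coeff_BPol (b : ℕ → ℝ) {j : ℕ} (hj : j ∈ Finset.Ico 1 k) :
    (BPol k b).coeff j = (b j : ℂ) := by
  unfold BPol
  simp only [finsetSum_coeff, coeff_C_mul, coeff_X_pow]
  rw [Finset.sum_eq_single_of_mem j hj]
  · simp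
  · intro i _ hij
    rw [if_neg (fun h => hij h.symm), mul_zero]

end Pool.Agent.Helper60.Per
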