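import Pool.Agent.Helper60.Per.Basic2

set_option autoImplicit false

namespace Pool.Agent.Helper60.Per

open Finset Polynomial

variable {k p : ℕ} {b : ℕ → ℝ}

/-- For `c = 0` no root satisfies `x ^ k = -1`. -/
theorem Sys.zeta_ne_neg_one (hS : Sys k p 0 b) (hb : ∀ j, 0 ≤ b j) {μ : ℂ}
    (hμ : P k b μ = 0) : μ ^ k ≠ -1 := by
  classical
  intro hμk
  have hμ0 := hS.ne_zero hμ
  set f : ℂ → ℂ := fun x => if x ^ k = -1 then x else μ * x with hf
  have hinj : Set.InjOn f (Z k b) := by
    intro x hx y hy hxy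
    rw [Finset.mem_coe, mem_Z hS.hk] at hx hy
    have hx1 := hS.zeta_ne_one le_rfl hb hx
    have hy1 := hS.zeta_ne_one le_rfl hb hy
    simp only [hf] at hxy
    split_ifs at hxy with h1 h2 h2
    · exact hxy
    · exfalso
      rw [hxy, mul_pow, hμk] at h1
      apply hy1
      linear_combination -h1
    · exfalso
      rw [← hxy, mul_pow, hμk] at h2
      apply hx1
      linear_combination -h2
    · exact mul_left_cancel₀ hμ0 hxy
  have hcard : ((Z k b).image f).card = k := by
    rw [Finset.card_image_of_injOn hinj, hS.card_Z]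
  have hzero : BPol k b = 0 := by
    apply Polynomial.eq_zero_of_degree_lt_of_eval_finset_eq_zero ((Z k b).image f)
    · rw [hcard]; exact degree_BPol hS.hk b
    · intro y hy
      rw [Finset.mem_image] at hy
      obtain ⟨x, hx, rfl⟩ := hy
      rw [mem_Z hS.hk] at hx
      rw [eval_BPol]
      simp only [hf]
      split_ifs with h1
      · rw [Bf_of_root hx, h1]; ring
      · have hx1 := hS.zeta_ne_one le_rfl hb hx
        have h2 := hS.mulroot le_rfl hμ hx (by rw [hμk]; norm_num) hx1
          (by rw [hμk]; exact fun h => h1 h.symm)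
          (by rw [hμk]; intro h; apply h1; linear_combination -h)
        rw [P_eq, hμk, mul_pow, hμk] at h2
        simp only [Complex.ofReal_zero] at h2
        linear_combination -h2
  have h1 := hS.sumC
  have h2 : (BPol k b).eval 1 = 1 := by
    rw [eval_BPol]
    unfold Bf
    simp only [one_pow, mul_one]
    simpa using h1
  rw [hzero, eval_zero] at h2
  exact zero_ne_one h2

theorem Sys.even_of_zero (hS : Sys k p 0 b) (hb : ∀ j, 0 ≤ b j) : Even k := by
  by_contra h
  rw [Nat.not_even_iff_odd] at h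
  exact hS.zeta_ne_neg_one hb (hS.P_neg_one h) h.neg_one_pow

/-- multiplicativity across classes -/
theorem Sys.Bf_mul (hS : Sys k p 0 b) (hb : ∀ j, 0 ≤ b j) {x y : ℂ} (hx : P k b x = 0)
    (hy : P k b y = 0) (hs : x ^ k + (x ^ k)⁻¹ ≠ y ^ k + (y ^ k)⁻¹) :
    Bf k b (x * y) = Bf k b x * Bf k b y := by
  have h := hS.mulroot le_rfl hx hy (hS.zeta_ne_one le_rfl hb hx) (hS.zeta_ne_one le_rfl hb hy)
    (fun h => hs (by rw [h]))
    (fun h => hs (by
      have : (y ^ k) = (x ^ k)⁻¹ := eq_inv_of_mul_eq_one_right h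
      rw [this, inv_inv, add_comm]))
  rw [P_eq, mul_pow] at h
  simp only [Complex.ofReal_zero] at h
  rw [Bf_of_root hx, Bf_of_root hy]
  linear_combination -h

/-- bi-infinite solutions of the linearised recurrence -/
def IsSol (k : ℕ) (b : ℕ → ℝ) (u : ℤ → ℂ) : Prop :=
  ∀ m : ℤ, u m + u (m - k) = ∑ j ∈ Finset.Ico 1 k, (b j : ℂ) * u (m - j)

theorem IsSol.eq_zero {u : ℤ → ℂ} (hk : 1 ≤ k) (hu : IsSol k b u)
    (h0 : ∀ m : ℤ, -(k : ℤ) < m → m ≤ 0 → u m = 0) : ∀ m, u m = 0 := by
  have key : ∀ n : ℕ, ∀ m : ℤ, -(k : ℤ) - n < m → m ≤ n → u m = 0 := by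
    intro n
    induction n with
    | zero => intro m h1 h2; exact h0 m (by simpa using h1) (by simpa using h2)
    | succ n ih =>
      intro m h1 h2
      push_cast at h1 h2
      by_cases hm1 : m = n + 1
      · subst hm1
        have h := hu (n + 1)
        rw [ih (n + 1 - k) (by omega) (by omega), Finset.sum_eq_zero] at h
        · linear_combination h
        · intro j hj
          rw [Finset.mem_Ico] at hj
          rw [ih (n + 1 - j) (by omega) (by omega), mul_zero]
      · by_cases hm2 : m = -(k : ℤ) - n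
        · have h := hu (m + k)
          rw [ih (m + k) (by omega) (by omega), Finset.sum_eq_zero] at h
          · rw [add_sub_cancel_right] at h
            linear_combination h
          · intro j hj
            rw [Finset.mem_Ico] at hj
            rw [ih (m + k - j) (by omega) (by omega), mul_zero]
        · exact ih m (by omega) (by omega)
  intro m
  exact key m.natAbs m (by omega) (by omega)

/-- Existence of coefficients with prescribed power sums. -/
theorem exists_coeffs (S : Finset ℂ) (hS0 : ∀ x ∈ S, x ≠ 0) (t : ℕ → ℂ) (s : ℤ) :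
    ∃ a : ℂ → ℂ, ∀ i < S.card, ∑ x ∈ S, a x * x ^ (s + i : ℤ) = t i := by
  classical
  set n := S.card with hn
  let e := S.equivFin
  let v : Fin n → ℂ := fun i => ((e.symm i : S) : ℂ)
  have hv : Function.Injective v := fun i j hij => e.symm.injective (Subtype.ext hij)
  have hdet : (Matrix.vandermonde v).det ≠ 0 := Matrix.det_vandermonde_ne_zero_iff.mpr hv
  have hunit : IsUnit (Matrix.vandermonde v).transpose := by
    rw [Matrix.isUnit_iff_isUnit_det, Matrix.det_transpose]
    exact hdet.isUnit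
  obtain ⟨w, hw⟩ := (Matrix.mulVec_surjective_iff_isUnit.mpr hunit) (fun i : Fin n => t i)
  refine ⟨fun x => if hx : x ∈ S then w (e ⟨x, hx⟩) * x ^ (-s) else 0, ?_⟩
  intro i hi
  have h1 := congrFun hw ⟨i, hi⟩
  rw [← h1]
  simp only [Matrix.mulVec, dotProduct, Matrix.transpose_apply, Matrix.vandermonde_apply]
  rw [← Finset.sum_coe_sort S, ← Equiv.sum_comp e.symm]
  apply Finset.sum_congr rfl
  intro j _
  have hmem : ((e.symm j : S) : ℂ) ∈ S := (e.symm j).2
  rw [dif_pos hmem]
  have h2 : e ⟨((e.symm j : S) : ℂ), hmem⟩ = j := by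
    rw [Subtype.coe_eta, Equiv.apply_symm_apply]
  rw [h2]
  have hne := hS0 _ hmem
  show w j * v j ^ (-s) * v j ^ (s + (i : ℤ)) = v j ^ i * w j
  have hne' : v j ≠ 0 := hne
  rw [mul_assoc, ← zpow_add₀ hne', neg_add_cancel_left, zpow_natCast]
  ring

theorem Sys.isSol_sum (hS : Sys k p 0 b) (a : ℂ → ℂ) :
    IsSol k b (fun m => ∑ x ∈ Z k b, a x * x ^ m) := by
  intro m
  have hpal := hS.palin
  simp only
  rw [← Finset.sum_add_distrib]
  have h1 : ∀ j ∈ Finset.Ico 1 k, (b j : ℂ) * ∑ x ∈ Z k b, a x * x ^ (m - j)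
      = ∑ x ∈ Z k b, a x * ((b j : ℂ) * x ^ (m - j)) := by
    intro j _
    rw [Finset.mul_sum]
    apply Finset.sum_congr rfl
    intro x _
    ring
  rw [Finset.sum_congr rfl h1, Finset.sum_comm]
  apply Finset.sum_congr rfl
  intro x hx
  rw [mem_Z hS.hk] at hx
  have hx0 := hS.ne_zero hx
  rw [← Finset.mul_sum]
  have h2 : ∑ j ∈ Finset.Ico 1 k, (b j : ℂ) * x ^ (m - j) = x ^ (m - k) * Bf k b x := by
    unfold Bf
    rw [Finset.mul_sum]
    apply Finset.sum_bij' (fun j _ => k - j) (fun j _ => k - j)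
    · intro j hj
      rw [Finset.mem_Ico] at hj ⊢
      omega
    · intro j hj
      rw [Finset.mem_Ico] at hj ⊢
      omega
    · intro j hj
      rw [Finset.mem_Ico] at hj
      omega
    · intro j hj
      rw [Finset.mem_Ico] at hj
      omega
    · intro j hj
      rw [hpal j hj]
      rw [Finset.mem_Ico] at hj
      have : x ^ (m - (j : ℤ)) = x ^ (m - (k : ℤ)) * x ^ (k - j) := by
        rw [← zpow_natCast x (k - j), ← zpow_add₀ hx0]
        congr 1
        push_cast [hj.2.le]
        ring
      rw [this]; ring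
  rw [h2, Bf_of_root hx]
  have h3 : x ^ m = x ^ (m - (k : ℤ)) * x ^ k := by
    rw [← zpow_natCast x k, ← zpow_add₀ hx0]
    congr 1
    ring
  rw [h3]
  ring

end Pool.Agent.Helper60.Per
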