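import Pool.Agent.Helper60.Per.CaseZero

set_option autoImplicit false

namespace Pool.Agent.Helper60.Per

open Finset Polynomial

variable {k p : ℕ} {b : ℕ → ℝ}

/-- the class function -/
noncomputable def sf (k : ℕ) (x : ℂ) : ℂ := x ^ k + (x ^ k)⁻¹

theorem Sys.K_eq (hS : Sys k p 0 b) (x y : ℂ) :
    ∑ j ∈ Finset.Ico 1 k, (b j : ℂ) * ((x ^ j - Bf k b x) * (y ^ j - Bf k b y))
      = Bf k b (x * y) - Bf k b x * Bf k b y := by
  have h1 := hS.sumC
  simp only [Complex.ofReal_zero, zero_add] at h1
  have h2 : ∑ j ∈ Finset.Ico 1 k, (b j : ℂ) * ((x ^ j - Bf k b x) * (y ^ j - Bf k b y))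
      = (∑ j ∈ Finset.Ico 1 k, (b j : ℂ) * (x * y) ^ j)
        - Bf k b y * (∑ j ∈ Finset.Ico 1 k, (b j : ℂ) * x ^ j)
        - Bf k b x * (∑ j ∈ Finset.Ico 1 k, (b j : ℂ) * y ^ j)
        + Bf k b x * Bf k b y * ∑ j ∈ Finset.Ico 1 k, (b j : ℂ) := by
    rw [Finset.mul_sum, Finset.mul_sum, Finset.mul_sum, ← Finset.sum_sub_distrib,
      ← Finset.sum_sub_distrib, ← Finset.sum_add_distrib]
    apply Finset.sum_congr rfl
    intro j _
    rw [mul_pow]
    ring
  rw [h2, h1]
  show Bf k b (x * y) - Bf k b y * Bf k b x - Bf k b x * Bf k b y + Bf k b x * Bf k b y * 1 = _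
  ring

theorem Sys.kernel (hS : Sys k p 0 b) (hb : ∀ j, 0 ≤ b j) (e : ℂ → ℂ)
    (he : ∀ j ∈ Finset.Ico 1 k, b j ≠ 0 → ∑ x ∈ Z k b, e x * (x ^ j - Bf k b x) = 0) :
    ∑ j ∈ Finset.Ico 1 k, (b j : ℂ) *
      ((∑ x ∈ Z k b, sf k x * e x * (x ^ j - Bf k b x)) *
       (∑ x ∈ Z k b, sf k x * e x * (x ^ j - Bf k b x))) = 0 := by
  have h1 : ∑ j ∈ Finset.Ico 1 k, (b j : ℂ) *
      ((∑ x ∈ Z k b, sf k x * e x * (x ^ j - Bf k b x)) *
       (∑ x ∈ Z k b, sf k x * e x * (x ^ j - Bf k b x)))
      = ∑ x ∈ Z k b, ∑ y ∈ Z k b, sf k x * sf k y * (e x * e y) *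
        ∑ j ∈ Finset.Ico 1 k, (b j : ℂ) * ((x ^ j - Bf k b x) * (y ^ j - Bf k b y)) := by
    have : ∀ j ∈ Finset.Ico 1 k, (b j : ℂ) *
      ((∑ x ∈ Z k b, sf k x * e x * (x ^ j - Bf k b x)) *
       (∑ x ∈ Z k b, sf k x * e x * (x ^ j - Bf k b x)))
       = ∑ x ∈ Z k b, ∑ y ∈ Z k b, sf k x * sf k y * (e x * e y) *
        ((b j : ℂ) * ((x ^ j - Bf k b x) * (y ^ j - Bf k b y))) := by
      intro j _
      rw [Finset.sum_mul_sum, Finset.mul_sum]
      apply Finset.sum_congr rfl
      intro x _
      rw [Finset.mul_sum]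
      apply Finset.sum_congr rfl
      intro y _
      ring
    rw [Finset.sum_congr rfl this, Finset.sum_comm]
    apply Finset.sum_congr rfl
    intro x _
    rw [Finset.sum_comm]
    apply Finset.sum_congr rfl
    intro y _
    rw [Finset.mul_sum]
  rw [h1]
  have h2 : ∀ x ∈ Z k b, ∀ y ∈ Z k b, sf k x * sf k y * (e x * e y) *
        ∑ j ∈ Finset.Ico 1 k, (b j : ℂ) * ((x ^ j - Bf k b x) * (y ^ j - Bf k b y))
      = ∑ j ∈ Finset.Ico 1 k, (sf k x * sf k x * e x * (x ^ j - Bf k b x)) *
         ((b j : ℂ) * (e y * (y ^ j - Bf k b y))) := by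
    intro x hx y hy
    rw [mem_Z hS.hk] at hx hy
    by_cases hs : sf k x = sf k y
    · rw [← hs, Finset.mul_sum]
      apply Finset.sum_congr rfl
      intro j _
      ring
    · have hK : ∑ j ∈ Finset.Ico 1 k, (b j : ℂ) * ((x ^ j - Bf k b x) * (y ^ j - Bf k b y))
          = 0 := by
        rw [hS.K_eq, hS.Bf_mul hb hx hy hs]; ring
      rw [hK, mul_zero]
      have : ∑ j ∈ Finset.Ico 1 k, (sf k x * sf k x * e x * (x ^ j - Bf k b x)) *
         ((b j : ℂ) * (e y * (y ^ j - Bf k b y)))
         = sf k x * sf k x * e x * e y *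
           ∑ j ∈ Finset.Ico 1 k, (b j : ℂ) * ((x ^ j - Bf k b x) * (y ^ j - Bf k b y)) := by
        rw [Finset.mul_sum]
        apply Finset.sum_congr rfl
        intro j _
        ring
      rw [this, hK, mul_zero]
  rw [Finset.sum_congr rfl (fun x hx => Finset.sum_congr rfl (h2 x hx))]
  apply Finset.sum_eq_zero
  intro x _
  rw [Finset.sum_comm]
  apply Finset.sum_eq_zero
  intro j hj
  rw [← Finset.mul_sum, ← Finset.mul_sum]
  by_cases hbj : b j = 0
  · rw [hbj]; simp
  · rw [he j hj hbj, mul_zero, mul_zero]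

/-- Main structural relation for `c = 0`: there is a real bi-infinite sequence `h`. -/
theorem Sys.exists_h (hS : Sys k p 0 b) (hb : ∀ j, 0 ≤ b j) (j0 : ℕ)
    (hj0 : ∀ j ∈ Finset.Ico 1 k, b j ≠ 0 → j0 ≤ j) :
    ∃ h : ℤ → ℝ, (∀ m : ℤ, -(k : ℤ) < m → m < 0 → h m = 0) ∧ h 0 = 1 ∧
      (∀ m : ℤ, h m + h (m - k) = ∑ j ∈ Finset.Ico 1 k, b j * h (m - j)) ∧
      (∀ l : ℤ, |l| < j0 → ∃ C : ℝ, (∀ j ∈ Finset.Ico 1 k, b j ≠ 0 →
        h (j + l) - h (k - j - l) = C) ∧
        (∀ j ∈ Finset.Ico 1 k, b j ≠ 0 → h (j - l) - h (k - j + l) = -C)) := by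
  classical
  have hk := hS.hk
  have hpal := hS.palin
  obtain ⟨a, ha⟩ := exists_coeffs (Z k b)
    (fun x hx => hS.ne_zero ((mem_Z hk).mp hx)) (fun i => if i = k - 1 then 1 else 0)
    (-((k : ℤ) - 1))
  rw [hS.card_Z] at ha
  set A : ℤ → ℂ := fun m => ∑ x ∈ Z k b, a x * x ^ m with hA
  have hsol : IsSol k b A := hS.isSol_sum a
  have hA0 : ∀ m : ℤ, -(k : ℤ) < m → m < 0 → A m = 0 := by
    intro m h1 h2
    have := ha (m + (k - 1)).toNat (by omega)
    rw [if_neg (by omega)] at this
    rw [hA]
    simp only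
    rw [← this]
    apply Finset.sum_congr rfl
    intro x _
    congr 2
    omega
  have hA1 : A 0 = 1 := by
    have := ha (k - 1) (by omega)
    rw [if_pos rfl] at this
    rw [hA]
    simp only
    rw [← this]
    apply Finset.sum_congr rfl
    intro x _
    congr 2
    omega
  -- reality
  have hreal : ∀ m, ((A m).re : ℂ) = A m := by
    have h1 : IsSol k b (fun m => A m - (starRingEnd ℂ) (A m)) := by
      intro m
      have h2 := hsol m
      have h3 := congrArg (starRingEnd ℂ) h2
      simp only [map_add, map_sum, map_mul, Complex.conj_ofReal] at h3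
      simp only [mul_sub, Finset.sum_sub_distrib]
      linear_combination h2 - h3
    have h2 := h1.eq_zero hk (by
      intro m h1 h2
      rcases lt_or_eq_of_le h2 with h3 | h3
      · simp only [hA0 m h1 h3, map_zero, sub_zero]
      · subst h3
        simp only [hA1, map_one, sub_self])
    intro m
    have h3 := h2 m
    exact (Complex.conj_eq_iff_re.mp (sub_eq_zero.mp h3).symm)
  -- antisymmetry
  have hanti : ∀ m, A (-k - m) = - A m := by
    have h1 : IsSol k b (fun m => A (-k - m) + A m) := by
      intro m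
      have h2 := hsol m
      have h3 := hsol (-m)
      have h4 : ∑ j ∈ Finset.Ico 1 k, (b j : ℂ) * A (-k - (m - j))
          = ∑ j ∈ Finset.Ico 1 k, (b j : ℂ) * A (-m - j) := by
        apply Finset.sum_bij' (fun j _ => k - j) (fun j _ => k - j)
        · intro j hj
          rw [Finset.mem_Ico] at hj ⊢
          omega
        · intro j hj
          rw [Finset.mem_Ico] at hj ⊢
          omega
        · intro j hj
          rw [Finset.mem_Ico] at hj
          omega
        · intro j hj
          rw [Finset.mem_Ico] at hj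
          omega
        · intro j hj
          rw [hpal j hj]
          rw [Finset.mem_Ico] at hj
          congr 2
          push_cast [hj.2.le]
          ring
      simp only [mul_add, Finset.sum_add_distrib]
      rw [h4, ← h2, ← h3]
      have e1 : (-(k : ℤ) - (m - k)) = -m := by ring
      have e2 : (-(k : ℤ) - m) = -m - k := by ring
      rw [e1, e2]
      ring
    have hAk : A (-k) = -1 := by
      have h2 := hsol 0
      rw [hA1, Finset.sum_eq_zero] at h2
      · rw [zero_sub] at h2
        linear_combination h2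
      · intro j hj
        rw [Finset.mem_Ico] at hj
        rw [hA0 (0 - j) (by omega) (by omega), mul_zero]
    have h2 := h1.eq_zero hk (by
      intro m h1 h2
      rcases lt_or_eq_of_le h2 with h3 | h3
      · rw [hA0 m h1 h3, hA0 (-k - m) (by omega) (by omega), add_zero]
      · subst h3
        simp only [hA1, sub_zero, hAk]
        ring)
    intro m
    have h3 := h2 m
    linear_combination h3
  refine ⟨fun m => (A m).re, ?_, ?_, ?_, ?_⟩
  · intro m h1 h2
    show (A m).re = 0
    rw [hA0 m h1 h2, Complex.zero_re]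
  · show (A 0).re = 1
    rw [hA1, Complex.one_re]
  · intro m
    have h2 := hsol m
    have h3 : (((A m).re + (A (m - k)).re : ℝ) : ℂ)
        = ((∑ j ∈ Finset.Ico 1 k, b j * (A (m - j)).re : ℝ) : ℂ) := by
      push_cast
      simp only [hreal]
      exact h2
    exact_mod_cast h3
  · -- the kernel argument
    have main : ∀ l : ℤ, |l| < j0 → ∀ j ∈ Finset.Ico 1 k, b j ≠ 0 →
        A (j + l) - A (k - j - l) = A l + A (l + k) - A (k - l) - A (-l) := by
      intro l hl
      rw [abs_lt] at hl
      set e : ℂ → ℂ := fun x => a x * x ^ (l - k : ℤ) with he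
      have hker : ∀ j ∈ Finset.Ico 1 k, b j ≠ 0 →
          ∑ x ∈ Z k b, e x * (x ^ j - Bf k b x) = 0 := by
        have h1 : ∀ j ∈ Finset.Ico 1 k, b j ≠ 0 → ∑ x ∈ Z k b, e x * x ^ j = 0 := by
          intro j hj hbj
          have hj1 := hj0 j hj hbj
          have hj2 := hj0 (k - j) (by rw [Finset.mem_Ico] at hj ⊢; omega)
            (by rw [hpal j hj]; exact hbj)
          have h2 : A (j + l - k) = 0 := by
            rw [Finset.mem_Ico] at hj
            apply hA0 <;> omega
          rw [hA] at h2
          simp only at h2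
          rw [← h2]
          apply Finset.sum_congr rfl
          intro x hx
          have hx0 := hS.ne_zero ((mem_Z hk).mp hx)
          rw [he]
          simp only
          rw [mul_assoc, ← zpow_natCast x j, ← zpow_add₀ hx0]
          congr 2
          ring
        intro j hj hbj
        have h3 : ∑ x ∈ Z k b, e x * Bf k b x = 0 := by
          unfold Bf
          have : ∀ x ∈ Z k b, e x * ∑ j ∈ Finset.Ico 1 k, (b j : ℂ) * x ^ j
              = ∑ j ∈ Finset.Ico 1 k, (b j : ℂ) * (e x * x ^ j) := by
            intro x _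
            rw [Finset.mul_sum]
            apply Finset.sum_congr rfl
            intro j _
            ring
          rw [Finset.sum_congr rfl this, Finset.sum_comm]
          apply Finset.sum_eq_zero
          intro i hi
          rw [← Finset.mul_sum]
          by_cases hbi : b i = 0
          · rw [hbi]; simp
          · rw [h1 i hi hbi, mul_zero]
        simp only [mul_sub, Finset.sum_sub_distrib]
        rw [h1 j hj hbj, h3, sub_zero]
      have hK := hS.kernel hb e hker
      -- evaluate
      have hval : ∀ j : ℕ, ∑ x ∈ Z k b, sf k x * e x * (x ^ j - Bf k b x)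
          = A (j + l) - A (k - j - l) - (A l + A (l + k) - A (k - l) - A (-l)) := by
        intro j
        have e1 : A (j + l - 2 * k) = - A (k - j - l) := by
          rw [← hanti]; congr 1; ring
        have e2 : A (l - 2 * k) = - A (k - l) := by
          rw [← hanti]; congr 1; ring
        have e3 : A (l - k) = - A (-l) := by
          rw [← hanti]; congr 1; ring
        have e4 : ∑ x ∈ Z k b, sf k x * e x * (x ^ j - Bf k b x)
            = A (j + l) + A (j + l - 2 * k) - A l - A (l - 2 * k) - A (l + k) - A (l - k) := by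
          rw [hA]
          simp only
          rw [← Finset.sum_add_distrib, ← Finset.sum_sub_distrib, ← Finset.sum_sub_distrib,
            ← Finset.sum_sub_distrib, ← Finset.sum_sub_distrib]
          apply Finset.sum_congr rfl
          intro x hx
          have hx' := (mem_Z hk).mp hx
          have hx0 := hS.ne_zero hx'
          rw [Bf_of_root hx']
          simp only [sf, he]
          have q1 : x ^ ((j : ℤ) + l) = x ^ j * x ^ l := by
            rw [zpow_add₀ hx0, zpow_natCast]
          have q2 : x ^ ((j : ℤ) + l - 2 * k) = x ^ j * x ^ l * ((x ^ k)⁻¹ * (x ^ k)⁻¹) := by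
            rw [zpow_sub₀ hx0, zpow_add₀ hx0, zpow_natCast, two_mul, zpow_add₀ hx0, zpow_natCast]
            field_simp
          have q3 : x ^ (l - 2 * (k : ℤ)) = x ^ l * ((x ^ k)⁻¹ * (x ^ k)⁻¹) := by
            rw [zpow_sub₀ hx0, two_mul, zpow_add₀ hx0, zpow_natCast]
            field_simp
          have q4 : x ^ (l + (k : ℤ)) = x ^ l * x ^ k := by
            rw [zpow_add₀ hx0, zpow_natCast]
          have q5 : x ^ (l - (k : ℤ)) = x ^ l * (x ^ k)⁻¹ := by
            rw [zpow_sub₀ hx0, zpow_natCast]
            field_simp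
          rw [q1, q2, q3, q4, q5]
          have hxk : x ^ k ≠ 0 := pow_ne_zero _ hx0
          field_simp
          ring
        rw [e4, e1, e2, e3]
        ring
      simp only [hval] at hK
      -- positivity
      have hre : ∑ j ∈ Finset.Ico 1 k, b j *
          (((A (j + l)).re - (A (k - j - l)).re
            - ((A l).re + (A (l + k)).re - (A (k - l)).re - (A (-l)).re)) *
           ((A (j + l)).re - (A (k - j - l)).re
            - ((A l).re + (A (l + k)).re - (A (k - l)).re - (A (-l)).re))) = 0 := by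
        have : ((∑ j ∈ Finset.Ico 1 k, b j *
          (((A (j + l)).re - (A (k - j - l)).re
            - ((A l).re + (A (l + k)).re - (A (k - l)).re - (A (-l)).re)) *
           ((A (j + l)).re - (A (k - j - l)).re
            - ((A l).re + (A (l + k)).re - (A (k - l)).re - (A (-l)).re))) : ℝ) : ℂ) = 0 := by
          push_cast
          simp only [hreal]
          exact hK
        exact_mod_cast this
      rw [Finset.sum_eq_zero_iff_of_nonneg
        (fun j _ => mul_nonneg (hb j) (mul_self_nonneg _))] at hre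
      intro j hj hbj
      have h5 := hre j hj
      have h6 : (A (j + l)).re - (A (k - j - l)).re
            - ((A l).re + (A (l + k)).re - (A (k - l)).re - (A (-l)).re) = 0 := by
        rcases mul_eq_zero.mp h5 with h7 | h7
        · exact absurd h7 hbj
        · exact mul_self_eq_zero.mp h7
      rw [← hreal (j + l), ← hreal (k - j - l), ← hreal l, ← hreal (l + k), ← hreal (k - l),
        ← hreal (-l)]
      exact_mod_cast (by linarith : (A (j + l)).re - (A (k - j - l)).re
        = (A l).re + (A (l + k)).re - (A (k - l)).re - (A (-l)).re)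
    intro l hl
    refine ⟨(A l + A (l + k) - A (k - l) - A (-l)).re, ?_, ?_⟩
    · intro j hj hbj
      rw [← main l hl j hj hbj]
      simp
    · intro j hj hbj
      have h1 := main (-l) (by rwa [abs_neg]) j hj hbj
      have h2 := congrArg Complex.re h1
      simp only [Complex.sub_re, Complex.add_re, neg_neg, sub_neg_eq_add, ← sub_eq_add_neg] at h2 ⊢
      have e1 : (-l + (k : ℤ)) = k - l := by ring
      have e2 : ((k : ℤ) + l) = l + k := by ring
      rw [e1, e2] at h2
      rw [h2]
      ring

end Pool.Agent.Helper60.Per
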