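import Pool.Agent.Helper60.Per.CaseZero2

set_option autoImplicit false

namespace Pool.Agent.Helper60.Per

open Finset

variable {k p : ℕ} {b : ℕ → ℝ}

theorem Sys.case_zero (hS : Sys k p 0 b) (hb : ∀ j, 0 ≤ b j)
    (hgcd : ∀ d : ℕ, d ∣ k → (∀ j ∈ Finset.Ico 1 k, b j ≠ 0 → d ∣ j) → d = 1) : k = 2 := by
  classical
  have hk := hS.hk
  have hpal := hS.palin
  have hex : ∃ j, j ∈ Finset.Ico 1 k ∧ b j ≠ 0 := by
    by_contra hcon
    push Not at hcon
    have h1 := hS.hsum
    rw [Finset.sum_eq_zero hcon] at h1
    norm_num at h1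
  set j0 := Nat.find hex with hj0def
  obtain ⟨hj0mem, hbj0⟩ := Nat.find_spec hex
  rw [← hj0def] at hj0mem hbj0
  have hmin : ∀ j ∈ Finset.Ico 1 k, b j ≠ 0 → j0 ≤ j := fun j hj hbj => Nat.find_min' hex ⟨hj, hbj⟩
  have hj0' := Finset.mem_Ico.mp hj0mem
  have hbpos : 0 < b j0 := lt_of_le_of_ne (hb j0) (Ne.symm hbj0)
  have hrefl_mem : k - j0 ∈ Finset.Ico 1 k := by rw [Finset.mem_Ico]; omega
  have hrefl : b (k - j0) ≠ 0 := by rw [hpal j0 hj0mem]; exact hbj0
  have h2j0 : 2 * j0 ≤ k := by
    have := hmin (k - j0) hrefl_mem hrefl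
    omega
  rcases Nat.eq_or_lt_of_le h2j0 with h2 | h2
  · -- J = {j0}
    have hall : ∀ j ∈ Finset.Ico 1 k, b j ≠ 0 → j = j0 := by
      intro j hj hbj
      have h3 := hmin j hj hbj
      have h4 := hmin (k - j) (by rw [Finset.mem_Ico] at hj ⊢; omega) (by rw [hpal j hj]; exact hbj)
      rw [Finset.mem_Ico] at hj
      omega
    have := hgcd j0 (by rw [← h2]; exact dvd_mul_left j0 2)
      (fun j hj hbj => by rw [hall j hj hbj])
    omega
  · exfalso
    obtain ⟨h, hneg, hzero, hrec, hC⟩ := hS.exists_h hb j0 hmin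
    -- recursion on (0,k)
    have hrec' : ∀ m : ℤ, 0 < m → m < k → h m = ∑ j ∈ Finset.Ico 1 k, b j * h (m - j) := by
      intro m h1 h2
      have := hrec m
      rw [hneg (m - k) (by omega) (by omega), add_zero] at this
      exact this
    have hnn : ∀ n : ℕ, (n : ℤ) < k → 0 ≤ h n := by
      intro n
      induction n using Nat.strong_induction_on with
      | _ n ih =>
        intro hn
        rcases Nat.eq_zero_or_pos n with h0 | h0
        · subst h0
          simp [hzero]
        · rw [hrec' n (by omega) hn]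
          apply Finset.sum_nonneg
          intro j hj
          rw [Finset.mem_Ico] at hj
          apply mul_nonneg (hb j)
          by_cases hjn : j ≤ n
          · have := ih (n - j) (by omega) (by omega)
            have e : ((n - j : ℕ) : ℤ) = n - j := by push_cast [hjn]; ring
            rwa [e] at this
          · rw [hneg (n - j) (by omega) (by omega)]
    have hnn' : ∀ m : ℤ, -(k : ℤ) < m → m < k → 0 ≤ h m := by
      intro m h1 h2
      rcases lt_or_ge m 0 with h3 | h3
      · rw [hneg m h1 h3]
      · have := hnn m.toNat (by omega)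
        rwa [Int.toNat_of_nonneg h3] at this
    have hterm : ∀ m : ℤ, 0 < m → m < k → ∀ j ∈ Finset.Ico 1 k, 0 ≤ b j * h (m - j) := by
      intro m h1 h2 j hj
      rw [Finset.mem_Ico] at hj
      exact mul_nonneg (hb j) (hnn' (m - j) (by omega) (by omega))
    -- small values
    have hsmall : ∀ m : ℤ, 0 < m → m < j0 → h m = 0 := by
      intro m h1 h2
      rw [hrec' m h1 (by omega)]
      apply Finset.sum_eq_zero
      intro j hj
      by_cases hbj : b j = 0
      · rw [hbj, zero_mul]
      · have := hmin j hj hbj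
        rw [Finset.mem_Ico] at hj
        rw [hneg (m - j) (by omega) (by omega), mul_zero]
    -- values in (j0, 2 j0)
    have hmid : ∀ m : ℕ, m < 2 * j0 → 0 < m → h m = if m ∈ Finset.Ico 1 k then b m else 0 := by
      intro m h1 h2
      rw [hrec' m (by omega) (by omega)]
      rw [if_pos (by rw [Finset.mem_Ico]; omega)]
      rw [Finset.sum_eq_single_of_mem m (by rw [Finset.mem_Ico]; omega)]
      · rw [sub_self, hzero, mul_one]
      · intro j hj hjm
        by_cases hbj : b j = 0
        · rw [hbj, zero_mul]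
        · have := hmin j hj hbj
          rw [Finset.mem_Ico] at hj
          rcases lt_or_gt_of_ne hjm with h3 | h3
          · rw [hsmall (m - j) (by omega) (by omega), mul_zero]
          · rw [hneg (m - j) (by omega) (by omega), mul_zero]
    have hhj0 : h j0 = b j0 := by
      rw [hmid j0 (by omega) (by omega), if_pos hj0mem]
    -- multiples of j0
    have hmult : ∀ i : ℕ, i * j0 < k → 0 < h ((i * j0 : ℕ) : ℤ) := by
      intro i
      induction i with
      | zero => intro _; simp [hzero]
      | succ i ih =>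
        intro hi
        have hij : i * j0 < k := by
          have : i * j0 ≤ (i + 1) * j0 := Nat.mul_le_mul_right _ (by omega)
          omega
        have hpos : (0 : ℤ) < (((i + 1) * j0 : ℕ) : ℤ) := by
          have : 0 < (i + 1) * j0 := Nat.mul_pos (by omega) (by omega)
          exact_mod_cast this
        rw [hrec' _ hpos (by exact_mod_cast hi)]
        apply Finset.sum_pos' (hterm _ hpos (by exact_mod_cast hi))
        refine ⟨j0, hj0mem, mul_pos hbpos ?_⟩
        have e : (((i + 1) * j0 : ℕ) : ℤ) - j0 = ((i * j0 : ℕ) : ℤ) := by push_cast; ring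
        rw [e]
        exact ih hij
    -- D_{j0} = 0
    have hD0 : h j0 = h (k - j0) := by
      obtain ⟨C, hC1, hC2⟩ := hC 0 (by simp; omega)
      have h3 := hC1 j0 hj0mem hbj0
      have h4 := hC2 j0 hj0mem hbj0
      simp only [add_zero, sub_zero] at h3 h4
      linarith
    have hk2 : h (k - 2 * j0) = 0 := by
      have h3 := hrec' (k - j0) (by omega) (by omega)
      rw [← hD0, hhj0] at h3
      have hne : k - j0 ≠ j0 := by omega
      have h4 : b (k - j0) * h ((k : ℤ) - j0 - (k - j0 : ℕ)) + b j0 * h ((k : ℤ) - j0 - j0)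
          ≤ ∑ j ∈ Finset.Ico 1 k, b j * h ((k : ℤ) - j0 - j) := by
        have h5 : ∑ j ∈ ({k - j0, j0} : Finset ℕ), b j * h ((k : ℤ) - j0 - j)
            ≤ ∑ j ∈ Finset.Ico 1 k, b j * h ((k : ℤ) - j0 - j) := by
          apply Finset.sum_le_sum_of_subset_of_nonneg
          · intro j hj
            rw [Finset.mem_insert, Finset.mem_singleton] at hj
            rcases hj with rfl | rfl
            · exact hrefl_mem
            · exact hj0mem
          · intro j hj _
            exact hterm _ (by omega) (by omega) j hj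
        rwa [Finset.sum_pair hne] at h5
      rw [← h3] at h4
      have e1 : (k : ℤ) - j0 - (k - j0 : ℕ) = 0 := by push_cast [hj0'.2.le]; ring
      have e2 : (k : ℤ) - j0 - j0 = k - 2 * j0 := by ring
      rw [e1, e2, hzero, hpal j0 hj0mem] at h4
      have h6 : 0 ≤ h (k - 2 * j0) := hnn' _ (by omega) (by omega)
      have h7 : b j0 * h (k - 2 * j0) ≤ 0 := by linarith
      have h8 : h (k - 2 * j0) ≤ 0 := by
        by_contra h9
        push Not at h9
        have := mul_pos hbpos h9
        linarith
      linarith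
    -- j0 does not divide k
    have hndvd : ¬ j0 ∣ k := by
      rintro ⟨q, hq⟩
      have hq2 : 2 ≤ q := by
        by_contra h9
        push Not at h9
        interval_cases q <;> omega
      have h3 := hmult (q - 2) (by
        have : (q - 2) * j0 + 2 * j0 = q * j0 := by
          rw [← Nat.add_mul]; congr 1; omega
        have h5 : q * j0 = k := by rw [hq]; ring
        omega)
      have e : (((q - 2) * j0 : ℕ) : ℤ) = k - 2 * j0 := by
        rw [hq]
        push_cast [hq2]
        ring
      rw [e, hk2] at h3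
      exact lt_irrefl _ h3
    set r := k % j0 with hr
    have hr0 : 0 < r := Nat.pos_of_ne_zero (fun h => hndvd (Nat.dvd_of_mod_eq_zero h))
    have hrlt : r < j0 := Nat.mod_lt _ (by omega)
    have hdm := Nat.div_add_mod k j0
    rw [← hr] at hdm
    set q := k / j0 with hqdef
    have hpos1 : 0 < h ((k : ℤ) - r) := by
      have h3 := hmult q (by rw [mul_comm] ; omega)
      have e : ((q * j0 : ℕ) : ℤ) = (k : ℤ) - r := by
        have : ((j0 * q + r : ℕ) : ℤ) = k := by exact_mod_cast hdm
        push_cast at this ⊢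
        linarith
      rwa [e] at h3
    have hrz : h r = 0 := hsmall r (by omega) (by omega)
    obtain ⟨C, hC1, hC2⟩ := hC ((j0 : ℤ) - r) (by rw [abs_lt]; omega)
    have h3 := hC2 j0 hj0mem hbj0
    have e1 : (j0 : ℤ) - (j0 - r) = r := by ring
    have e2 : (k : ℤ) - j0 + (j0 - r) = k - r := by ring
    rw [e1, e2, hrz] at h3
    have h4 := hC1 j0 hj0mem hbj0
    have h5 : 0 ≤ h ((k : ℤ) - j0 - (j0 - r)) := hnn' _ (by omega) (by omega)
    have h6 : 0 < h ((j0 : ℤ) + (j0 - r)) := by linarith
    have e3 : (j0 : ℤ) + (j0 - r) = ((2 * j0 - r : ℕ) : ℤ) := by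
      push_cast [show r ≤ 2 * j0 by omega]; ring
    rw [e3, hmid (2 * j0 - r) (by omega) (by omega)] at h6
    have hj'mem : 2 * j0 - r ∈ Finset.Ico 1 k := by rw [Finset.mem_Ico]; omega
    rw [if_pos hj'mem] at h6
    have h7 := hC2 (2 * j0 - r) hj'mem h6.ne'
    rw [← e3] at h7
    have e4 : (j0 : ℤ) + (j0 - r) - (j0 - r) = j0 := by ring
    have e5 : (k : ℤ) - (j0 + (j0 - r)) + (j0 - r) = k - j0 := by ring
    rw [e4, e5, hD0] at h7
    linarith

end Pool.Agent.Helper60.Per
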