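import Pool.Agent.Helper60.Per.Iso

set_option autoImplicit false

namespace Pool.Agent.Helper60.Per

open Finset PowerSeries

variable {k p : ℕ} {c : ℝ} {b : ℕ → ℝ}

theorem fin_dim {A : Type} [CommRing A] [Algebra ℂ A] (hk : 1 ≤ k) (c : ℂ) (b : ℕ → ℂ)
    (y : ℕ → A) (hper : ∀ n, y (n + k) = y n)
    (hrel : ∀ n, y n * y n = c • (1 : A) + ∑ j ∈ Finset.Ico 1 k, b j • y (n + j))
    (hnil : IsNilpotent (y 0 - 1)) : (y 0 - 1) ^ (2 ^ k) = 0 := by
  classical
  set M : Finset (Fin k) → A := fun T => ∏ i ∈ T, y i with hM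
  set V : Submodule ℂ A := Submodule.span ℂ (Set.range M) with hV
  have hMV : ∀ T, M T ∈ V := fun T => Submodule.subset_span ⟨T, rfl⟩
  have hmod : ∀ n, y n = y (n % k) := by
    intro n
    have h1 : ∀ q r, y (r + q * k) = y r := by
      intro q
      induction q with
      | zero => intro r; simp
      | succ q ih => intro r; rw [show r + (q + 1) * k = r + q * k + k by ring, hper, ih]
    conv_lhs => rw [← Nat.mod_add_div n k, mul_comm k]
    exact h1 _ _
  have key : ∀ s : ℕ, ∀ T : Finset (Fin k), T.card = s → ∀ i : Fin k, y i * M T ∈ V := by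
    intro s
    induction s using Nat.strong_induction_on with
    | _ s ih =>
      intro T hT i
      by_cases hi : i ∈ T
      · have h1 : M T = y i * M (T.erase i) := by
          simp only [hM]
          rw [Finset.mul_prod_erase T (fun i => y i) hi]
        rw [h1, ← mul_assoc, hrel, add_mul, Finset.sum_mul]
        apply V.add_mem
        · rw [smul_mul_assoc, one_mul]
          exact V.smul_mem _ (hMV _)
        · apply V.sum_mem
          intro j _
          rw [smul_mul_assoc]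
          apply V.smul_mem
          rw [hmod (i + j)]
          have h2 := ih (T.erase i).card (by
            rw [Finset.card_erase_of_mem hi, hT]
            have : 0 < T.card := Finset.card_pos.mpr ⟨i, hi⟩
            omega) (T.erase i) rfl ⟨(i + j) % k, Nat.mod_lt _ (by omega)⟩
          exact h2
      · have h1 : y i * M T = M (insert i T) := by
          simp only [hM]
          rw [Finset.prod_insert hi]
        rw [h1]
        exact hMV _
  have hclosed0 : ∀ v ∈ V, y 0 * v ∈ V := by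
    intro v hv
    rw [hV] at hv
    induction hv using Submodule.span_induction with
    | mem x hx =>
      obtain ⟨T, rfl⟩ := hx
      exact key _ T rfl ⟨0, hk⟩
    | zero => rw [mul_zero]; exact V.zero_mem
    | add a b _ _ ha hb => rw [mul_add]; exact V.add_mem ha hb
    | smul r a _ ha => rw [mul_smul_comm]; exact V.smul_mem _ ha
  have hclosed : ∀ v ∈ V, LinearMap.mulLeft ℂ (y 0 - 1) v ∈ V := by
    intro v hv
    rw [LinearMap.mulLeft_apply, sub_mul, one_mul]
    exact V.sub_mem (hclosed0 v hv) hv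
  have hone : (1 : A) ∈ V := by
    have := hMV ∅
    simpa [hM] using this
  have : Module.Finite ℂ V := by
    rw [hV]
    exact Module.Finite.span_of_finite ℂ (Set.finite_range M)
  set N : Module.End ℂ V := (LinearMap.mulLeft ℂ (y 0 - 1)).restrict hclosed with hN
  have hNpow : ∀ (r : ℕ) (v : V), (((N ^ r) v : V) : A) = (y 0 - 1) ^ r * (v : A) := by
    intro r
    induction r with
    | zero => intro v; simp
    | succ r ih =>
      intro v
      rw [pow_succ', Module.End.mul_apply]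
      have : ((N ((N ^ r) v) : V) : A) = (y 0 - 1) * (((N ^ r) v : V) : A) := by
        rw [hN, LinearMap.coe_restrict_apply, LinearMap.mulLeft_apply]
      rw [this, ih, pow_succ', mul_assoc]
  have hNnil : IsNilpotent N := by
    obtain ⟨r, hr⟩ := hnil
    refine ⟨r, ?_⟩
    ext v
    rw [hNpow, hr, zero_mul]
    simp
  have hchar := (LinearMap.isNilpotent_iff_charpoly N).mp hNnil
  have hCH := N.aeval_self_charpoly
  rw [hchar] at hCH
  simp only [map_pow, Polynomial.aeval_X] at hCH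
  have hfin : Module.finrank ℂ V ≤ 2 ^ k := by
    have := finrank_range_le_card (R := ℂ) M
    simpa [Set.finrank] using this
  have h1 : (y 0 - 1) ^ (Module.finrank ℂ V) = 0 := by
    have h2 := hNpow (Module.finrank ℂ V) ⟨1, hone⟩
    rw [hCH] at h2
    simpa using h2.symm
  exact pow_eq_zero_of_le hfin h1

/-- (ISO) no root with `μ ^ k = 1`. -/
theorem Sys.iso (hS : Sys k p c b) {μ : ℂ} (hμ : P k b μ = 0) : μ ^ k ≠ 1 := by
  intro hμk
  have hk := hS.hk
  obtain ⟨x, hx1, hx2, hx3, hx4⟩ := hS.exists_approx hμ hμk (2 ^ k)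
  set I : Ideal ℂ⟦X⟧ := Ideal.span {(X : ℂ⟦X⟧) ^ (2 ^ k + 2)} with hI
  set π : ℂ⟦X⟧ →ₐ[ℂ] (ℂ⟦X⟧ ⧸ I) := Ideal.Quotient.mkₐ ℂ I with hπ
  have hπ0 : ∀ f : ℂ⟦X⟧, π f = 0 ↔ (X : ℂ⟦X⟧) ^ (2 ^ k + 2) ∣ f := by
    intro f
    rw [hπ, Ideal.Quotient.mkₐ_eq_mk, Ideal.Quotient.eq_zero_iff_mem, hI,
      Ideal.mem_span_singleton]
  have hper : ∀ n, π (x (n + k)) = π (x n) := by
    intro n
    rw [← sub_eq_zero, ← map_sub, hπ0]
    exact hx3 n
  have hrel : ∀ n, π (x n) * π (x n) = (c : ℂ) • (1 : ℂ⟦X⟧ ⧸ I)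
      + ∑ j ∈ Finset.Ico 1 k, (b j : ℂ) • π (x (n + j)) := by
    intro n
    have h1 : π (x n) * π (x n) = π (x n * x (n + k)) := by rw [map_mul, hper]
    rw [h1, hx2 n, map_add, map_sum]
    have h2 : ∀ (r : ℝ) (f : ℂ⟦X⟧), r • f = (r : ℂ) • f := fun r f => (Complex.coe_smul r f).symm
    have h3 : ∀ j ∈ Finset.Ico 1 k, π (b j • x (n + j)) = (b j : ℂ) • π (x (n + j)) := by
      intro j _
      rw [h2, map_smul]
    rw [Finset.sum_congr rfl h3, h2, map_smul, map_one]
  have hx0 : (X : ℂ⟦X⟧) ∣ x 0 - 1 := by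
    rw [PowerSeries.X_dvd_iff, map_sub, hx1, map_one, sub_self]
  obtain ⟨u, hu⟩ := hx0
  have hu1 : constantCoeff u = 1 := by
    have h1 : coeff 1 (x 0 - 1) = coeff 1 (X * u) := by rw [hu]
    rw [map_sub, hx4, PowerSeries.coeff_one, if_neg one_ne_zero, sub_zero] at h1
    have h2 : coeff (0 + 1) (X * u) = coeff 0 u := PowerSeries.coeff_succ_X_mul 0 u
    rw [zero_add] at h2
    rw [h2, coeff_zero_eq_constantCoeff_apply] at h1
    exact h1.symm
  have hpow : ∀ r : ℕ, (π (x 0) - 1) ^ r = π (X ^ r * u ^ r) := by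
    intro r
    rw [← mul_pow, ← hu, map_pow, map_sub, map_one]
  have hnil : IsNilpotent (π (x 0) - 1) := by
    refine ⟨2 ^ k + 2, ?_⟩
    rw [hpow, hπ0]
    exact dvd_mul_right _ _
  have hfin := fin_dim hk (c : ℂ) (fun j => (b j : ℂ)) (fun n => π (x n)) hper hrel hnil
  rw [hpow, hπ0] at hfin
  have h3 := PowerSeries.X_pow_dvd_iff.mp hfin (2 ^ k) (by omega)
  have h4 := PowerSeries.coeff_X_pow_mul (u ^ (2 ^ k)) (2 ^ k) 0
  rw [zero_add] at h4
  rw [h4, coeff_zero_eq_constantCoeff_apply, map_pow, hu1, one_pow] at h3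
  exact one_ne_zero h3

end Pool.Agent.Helper60.Per
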