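import Pool.Agent.Helper60.Per.Prime
import Pool.Agent.Helper60.Per.Iso2

set_option autoImplicit false

namespace Pool.Agent.Helper60.Per

open Finset Polynomial

variable {k p : ℕ} {c : ℝ} {b : ℕ → ℝ}

theorem Sys.Bf_inv (hS : Sys k p c b) {x : ℂ} (hx : x ≠ 0) :
    x ^ k * Bf k b x⁻¹ = Bf k b x := by
  have h := hS.P_inv_eq hx
  rw [P_eq, P_eq] at h
  have hxk : x ^ k ≠ 0 := pow_ne_zero _ hx
  have h1 : x ^ k * (x⁻¹) ^ k = 1 := by rw [inv_pow, mul_inv_cancel₀ hxk]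
  linear_combination -h + h1

theorem re_eq_of_norm_one {z : ℂ} (hz : ‖z‖ = 1) : (z.re : ℂ) = (z + z⁻¹) / 2 := by
  have h1 : z⁻¹ = (starRingEnd ℂ) z := by
    rw [Complex.inv_def, Complex.normSq_eq_norm_sq, hz]; simp
  rw [h1, Complex.add_conj]
  push_cast
  ring

theorem Sys.even_zeta (hS : Sys k p c b) (hc : 0 < c) (hb : ∀ j, 0 ≤ b j)
    (hJ : ∃ j ∈ Finset.Ico 1 k, b j ≠ 0)
    (hgcd : ∀ d : ℕ, d ∣ k → (∀ j ∈ Finset.Ico 1 k, b j ≠ 0 → d ∣ j) → d = 1)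
    (heven : Even k) {y : ℂ} (hy : P k (pb c b) y = 0) : y ^ k ≠ -1 := by
  intro hyk
  have h1 := root_of_pzero hc hy hyk
  have h2 := hS.P_inv h1
  have h3 : (y⁻¹) ^ k = -1 := by rw [inv_pow, hyk]; norm_num
  have h4 := hS.zero_root_unique hc hb hJ hgcd h1 hyk h2 h3
  have hy0 := hS.ne_zero h1
  have h5 : y * y = 1 := by
    nth_rewrite 2 [h4]
    exact mul_inv_cancel₀ hy0
  obtain ⟨m, hm⟩ := heven
  have h6 : y ^ k = 1 := by
    rw [hm, ← two_mul, pow_mul, pow_two, h5, one_pow]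
  rw [h6] at hyk
  norm_num at hyk

/-- data attached to a root at `-c` -/
theorem Sys.root_data (hS : Sys k p c b) (hc : 0 < c) {y : ℂ} (hy : P k (pb c b) y = 0)
    (hyk : y ^ k ≠ -1) :
    ∃ (η : ℂ) (Y s : ℝ), ‖η‖ = 1 ∧ η * η = y ^ k ∧ (Y : ℂ) = η + η⁻¹ ∧
      (s : ℂ) = y ^ k + (y ^ k)⁻¹ ∧ Y ^ 2 = s + 2 ∧ s ≠ 0 ∧ 0 < s + 2 ∧
      Bf k b (y * y) * (y ^ k)⁻¹ = ((-((c + 1) * (s - 1) / s) - c * s : ℝ) : ℂ) := by
  have hS' := hS.prime hc
  have hc' : (0:ℝ) ≤ 1 / c := by positivity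
  have hy0 := hS'.ne_zero hy
  have hyn := hS'.norm_one hy
  have hak : ‖y ^ k‖ = 1 := by rw [norm_pow, hyn, one_pow]
  have hak0 : y ^ k ≠ 0 := pow_ne_zero _ hy0
  obtain ⟨η, hη⟩ := IsAlgClosed.exists_pow_nat_eq (y ^ k) (n := 2) (by norm_num)
  have hηn : ‖η‖ = 1 := by
    have h1 : ‖η‖ ^ 2 = 1 := by rw [← norm_pow, hη, hak]
    have h2 : 0 ≤ ‖η‖ := norm_nonneg η
    nlinarith
  have hη0 : η ≠ 0 := by
    intro h; rw [h, norm_zero] at hηn; exact zero_ne_one hηn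
  have hηη : η * η = y ^ k := by rw [← hη, pow_two]
  have hY := re_eq_of_norm_one hηn
  have hs := re_eq_of_norm_one hak
  have hY' : ((2 * η.re : ℝ) : ℂ) = η + η⁻¹ := by push_cast; rw [hY]; ring
  have hs' : ((2 * (y ^ k).re : ℝ) : ℂ) = y ^ k + (y ^ k)⁻¹ := by
    push_cast; rw [hs]; ring
  set Y : ℝ := 2 * η.re with hYdef
  set s : ℝ := 2 * (y ^ k).re with hsdef
  have hYs : Y ^ 2 = s + 2 := by
    have : ((Y ^ 2 : ℝ) : ℂ) = ((s + 2 : ℝ) : ℂ) := by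
      push_cast
      rw [hY', hs', ← hηη]
      field_simp
      ring
    exact_mod_cast this
  have hs0 : s ≠ 0 := by
    intro h
    apply hS'.s_ne hc' hy hyk
    rw [← hs', h]; simp
  have hpos : 0 < s + 2 := by
    rw [← hYs]
    have hYne : Y ≠ 0 := by
      intro h
      rw [h] at hYs
      have h2 : s = -2 := by linarith
      rw [h2] at hs'
      apply hyk
      have h3 : (y ^ k + 1) * (y ^ k + 1) = 0 := by
        push_cast at hs'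
        field_simp at hs'
        linear_combination -hs'
      have h4 := mul_self_eq_zero.mp h3
      linear_combination h4
    positivity
  refine ⟨η, Y, s, hηn, hηη, hY', hs', hYs, hs0, hpos, ?_⟩
  have hD := hS'.D hc' hy hyk
  rw [← hs', P_pb, mul_pow] at hD
  have hcne := cne hc
  have hsne : (s : ℂ) ≠ 0 := by exact_mod_cast hs0
  set a := y ^ k with hadef
  have e : a * a + 1 = a * (s : ℂ) := by rw [hs']; field_simp
  clear_value a
  push_cast at hD ⊢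
  generalize Bf k b (y * y) = w at hD ⊢
  field_simp at hD ⊢
  linear_combination hD + (-(c : ℂ) * s) * e

theorem sumUU (hS : Sys k p c b) {y z η θ : ℂ} (hy : ‖y‖ = 1) (hz : ‖z‖ = 1)
    (hη : ‖η‖ = 1) (hθ : ‖θ‖ = 1) (hηy : η * η = y ^ k) (hθz : θ * θ = z ^ k) :
    ((∑ j ∈ Finset.Ico 1 k, b j * ((y ^ j * η⁻¹).re * (z ^ j * θ⁻¹).re) : ℝ) : ℂ)
      = (Bf k b (y * z) * (η * θ)⁻¹ + Bf k b (y⁻¹ * z) * (η * θ⁻¹)) / 2 := by
  have ne_of : ∀ w : ℂ, ‖w‖ = 1 → w ≠ 0 := by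
    intro w hw h; rw [h, norm_zero] at hw; exact zero_ne_one hw
  have hy0 := ne_of y hy
  have hz0 := ne_of z hz
  have hη0 := ne_of η hη
  have hθ0 := ne_of θ hθ
  have n1 : ∀ j : ℕ, ‖y ^ j * η⁻¹‖ = 1 := by
    intro j; rw [norm_mul, norm_pow, hy, norm_inv, hη]; simp
  have n2 : ∀ j : ℕ, ‖z ^ j * θ⁻¹‖ = 1 := by
    intro j; rw [norm_mul, norm_pow, hz, norm_inv, hθ]; simp
  have i1 : Bf k b ((y * z)⁻¹) = ((y * z) ^ k)⁻¹ * Bf k b (y * z) := by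
    have h := hS.Bf_inv (mul_ne_zero hy0 hz0)
    rw [← h]
    have : (y * z) ^ k ≠ 0 := pow_ne_zero _ (mul_ne_zero hy0 hz0)
    field_simp
  have i2 : Bf k b ((y⁻¹ * z)⁻¹) = ((y⁻¹ * z) ^ k)⁻¹ * Bf k b (y⁻¹ * z) := by
    have hne : y⁻¹ * z ≠ 0 := mul_ne_zero (inv_ne_zero hy0) hz0
    have h := hS.Bf_inv hne
    rw [← h]
    have : (y⁻¹ * z) ^ k ≠ 0 := pow_ne_zero _ hne
    rw [← mul_assoc, inv_mul_cancel₀ this, one_mul]
  have h1 : ((∑ j ∈ Finset.Ico 1 k, b j * ((y ^ j * η⁻¹).re * (z ^ j * θ⁻¹).re) : ℝ) : ℂ)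
      = (Bf k b (y * z) * (η * θ)⁻¹ + Bf k b ((y * z)⁻¹) * (η * θ)
        + Bf k b (y⁻¹ * z) * (η * θ⁻¹) + Bf k b ((y⁻¹ * z)⁻¹) * (η⁻¹ * θ)) / 4 := by
    unfold Bf
    rw [Finset.sum_mul, Finset.sum_mul, Finset.sum_mul, Finset.sum_mul,
      ← Finset.sum_add_distrib, ← Finset.sum_add_distrib, ← Finset.sum_add_distrib,
      Finset.sum_div]
    push_cast
    apply Finset.sum_congr rfl
    intro j _
    rw [re_eq_of_norm_one (n1 j), re_eq_of_norm_one (n2 j)]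
    simp only [mul_inv, inv_inv, mul_pow, inv_pow]
    have hyj : y ^ j ≠ 0 := pow_ne_zero _ hy0
    have hzj : z ^ j ≠ 0 := pow_ne_zero _ hz0
    field_simp
    ring
  rw [h1, i1, i2, mul_pow, mul_pow, inv_pow, ← hηy, ← hθz]
  generalize Bf k b (y * z) = w1
  generalize Bf k b (y⁻¹ * z) = w2
  field_simp
  ring

/-- bound for `s` -/
theorem Sys.s_bound (hS : Sys k p c b) (hc : 0 < c) (hb : ∀ j, 0 ≤ b j) {y η : ℂ} {s : ℝ}
    (hy : P k (pb c b) y = 0)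
    (hη : ‖η‖ = 1) (hηη : η * η = y ^ k) (hs0 : s ≠ 0) (hpos : 0 < s + 2)
    (hB : Bf k b (y * y) * (y ^ k)⁻¹ = ((-((c + 1) * (s - 1) / s) - c * s : ℝ) : ℂ)) :
    1 / 2 < s ∧ ∑ j ∈ Finset.Ico 1 k, b j * ((y ^ j * η⁻¹).re * (y ^ j * η⁻¹).re)
      = ((c + 1) / s - c * (s + 2)) / 2 := by
  have hS' := hS.prime hc
  have hyn := hS'.norm_one hy
  have hy0 := hS'.ne_zero hy
  have hη0 : η ≠ 0 := by
    intro h; rw [h, norm_zero] at hη; exact zero_ne_one hη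
  have h1 := sumUU hS hyn hyn hη hη hηη hηη
  rw [inv_mul_cancel₀ hy0, mul_inv_cancel₀ hη0, mul_one, hηη, hB] at h1
  have hB1 : Bf k b 1 = ((1 - c : ℝ) : ℂ) := by
    have := hS.sumC
    unfold Bf
    simp only [one_pow, mul_one]
    push_cast
    linear_combination this
  rw [hB1] at h1
  have h2 : ∑ j ∈ Finset.Ico 1 k, b j * ((y ^ j * η⁻¹).re * (y ^ j * η⁻¹).re)
      = ((-((c + 1) * (s - 1) / s) - c * s) + (1 - c)) / 2 := by
    exact_mod_cast h1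
  have h3 : ∑ j ∈ Finset.Ico 1 k, b j * ((y ^ j * η⁻¹).re * (y ^ j * η⁻¹).re)
      = ((c + 1) / s - c * (s + 2)) / 2 := by
    rw [h2]; field_simp; ring
  have h4 : 0 ≤ ∑ j ∈ Finset.Ico 1 k, b j * ((y ^ j * η⁻¹).re * (y ^ j * η⁻¹).re) :=
    Finset.sum_nonneg (fun j _ => mul_nonneg (hb j) (mul_self_nonneg _))
  have h5 : ∑ j ∈ Finset.Ico 1 k, b j * ((y ^ j * η⁻¹).re * (y ^ j * η⁻¹).re) ≤ 1 - c := by
    have h6 : ∑ j ∈ Finset.Ico 1 k, b j * ((y ^ j * η⁻¹).re * (y ^ j * η⁻¹).re)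
        ≤ ∑ j ∈ Finset.Ico 1 k, b j := by
      apply Finset.sum_le_sum
      intro j _
      have h7 : |(y ^ j * η⁻¹).re| ≤ 1 := by
        apply (Complex.abs_re_le_norm _).trans
        rw [norm_mul, norm_pow, hyn, norm_inv, hη]; simp
      have h8 : (y ^ j * η⁻¹).re * (y ^ j * η⁻¹).re ≤ 1 := by
        rw [← abs_mul_abs_self]
        nlinarith [abs_nonneg (y ^ j * η⁻¹).re]
      nlinarith [hb j]
    have := hS.hsum
    linarith
  refine ⟨?_, h3⟩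
  rw [h3] at h4 h5
  have hspos : 0 < s := by
    by_contra hneg
    push Not at hneg
    have hneg' : s < 0 := lt_of_le_of_ne hneg hs0
    have : (c + 1) / s < 0 := div_neg_of_pos_of_neg (by linarith) hneg'
    nlinarith [mul_pos hc hpos]
  by_contra hle
  push Not at hle
  have h9 : (c + 1) / s ≤ 2 + c * s := by linarith
  rw [div_le_iff₀ hspos] at h9
  have h10 : s * s ≤ 1 / 4 := by nlinarith
  have h11 : c * (s * s) ≤ c * (1 / 4) := mul_le_mul_of_nonneg_left h10 hc.le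
  nlinarith

theorem Sys.same_class (hS : Sys k p c b) (hc : 0 < c) (hb : ∀ j, 0 ≤ b j) {y z : ℂ}
    (hy : P k (pb c b) y = 0) (hz : P k (pb c b) z = 0) (hy1 : y ^ k ≠ -1) (hz1 : z ^ k ≠ -1) :
    y ^ k + (y ^ k)⁻¹ = z ^ k + (z ^ k)⁻¹ := by
  by_contra hne
  have hS' := hS.prime hc
  have hc' : (0:ℝ) ≤ 1 / c := by positivity
  obtain ⟨η, Y, s, hη, hηη, hY, hs, hYs, hs0, hspos, hB⟩ := hS.root_data hc hy hy1
  obtain ⟨θ, W, t, hθ, hθθ, hW, ht, hWt, ht0, htpos, hB'⟩ := hS.root_data hc hz hz1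
  obtain ⟨hs2, hsum1⟩ := hS.s_bound hc hb hy hη hηη hs0 hspos hB
  obtain ⟨ht2, hsum2⟩ := hS.s_bound hc hb hz hθ hθθ ht0 htpos hB'
  have hyn := hS'.norm_one hy
  have hzn := hS'.norm_one hz
  have hy0 := hS'.ne_zero hy
  have hz0 := hS'.ne_zero hz
  have hy2 := hS'.iso hy
  have hz2 := hS'.iso hz
  have hyk0 : y ^ k ≠ 0 := pow_ne_zero _ hy0
  have hη0 : η ≠ 0 := by
    intro h; rw [h, norm_zero] at hη; exact zero_ne_one hη
  have hθ0 : θ ≠ 0 := by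
    intro h; rw [h, norm_zero] at hθ; exact zero_ne_one hθ
  have hne1 : y ^ k ≠ z ^ k := fun h => hne (by rw [h])
  have hne2 : y ^ k * z ^ k ≠ 1 := fun h => hne (by
    have : (z ^ k) = (y ^ k)⁻¹ := eq_inv_of_mul_eq_one_right h
    rw [this, inv_inv, add_comm])
  have m1 := hS'.mulroot hc' hy hz hy2 hz2 hne1 hne2
  have m2 := hS'.mulroot hc' (hS'.P_inv hy) hz
    (by rw [inv_pow]; intro h; exact hy2 (inv_eq_one.mp h)) hz2
    (by rw [inv_pow]; intro h; apply hne2; rw [← h]; exact mul_inv_cancel₀ hyk0)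
    (by rw [inv_pow]; intro h; apply hne1; exact (inv_mul_eq_one₀ hyk0).mp h)
  have hcross := sumUU hS hyn hzn hη hθ hηη hθθ
  have hcne := cne hc
  have hcrossval : ∑ j ∈ Finset.Ico 1 k, b j * ((y ^ j * η⁻¹).re * (z ^ j * θ⁻¹).re)
      = -((2 * c + 1) * (Y * W)) / 2 := by
    have : ((∑ j ∈ Finset.Ico 1 k, b j * ((y ^ j * η⁻¹).re * (z ^ j * θ⁻¹).re) : ℝ) : ℂ)
        = ((-((2 * c + 1) * (Y * W)) / 2 : ℝ) : ℂ) := by
      rw [hcross]
      push_cast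
      rw [hY, hW]
      rw [P_pb, mul_pow, ← hηη, ← hθθ] at m1
      rw [P_pb, mul_pow, inv_pow, ← hηη, ← hθθ] at m2
      push_cast at m1 m2
      generalize Bf k b (y * z) = w1 at m1 ⊢
      generalize Bf k b (y⁻¹ * z) = w2 at m2 ⊢
      have q1 : w1 = -(c + 1) * (η * η + θ * θ) - c * (η * η * (θ * θ) + 1) := by
        field_simp at m1
        linear_combination m1
      have q2 : w2 = -(c + 1) * ((η * η)⁻¹ + θ * θ) - c * ((η * η)⁻¹ * (θ * θ) + 1) := by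
        field_simp at m2 ⊢
        linear_combination m2
      rw [q1, q2]
      field_simp
      ring
    exact_mod_cast this
  -- positivity of the quadratic form
  have hpos : 0 ≤ ∑ j ∈ Finset.Ico 1 k, b j *
      ((W * (y ^ j * η⁻¹).re + Y * (z ^ j * θ⁻¹).re) *
       (W * (y ^ j * η⁻¹).re + Y * (z ^ j * θ⁻¹).re)) :=
    Finset.sum_nonneg (fun j _ => mul_nonneg (hb j) (mul_self_nonneg _))
  have hexp : ∑ j ∈ Finset.Ico 1 k, b j *
      ((W * (y ^ j * η⁻¹).re + Y * (z ^ j * θ⁻¹).re) *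
       (W * (y ^ j * η⁻¹).re + Y * (z ^ j * θ⁻¹).re))
      = W ^ 2 * ∑ j ∈ Finset.Ico 1 k, b j * ((y ^ j * η⁻¹).re * (y ^ j * η⁻¹).re)
        + Y ^ 2 * ∑ j ∈ Finset.Ico 1 k, b j * ((z ^ j * θ⁻¹).re * (z ^ j * θ⁻¹).re)
        + 2 * (Y * W) * ∑ j ∈ Finset.Ico 1 k, b j * ((y ^ j * η⁻¹).re * (z ^ j * θ⁻¹).re) := by
    rw [Finset.mul_sum, Finset.mul_sum, Finset.mul_sum, ← Finset.sum_add_distrib,
      ← Finset.sum_add_distrib]
    apply Finset.sum_congr rfl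
    intro j _
    ring
  rw [hexp, hsum1, hsum2, hcrossval] at hpos
  have hA : Y ^ 2 = s + 2 := hYs
  have hBt : W ^ 2 = t + 2 := hWt
  have hs' : 0 < s := by linarith
  have ht' : 0 < t := by linarith
  have k1 : (c + 1) / s ≤ (c + 1) * (4 / 5 * (s + 2)) := by
    rw [div_le_iff₀ hs']
    have : 1 ≤ 4 / 5 * (s + 2) * s := by nlinarith
    nlinarith
  have k2 : (c + 1) / t ≤ (c + 1) * (4 / 5 * (t + 2)) := by
    rw [div_le_iff₀ ht']
    have : 1 ≤ 4 / 5 * (t + 2) * t := by nlinarith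
    nlinarith
  have k3 : 0 < (s + 2) * (t + 2) := by positivity
  have k4 : W ^ 2 * (((c + 1) / s - c * (s + 2)) / 2) + Y ^ 2 * (((c + 1) / t - c * (t + 2)) / 2)
      + 2 * (Y * W) * (-((2 * c + 1) * (Y * W)) / 2)
      = ((t + 2) * ((c + 1) / s) + (s + 2) * ((c + 1) / t)) / 2
        - (3 * c + 1) * ((s + 2) * (t + 2)) := by
    have : 2 * (Y * W) * (-((2 * c + 1) * (Y * W)) / 2) = -((2 * c + 1) * (Y ^ 2 * W ^ 2)) := by
      ring
    rw [this, hA, hBt]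
    ring
  rw [k4] at hpos
  have k5 : (t + 2) * ((c + 1) / s) ≤ (c + 1) * (4 / 5 * ((s + 2) * (t + 2))) := by
    calc (t + 2) * ((c + 1) / s) ≤ (t + 2) * ((c + 1) * (4 / 5 * (s + 2))) := by gcongr
      _ = _ := by ring
  have k6 : (s + 2) * ((c + 1) / t) ≤ (c + 1) * (4 / 5 * ((s + 2) * (t + 2))) := by
    calc (s + 2) * ((c + 1) / t) ≤ (s + 2) * ((c + 1) * (4 / 5 * (t + 2))) := by gcongr
      _ = _ := by ring
  have k7 : ((c + 1) * (4 / 5) - (3 * c + 1)) * ((s + 2) * (t + 2)) < 0 := by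
    apply mul_neg_of_neg_of_pos _ k3
    linarith
  linarith

end Pool.Agent.Helper60.Per
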