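import Pool.Agent.Helper60.Per.Reduce

set_option autoImplicit false

namespace Pool.Agent.Helper60.Per

open Finset

/-- A Möbius map with nonnegative coefficients that maps `(0,∞)` onto `(0,∞)`. -/
theorem moebius_onto {α β A B : ℝ} (hα : 0 ≤ α) (hβ : 0 ≤ β) (hA : 0 ≤ A) (hB : 0 ≤ B)
    (hAB : A ^ 2 + B ^ 2 ≠ 0) (hnum : ∀ t, 0 < t → 0 < α + A * t)
    (hden : ∀ t, 0 < t → 0 < β + B * t)
    (hsurj : ∀ y, 0 < y → ∃ t, 0 < t ∧ (α + A * t) / (β + B * t) = y) :
    (0 < A ∧ B = 0 ∧ α = 0) ∨ (A = 0 ∧ 0 < B ∧ β = 0) := by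
  rcases eq_or_lt_of_le hB with hB0 | hBpos
  · left
    have hB0' : B = 0 := hB0.symm
    have hApos : 0 < A := by
      rcases eq_or_lt_of_le hA with h | h
      · exfalso; apply hAB; rw [← h, hB0']; norm_num
      · exact h
    refine ⟨hApos, hB0', ?_⟩
    by_contra hα0
    have hαpos : 0 < α := lt_of_le_of_ne hα (Ne.symm hα0)
    have hβpos : 0 < β := by have := hden 1 one_pos; rw [hB0'] at this; linarith
    obtain ⟨t, ht, h⟩ := hsurj (α / (2 * β)) (by positivity)
    rw [hB0', zero_mul, add_zero, div_eq_div_iff hβpos.ne' (by positivity)] at h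
    have h1 : 0 < A * t := mul_pos hApos ht
    nlinarith [mul_pos hαpos hβpos, mul_pos h1 hβpos]
  · right
    have hβ0 : β = 0 := by
      by_contra hβ0
      have hβpos : 0 < β := lt_of_le_of_ne hβ (Ne.symm hβ0)
      obtain ⟨t, ht, h⟩ := hsurj (α / β + A / B + 1) (by positivity)
      have hd := hden t ht
      rw [div_eq_iff hd.ne'] at h
      have e1 : α / β * β = α := by field_simp
      have e2 : A / B * B = A := by field_simp
      have h3 : 0 ≤ α / β := by positivity
      have h4 : 0 ≤ A / B := by positivity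
      have h5 : 0 < B * t := mul_pos hBpos ht
      have h6 : 0 ≤ α / β * (B * t) := mul_nonneg h3 h5.le
      have h7 : 0 ≤ A / B * β := mul_nonneg h4 hβ
      have : (α / β + A / B + 1) * (β + B * t) = α / β * β + α / β * (B * t) + A / B * β
        + (A / B * B) * t + (β + B * t) := by ring
      rw [this, e1, e2] at h
      linarith
    refine ⟨?_, hBpos, hβ0⟩
    by_contra hA0
    have hApos : 0 < A := lt_of_le_of_ne hA (Ne.symm hA0)
    obtain ⟨t, ht, h⟩ := hsurj (A / (2 * B)) (by positivity)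
    rw [hβ0, zero_add, div_eq_div_iff (by positivity) (by positivity)] at h
    have h1 : 0 < A * (B * t) := by positivity
    nlinarith [mul_nonneg hα hBpos.le]

/-- numerator / denominator -/
noncomputable def lin (k : ℕ) (A : Fin (k + 1) → ℝ) (y : ℕ → ℝ) : ℝ :=
  A 0 + ∑ i : Fin k, A i.succ * y (i : ℕ)

theorem lin_pos {k : ℕ} {A : Fin (k + 1) → ℝ} (hA : ∀ i, 0 ≤ A i) (hsum : 0 < ∑ i, A i)
    {y : ℕ → ℝ} (hy : ∀ i < k, 0 < y i) : 0 < lin k A y := by
  unfold lin
  rw [Fin.sum_univ_succ] at hsum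
  have hnn : ∀ i ∈ (Finset.univ : Finset (Fin k)), 0 ≤ A i.succ * y (i : ℕ) :=
    fun i _ => mul_nonneg (hA _) (hy i i.2).le
  rcases eq_or_lt_of_le (hA 0) with h | h
  · rw [← h, zero_add] at hsum ⊢
    obtain ⟨i, hi, hipos⟩ : ∃ i ∈ (Finset.univ : Finset (Fin k)), 0 < A i.succ := by
      by_contra hcon
      push Not at hcon
      have := Finset.sum_nonpos hcon
      linarith
    exact Finset.sum_pos' hnn ⟨i, hi, mul_pos hipos (hy i i.2)⟩
  · have := Finset.sum_nonneg hnn
    linarith

theorem lin_congr {k : ℕ} (A : Fin (k + 1) → ℝ) {y z : ℕ → ℝ} (h : ∀ i < k, y i = z i) :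
    lin k A y = lin k A z := by
  unfold lin
  congr 1
  apply Finset.sum_congr rfl
  intro i _
  rw [h i i.2]

/-- splitting off the first variable -/
theorem lin_split {k : ℕ} (hk : 1 ≤ k) (A : Fin (k + 1) → ℝ) (y : ℕ → ℝ) :
    lin k A y = (A 0 + ∑ i ∈ (Finset.univ : Finset (Fin k)).erase ⟨0, hk⟩, A i.succ * y (i : ℕ))
      + A 1 * y 0 := by
  unfold lin
  have h1 : (1 : Fin (k + 1)) = (⟨0, hk⟩ : Fin k).succ := by
    apply Fin.ext
    obtain ⟨m, rfl⟩ : ∃ m, k = m + 1 := ⟨k - 1, by omega⟩
    simp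
  rw [← Finset.sum_erase_add _ _ (Finset.mem_univ (⟨0, hk⟩ : Fin k)), h1]
  ring

theorem exists_orbit_gen (k : ℕ) (hk : 1 ≤ k) (A B : Fin (k + 1) → ℝ) (hA : ∀ i, 0 ≤ A i)
    (hB : ∀ i, 0 ≤ B i) (hAs : 0 < ∑ i, A i) (hBs : 0 < ∑ i, B i) (v : ℕ → ℝ)
    (hv : ∀ i < k, 0 < v i) :
    ∃ x : ℕ → ℝ, (∀ i < k, x i = v i) ∧ (∀ n, 0 < x n) ∧
      ∀ n, x (n + k) = lin k A (fun i => x (n + i)) / lin k B (fun i => x (n + i)) := by
  obtain ⟨x, hx1, hx2⟩ := exists_seq k hk v
    (fun g => (A 0 + ∑ i : Fin k, A i.succ * g i) / (B 0 + ∑ i : Fin k, B i.succ * g i))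
  have hrec : ∀ n, x (n + k) = lin k A (fun i => x (n + i)) / lin k B (fun i => x (n + i)) :=
    hx2
  refine ⟨x, hx1, ?_, hrec⟩
  intro n
  induction n using Nat.strong_induction_on with
  | _ n ih =>
    by_cases hn : n < k
    · rw [hx1 n hn]; exact hv n hn
    · obtain ⟨m, rfl⟩ : ∃ m, n = m + k := ⟨n - k, by omega⟩
      rw [hrec m]
      exact div_pos (lin_pos hA hAs (fun i hi => ih (m + i) (by omega)))
        (lin_pos hB hBs (fun i hi => ih (m + i) (by omega)))

theorem onto_of_periodic (k p : ℕ) (hk : 1 ≤ k) (hp : 1 ≤ p) (A B : Fin (k + 1) → ℝ)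
    (hA : ∀ i, 0 ≤ A i) (hB : ∀ i, 0 ≤ B i) (hAs : 0 < ∑ i, A i) (hBs : 0 < ∑ i, B i)
    (hper : ∀ x : ℕ → ℝ, (∀ n, 0 < x n) →
      (∀ n, x (n + k) = lin k A (fun i => x (n + i)) / lin k B (fun i => x (n + i))) →
      ∀ n, x (n + p) = x n) (y : ℝ) (hy : 0 < y) :
    ∃ t, 0 < t ∧ lin k A (fun i => if i = 0 then t else 1) /
      lin k B (fun i => if i = 0 then t else 1) = y := by
  obtain ⟨x, hx1, hx2, hx3⟩ := exists_orbit_gen k hk A B hA hB hAs hBs
    (fun i => if i = k - 1 then y else 1) (by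
      intro i _
      split_ifs
      · exact hy
      · exact one_pos)
  have hxper := hper x hx2 hx3
  refine ⟨x (p - 1), hx2 _, ?_⟩
  have h1 := hx3 (p - 1)
  have h2 : x (p - 1 + k) = y := by
    rw [show p - 1 + k = (k - 1) + p by omega, hxper, hx1 (k - 1) (by omega), if_pos rfl]
  have h3 : ∀ i < k, x (p - 1 + i) = if i = 0 then x (p - 1) else 1 := by
    intro i hi
    split_ifs with h0
    · subst h0; rfl
    · rw [show p - 1 + i = (i - 1) + p by omega, hxper, hx1 (i - 1) (by omega),
        if_neg (by omega)]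
  rw [← h2, h1, lin_congr A h3, lin_congr B h3]

/-- Case I: `F = A₁ x₁ / (B₀ + ∑_{i≥2} B_i x_i)`. -/
theorem caseI (k p : ℕ) (hk : 1 ≤ k) (hp : 1 ≤ p) (A1 : ℝ) (hA1 : 0 < A1)
    (A B : Fin (k + 1) → ℝ) (hA : ∀ i, 0 ≤ A i) (hAs : 0 < ∑ i, A i)
    (hB : ∀ i, 0 ≤ B i) (hBs : 0 < ∑ i, B i) (hB1 : B 1 = 0)
    (hAform : ∀ y : ℕ → ℝ, lin k A y = A1 * y 0)
    (hper : ∀ x : ℕ → ℝ, (∀ n, 0 < x n) →
      (∀ n, x (n + k) = lin k A (fun i => x (n + i)) / lin k B (fun i => x (n + i))) →
      ∀ n, x (n + p) = x n) :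
    ∀ y : ℕ → ℝ, (∀ i, 0 < y i) → lin k A y / lin k B y = y 0 := by
  classical
  have h10 : (1 : Fin (k + 1)) = (⟨0, hk⟩ : Fin k).succ := by
    apply Fin.ext
    obtain ⟨m, rfl⟩ : ∃ m, k = m + 1 := ⟨k - 1, by omega⟩
    simp
  set σ : ℝ := ∑ i : Fin k, B i.succ with hσ
  have hσnn : 0 ≤ σ := Finset.sum_nonneg (fun i _ => hB _)
  -- key: sigma = 0
  have hσ0 : σ = 0 := by
    by_contra hne
    have hσpos : 0 < σ := lt_of_le_of_ne hσnn (Ne.symm hne)
    set K : ℝ := max 1 (2 * A1 / σ) with hK
    have hK1 : 1 ≤ K := le_max_left _ _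
    have hK2 : 2 * A1 ≤ σ * K := by
      have : 2 * A1 / σ ≤ K := le_max_right _ _
      rw [div_le_iff₀ hσpos] at this
      linarith
    obtain ⟨x, hx1, hx2, hx3⟩ := exists_orbit_gen k hk A B hA hB hAs hBs (fun _ => K)
      (fun i _ => by show 0 < K; linarith)
    have hxper := hper x hx2 hx3
    have hxper' : ∀ i m, x (m + i * p) = x m := by
      intro i
      induction i with
      | zero => intro m; simp
      | succ i ih => intro m; rw [show m + (i + 1) * p = m + i * p + p by ring, hxper, ih]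
    -- lower bound for the denominator
    have hden : ∀ m, (∀ i, 1 ≤ i → i < k → K ≤ x (m + i)) →
        σ * K ≤ lin k B (fun i => x (m + i)) := by
      intro m hm
      unfold lin
      have : σ * K ≤ ∑ i : Fin k, B i.succ * x (m + i) := by
        rw [hσ, Finset.sum_mul]
        apply Finset.sum_le_sum
        intro i _
        by_cases hi : (i : ℕ) = 0
        · have : i = ⟨0, hk⟩ := Fin.ext hi
          rw [this, ← h10, hB1, zero_mul, zero_mul]
        · exact mul_le_mul_of_nonneg_left (hm i (by omega) i.2) (hB _)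
      have := hB 0
      linarith
    have hrel : ∀ m, x (m + k) * lin k B (fun i => x (m + i)) = A1 * x m := by
      intro m
      have hpos := lin_pos hB hBs (y := fun i => x (m + i)) (fun i _ => hx2 _)
      rw [hx3 m, hAform, div_mul_cancel₀ _ hpos.ne']
      rfl
    have hdown : ∀ N m : ℕ, m ≤ N * p → ∀ i < k, K ≤ x (m + i) := by
      intro N m hm
      obtain ⟨d, hd⟩ : ∃ d, m + d = N * p := ⟨N * p - m, by omega⟩
      induction d generalizing m with
      | zero =>
        intro i hi
        rw [add_zero] at hd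
        rw [hd, add_comm, hxper', hx1 i hi]
      | succ d ih =>
        have h1 := ih (m + 1) (by omega) (by omega)
        have hm1 : ∀ i, 1 ≤ i → i < k → K ≤ x (m + i) := by
          intro i hi1 hi2
          have := h1 (i - 1) (by omega)
          rwa [show m + 1 + (i - 1) = m + i by omega] at this
        intro i hi
        rcases Nat.eq_zero_or_pos i with h0 | h0
        · subst h0
          have h2 := hden m hm1
          have h3 := h1 (k - 1) (by omega)
          rw [show m + 1 + (k - 1) = m + k by omega] at h3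
          have h4 := hrel m
          have hKpos : 0 < K := by linarith
          have h5 : K * (2 * A1) ≤ A1 * x m := by
            rw [← h4]
            calc K * (2 * A1) ≤ K * (σ * K) := by gcongr
              _ ≤ x (m + k) * lin k B (fun i => x (m + i)) := by
                  apply mul_le_mul h3 h2 (by positivity) (hx2 _).le
          have h6 : A1 * K ≤ A1 * x m := by nlinarith
          rw [add_zero]
          exact le_of_mul_le_mul_left h6 hA1
        · exact hm1 i h0 hi
    have hall : ∀ m i, i < k → K ≤ x (m + i) := by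
      intro m
      exact hdown m m (Nat.le_mul_of_pos_right m hp)
    have hhalf : ∀ m, x (m + k) ≤ x m / 2 := by
      intro m
      have h2 := hden m (fun i _ hi => hall m i hi)
      have h4 := hrel m
      have h5 : x (m + k) * (2 * A1) ≤ A1 * x m := by
        rw [← h4]
        exact mul_le_mul_of_nonneg_left (hK2.trans h2) (hx2 _).le
      nlinarith
    have hdec : ∀ j, 1 ≤ j → x (j * k) ≤ x 0 / 2 := by
      intro j hj
      induction j, hj using Nat.le_induction with
      | base => have := hhalf 0; simpa using this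
      | succ j hj ih =>
        have h1 := hhalf (j * k)
        rw [show (j + 1) * k = j * k + k by ring]
        have := hx2 (j * k)
        linarith
    have h7 := hdec p hp
    have h8 : x (p * k) = x 0 := by
      have := hxper' k 0
      rw [zero_add, mul_comm] at this
      exact this
    rw [h8] at h7
    have := hx2 0
    linarith
  have hBzero : ∀ i : Fin k, B i.succ = 0 := by
    intro i
    have := (Finset.sum_eq_zero_iff_of_nonneg (fun i _ => hB (Fin.succ i))).mp hσ0
    exact this i (Finset.mem_univ i)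
  have hBform : ∀ y : ℕ → ℝ, lin k B y = B 0 := by
    intro y
    unfold lin
    rw [Finset.sum_eq_zero (fun i _ => by rw [hBzero i, zero_mul]), add_zero]
  have hB0 : 0 < B 0 := by
    have := lin_pos hB hBs (y := fun _ => 1) (fun _ _ => one_pos)
    rwa [hBform] at this
  obtain ⟨x, hx1, hx2, hx3⟩ := exists_orbit_gen k hk A B hA hB hAs hBs (fun _ => 1)
    (fun _ _ => one_pos)
  have hxper := hper x hx2 hx3
  have hxper' : ∀ i m, x (m + i * p) = x m := by
    intro i
    induction i with
    | zero => intro m; simp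
    | succ i ih => intro m; rw [show m + (i + 1) * p = m + i * p + p by ring, hxper, ih]
  have hpow : ∀ j, x (j * k) = (A1 / B 0) ^ j := by
    intro j
    induction j with
    | zero => simp [hx1 0 (by omega)]
    | succ j ih =>
      rw [show (j + 1) * k = j * k + k by ring, hx3, hAform, hBform]
      simp only [add_zero]
      rw [ih, pow_succ]
      ring
  have h8 : x (p * k) = 1 := by
    have := hxper' k 0
    rw [zero_add, mul_comm] at this
    rw [this, hx1 0 (by omega)]
  rw [hpow] at h8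
  have h9 : A1 / B 0 = 1 := by
    have h0 : 0 ≤ A1 / B 0 := by positivity
    exact (pow_eq_one_iff_of_nonneg h0 (by omega)).mp h8
  intro y _
  rw [hAform, hBform, mul_comm, mul_div_assoc, h9, mul_one]

end Pool.Agent.Helper60.Per
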