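import Pool.Agent.Helper60.Per.Basic2

set_option autoImplicit false

namespace Pool.Agent.Helper60.Per

open Finset PowerSeries

variable {k p : ℕ} {c : ℝ} {b : ℕ → ℝ}

theorem constCoeff_smul (r : ℝ) (f : ℂ⟦X⟧) :
    constantCoeff (r • f) = (r : ℂ) * constantCoeff f := by
  rw [← coeff_zero_eq_constantCoeff_apply, ← coeff_zero_eq_constantCoeff_apply]
  have : (r • f) = (r : ℂ) • f := (Complex.coe_smul r f).symm
  rw [this, map_smul, smul_eq_mul]

/-- Formal solutions with prescribed initial data. -/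
theorem Sys.exists_formal (hS : Sys k p c b) (v : ℕ → ℂ⟦X⟧)
    (hv : ∀ i < k, constantCoeff (v i) = 1) :
    ∃ x : ℕ → ℂ⟦X⟧, (∀ i < k, x i = v i) ∧ (∀ n, constantCoeff (x n) = 1) ∧ Rec k c b x := by
  have hk := hS.hk
  obtain ⟨x, hx1, hx2⟩ := exists_seq k hk v
    (fun g => (c • (1 : ℂ⟦X⟧) + ∑ j : Fin k, if 1 ≤ (j : ℕ) then b j • g j else 0) *
      (g ⟨0, hk⟩)⁻¹)
  have hsumeq : ∀ n, (∑ j : Fin k, if 1 ≤ (j : ℕ) then b j • x (n + j) else 0)
      = ∑ j ∈ Finset.Ico 1 k, b j • x (n + j) := by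
    intro n
    rw [Fin.sum_univ_eq_sum_range (fun j => if 1 ≤ j then b j • x (n + j) else 0) k,
      ← Finset.sum_filter]
    apply Finset.sum_congr _ (fun _ _ => rfl)
    ext j
    simp only [Finset.mem_filter, Finset.mem_range, Finset.mem_Ico]
    tauto
  have hrec : ∀ n, x (n + k) = (c • (1 : ℂ⟦X⟧) + ∑ j ∈ Finset.Ico 1 k, b j • x (n + j)) *
      (x n)⁻¹ := by
    intro n
    rw [hx2 n, ← hsumeq n]
    simp
  have hconst : ∀ n, constantCoeff (x n) = 1 := by
    intro n
    induction n using Nat.strong_induction_on with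
    | _ n ih =>
      by_cases hn : n < k
      · rw [hx1 n hn]; exact hv n hn
      · obtain ⟨m, rfl⟩ : ∃ m, n = m + k := ⟨n - k, by omega⟩
        rw [hrec m, map_mul, map_add, map_sum, constCoeff_smul, constantCoeff_inv,
          ih m (by omega), map_one]
        have : ∑ j ∈ Finset.Ico 1 k, constantCoeff (b j • x (m + j))
            = ∑ j ∈ Finset.Ico 1 k, (b j : ℂ) := by
          apply Finset.sum_congr rfl
          intro j hj
          rw [Finset.mem_Ico] at hj
          rw [constCoeff_smul, ih (m + j) (by omega), mul_one]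
        rw [this, mul_one, hS.sumC]
        simp
  refine ⟨x, hx1, hconst, ?_⟩
  intro n
  rw [hrec n, mul_comm, mul_assoc, PowerSeries.inv_mul_cancel, mul_one]
  rw [hconst n]
  exact one_ne_zero

theorem isUnit_of_const {f : ℂ⟦X⟧} (hf : constantCoeff f = 1) : IsUnit f := by
  rw [PowerSeries.isUnit_iff_constantCoeff, hf]
  exact isUnit_one

theorem dvd_of_unit_mul {f g h : ℂ⟦X⟧} (hf : constantCoeff f = 1) (hd : h ∣ f * g) : h ∣ g := by
  obtain ⟨u, rfl⟩ := isUnit_of_const hf
  exact (Units.dvd_mul_left).mp hd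

/-- approximate solutions are close to exact ones -/
theorem approx (c : ℝ) (b : ℕ → ℝ) (hk : 1 ≤ k) (m : ℕ) (x y : ℕ → ℂ⟦X⟧)
    (hx : ∀ n, constantCoeff (x n) = 1)
    (hrec : Rec k c b x)
    (hy : ∀ n, (X : ℂ⟦X⟧) ^ m ∣ y n * y (n + k) -
      (c • (1 : ℂ⟦X⟧) + ∑ j ∈ Finset.Ico 1 k, b j • y (n + j)))
    (hinit : ∀ i < k, x i = y i) : ∀ n, (X : ℂ⟦X⟧) ^ m ∣ x n - y n := by
  intro n
  induction n using Nat.strong_induction_on with
  | _ n ih =>
    by_cases hn : n < k
    · rw [hinit n hn, sub_self]; exact dvd_zero _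
    · obtain ⟨l, rfl⟩ : ∃ l, n = l + k := ⟨n - k, by omega⟩
      apply dvd_of_unit_mul (hx l)
      have e : x l * (x (l + k) - y (l + k))
          = (∑ j ∈ Finset.Ico 1 k, b j • (x (l + j) - y (l + j)))
            - (y l * y (l + k) - (c • (1 : ℂ⟦X⟧) + ∑ j ∈ Finset.Ico 1 k, b j • y (l + j)))
            - (x l - y l) * y (l + k) := by
        have h1 := hrec l
        simp only [smul_sub, Finset.sum_sub_distrib]
        linear_combination h1
      rw [e]
      apply dvd_sub (dvd_sub _ (hy l)) ((ih l (by omega)).mul_right _)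
      apply Finset.dvd_sum
      intro j hj
      rw [Finset.mem_Ico] at hj
      have h2 : (b j • (x (l + j) - y (l + j)) : ℂ⟦X⟧) = (b j : ℂ) • (x (l + j) - y (l + j)) :=
        (Complex.coe_smul _ _).symm
      rw [h2, PowerSeries.smul_eq_C_mul]
      exact (ih (l + j) (by omega)).mul_left _

/-- improvement step -/
theorem Sys.improve (hS : Sys k p c b) (m : ℕ) (hm : 2 ≤ m) (x : ℕ → ℂ⟦X⟧)
    (hx : ∀ n, constantCoeff (x n) = 1) (hrec : Rec k c b x)
    (hper : ∀ n, (X : ℂ⟦X⟧) ^ m ∣ x (n + k) - x n) (hx1 : coeff 1 (x 0) = 1) :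
    ∃ x' : ℕ → ℂ⟦X⟧, (∀ n, constantCoeff (x' n) = 1) ∧ Rec k c b x' ∧
      (∀ n, (X : ℂ⟦X⟧) ^ (m + 1) ∣ x' (n + k) - x' n) ∧ coeff 1 (x' 0) = 1 := by
  have hk := hS.hk
  have hp := hS.hp
  have hp' : (p : ℂ) ≠ 0 := by exact_mod_cast (by omega : p ≠ 0)
  have hexact : ∀ n, x (n + p) = x n := hS.hper ℂ⟦X⟧ x (fun n => isUnit_of_const (hx n)) hrec
  have hexact' : ∀ i n, x (n + i * p) = x n := by
    intro i
    induction i with
    | zero => intro n; simp
    | succ i ih =>
      intro n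
      rw [show n + (i + 1) * p = (n + i * p) + p by ring, hexact, ih]
  -- the difference
  set d : ℕ → ℕ → ℂ⟦X⟧ := fun l n => x (n + l * k) - x n with hd
  have hdd : ∀ l n, (X : ℂ⟦X⟧) ^ m ∣ d l n := by
    intro l
    induction l with
    | zero => intro n; simp [hd]
    | succ l ih =>
      intro n
      have e : d (l + 1) n = (x (n + l * k + k) - x (n + l * k)) + d l n := by
        simp only [hd]
        rw [show n + (l + 1) * k = n + l * k + k by ring]
        ring
      rw [e]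
      exact dvd_add (hper _) (ih n)
  set D : ℕ → ℂ⟦X⟧ := fun n => (p : ℂ)⁻¹ • ∑ l ∈ Finset.range p, d l n with hD
  have hDd : ∀ n, (X : ℂ⟦X⟧) ^ m ∣ D n := by
    intro n
    simp only [hD]
    rw [PowerSeries.smul_eq_C_mul]
    exact (Finset.dvd_sum (fun l _ => hdd l n)).mul_left _
  set z : ℕ → ℂ⟦X⟧ := fun n => x n + D n with hz
  -- z is the average
  have hzavg : ∀ n, (p : ℂ) • z n = ∑ l ∈ Finset.range p, x (n + l * k) := by
    intro n
    simp only [hz, hD, hd]
    rw [smul_add, smul_smul, mul_inv_cancel₀ hp', one_smul, Finset.sum_sub_distrib,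
      Finset.sum_const, Finset.card_range]
    have : (p : ℂ) • x n = p • x n := by
      rw [Nat.cast_smul_eq_nsmul]
    rw [this]
    ring
  have hinj : ∀ f g : ℂ⟦X⟧, (p : ℂ) • f = (p : ℂ) • g → f = g := by
    intro f g h
    have h2 := congrArg (fun w => (p : ℂ)⁻¹ • w) h
    simpa [smul_smul, inv_mul_cancel₀ hp'] using h2
  have hzper : ∀ n, z (n + k) = z n := by
    intro n
    apply hinj
    rw [hzavg, hzavg]
    have h1 : ∑ l ∈ Finset.range p, x (n + k + l * k)
        = ∑ l ∈ Finset.range p, x (n + (l + 1) * k) := by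
      apply Finset.sum_congr rfl
      intro l _
      congr 1
      ring
    rw [h1]
    have h2 := Finset.sum_range_succ (fun l => x (n + l * k)) p
    have h3 := Finset.sum_range_succ' (fun l => x (n + l * k)) p
    rw [h2] at h3
    have h4 : x (n + p * k) = x (n + 0 * k) := by
      rw [mul_comm, hexact', zero_mul, add_zero]
    rw [h4] at h3
    exact (add_right_cancel h3).symm
  -- z is an approximate solution
  have hzapprox : ∀ n, (X : ℂ⟦X⟧) ^ (m + 1) ∣ z n * z (n + k) -
      (c • (1 : ℂ⟦X⟧) + ∑ j ∈ Finset.Ico 1 k, b j • z (n + j)) := by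
    intro n
    have hsmulb : ∀ (r : ℝ) (f : ℂ⟦X⟧), r • f = (r : ℂ) • f := fun r f =>
      (Complex.coe_smul r f).symm
    -- p • LHS
    have e1 : (p : ℂ) • (c • (1 : ℂ⟦X⟧) + ∑ j ∈ Finset.Ico 1 k, b j • z (n + j))
        = ∑ l ∈ Finset.range p, x (n + l * k) * x (n + k + l * k) := by
      have h1 : ∀ l ∈ Finset.range p, x (n + l * k) * x (n + k + l * k)
          = c • (1 : ℂ⟦X⟧) + ∑ j ∈ Finset.Ico 1 k, b j • x (n + j + l * k) := by
        intro l _
        have := hrec (n + l * k)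
        rw [show n + k + l * k = n + l * k + k by ring, this]
        congr 1
        apply Finset.sum_congr rfl
        intro j _
        rw [show n + j + l * k = n + l * k + j by ring]
      rw [Finset.sum_congr rfl h1, Finset.sum_add_distrib, Finset.sum_const, Finset.card_range,
        smul_add, Nat.cast_smul_eq_nsmul, Finset.sum_comm, Finset.smul_sum]
      congr 1
      apply Finset.sum_congr rfl
      intro j _
      rw [← Finset.smul_sum, ← hzavg, smul_comm]
    have e2 : (p : ℂ) • (z n * z (n + k) -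
        (c • (1 : ℂ⟦X⟧) + ∑ j ∈ Finset.Ico 1 k, b j • z (n + j)))
        = (p : ℂ) • (D n * D (n + k)) - ∑ l ∈ Finset.range p, d l n * d l (n + k) := by
      rw [smul_sub, e1]
      have h2 : ∑ l ∈ Finset.range p, x (n + l * k) * x (n + k + l * k)
          = ∑ l ∈ Finset.range p, (x n * x (n + k) + x n * d l (n + k) + x (n + k) * d l n
            + d l n * d l (n + k)) := by
        apply Finset.sum_congr rfl
        intro l _
        simp only [hd]
        ring
      rw [h2, Finset.sum_add_distrib, Finset.sum_add_distrib, Finset.sum_add_distrib,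
        Finset.sum_const, Finset.card_range, ← Finset.mul_sum, ← Finset.mul_sum]
      have h3 : ∀ q, ∑ l ∈ Finset.range p, d l q = (p : ℂ) • D q := by
        intro q
        simp only [hD]
        rw [smul_smul, mul_inv_cancel₀ hp', one_smul]
      rw [h3, h3]
      simp only [hz]
      have h4 : p • (x n * x (n + k)) = (p : ℂ) • (x n * x (n + k)) := by
        rw [Nat.cast_smul_eq_nsmul]
      rw [h4]
      generalize D n = D1
      generalize D (n + k) = D2
      simp only [PowerSeries.smul_eq_C_mul]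
      ring
    have e3 : (X : ℂ⟦X⟧) ^ (m + 1) ∣ (p : ℂ) • (z n * z (n + k) -
        (c • (1 : ℂ⟦X⟧) + ∑ j ∈ Finset.Ico 1 k, b j • z (n + j))) := by
      rw [e2]
      have hmm : (X : ℂ⟦X⟧) ^ (m + 1) ∣ X ^ m * X ^ m := by
        rw [← pow_add]
        exact pow_dvd_pow _ (by omega)
      apply dvd_sub
      · rw [PowerSeries.smul_eq_C_mul]
        exact (hmm.trans (mul_dvd_mul (hDd n) (hDd (n + k)))).mul_left _
      · apply Finset.dvd_sum
        intro l _
        exact hmm.trans (mul_dvd_mul (hdd l n) (hdd l (n + k)))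
    rw [PowerSeries.smul_eq_C_mul] at e3
    have hu : IsUnit (C (p : ℂ)) := (isUnit_iff_ne_zero.mpr hp').map (C (R := ℂ))
    obtain ⟨u, hu'⟩ := hu
    rw [← hu'] at e3
    exact (Units.dvd_mul_left).mp e3
  have hzc : ∀ n, constantCoeff (z n) = 1 := by
    intro n
    simp only [hz]
    rw [map_add, hx n]
    have h1 := PowerSeries.X_pow_dvd_iff.mp (hDd n) 0 (by omega)
    rw [coeff_zero_eq_constantCoeff_apply] at h1
    rw [h1, add_zero]
  obtain ⟨x', hx'1, hx'2, hx'3⟩ := hS.exists_formal z (fun i _ => hzc i)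
  refine ⟨x', hx'2, hx'3, ?_, ?_⟩
  · intro n
    have h1 := approx c b hk (m + 1) x' z hx'2 hx'3 hzapprox hx'1
    have e : x' (n + k) - x' n = (x' (n + k) - z (n + k)) - (x' n - z n) := by
      rw [hzper n]; ring
    rw [e]
    exact dvd_sub (h1 _) (h1 _)
  · rw [hx'1 0 (by omega)]
    simp only [hz]
    rw [map_add, hx1, PowerSeries.X_pow_dvd_iff.mp (hDd 0) 1 (by omega), add_zero]

theorem Sys.exists_approx (hS : Sys k p c b) {μ : ℂ} (hμ : P k b μ = 0) (hμk : μ ^ k = 1)
    (m : ℕ) :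
    ∃ x : ℕ → ℂ⟦X⟧, (∀ n, constantCoeff (x n) = 1) ∧ Rec k c b x ∧
      (∀ n, (X : ℂ⟦X⟧) ^ (m + 2) ∣ x (n + k) - x n) ∧ coeff 1 (x 0) = 1 := by
  have hk := hS.hk
  induction m with
  | zero =>
    set y : ℕ → ℂ⟦X⟧ := fun n => 1 + C (μ ^ n) * X with hy
    have hyc : ∀ n, constantCoeff (y n) = 1 := by
      intro n; simp [hy]
    obtain ⟨x, hx1, hx2, hx3⟩ := hS.exists_formal y (fun i _ => hyc i)
    have hyper : ∀ n, y (n + k) = y n := by
      intro n
      simp only [hy]
      rw [pow_add, hμk, mul_one]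
    have happ : ∀ n, (X : ℂ⟦X⟧) ^ (0 + 2) ∣ y n * y (n + k) -
        (c • (1 : ℂ⟦X⟧) + ∑ j ∈ Finset.Ico 1 k, b j • y (n + j)) := by
      intro n
      refine ⟨C (μ ^ n) * C (μ ^ (n + k)), ?_⟩
      have h1 := pow_sol hμ n
      have h2 := hS.sumC
      have h3 : ∑ j ∈ Finset.Ico 1 k, b j • y (n + j)
          = C (∑ j ∈ Finset.Ico 1 k, (b j : ℂ))
            + C (∑ j ∈ Finset.Ico 1 k, (b j : ℂ) * μ ^ (n + j)) * X := by
        rw [map_sum, map_sum, Finset.sum_mul, ← Finset.sum_add_distrib]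
        apply Finset.sum_congr rfl
        intro j _
        have : (b j • y (n + j) : ℂ⟦X⟧) = (b j : ℂ) • y (n + j) := (Complex.coe_smul _ _).symm
        rw [this, PowerSeries.smul_eq_C_mul]
        simp only [hy]
        rw [mul_add, mul_one, map_mul]
        ring
      have h4 : (c • (1 : ℂ⟦X⟧)) = C (c : ℂ) := by
        have : (c • (1 : ℂ⟦X⟧)) = (c : ℂ) • (1 : ℂ⟦X⟧) := (Complex.coe_smul _ _).symm
        rw [this, PowerSeries.smul_eq_C_mul, mul_one]
      rw [h3, h4, ← h1]
      have h5 : C (c : ℂ) + C (∑ j ∈ Finset.Ico 1 k, (b j : ℂ)) = (1 : ℂ⟦X⟧) := by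
        rw [← map_add, h2, map_one]
      simp only [hy]
      rw [map_add]
      linear_combination -h5
    refine ⟨x, hx2, hx3, ?_, ?_⟩
    · intro n
      have h1 := approx c b hk (0 + 2) x y hx2 hx3 happ hx1
      have e : x (n + k) - x n = (x (n + k) - y (n + k)) - (x n - y n) := by
        rw [hyper n]; ring
      rw [e]
      exact dvd_sub (h1 _) (h1 _)
    · rw [hx1 0 (by omega)]
      simp [hy]
  | succ m ih =>
    obtain ⟨x, hx1, hx2, hx3, hx4⟩ := ih
    exact hS.improve (m + 2) (by omega) x hx1 hx2 hx3 hx4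

end Pool.Agent.Helper60.Per
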