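import Pool.Agent.Helper60.Per.Prime

set_option autoImplicit false

namespace Pool.Agent.Helper60.Per

open Finset Polynomial

variable {k p : ℕ} {c : ℝ} {b : ℕ → ℝ}

/-- generic coefficient formula -/
theorem coeff_sum_ico (g : ℕ → ℂ) (i : ℕ) :
    (∑ j ∈ Finset.Ico 1 k, C (g j) * X ^ j : ℂ[X]).coeff i
      = if i ∈ Finset.Ico 1 k then g i else 0 := by
  simp only [finsetSum_coeff, coeff_C_mul, coeff_X_pow]
  split_ifs with hi
  · rw [Finset.sum_eq_single_of_mem i hi]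
    · simp
    · intro j _ hij
      rw [if_neg (fun h => hij h.symm), mul_zero]
  · apply Finset.sum_eq_zero
    intro j hj
    rw [if_neg (fun h => hi (by rw [h]; exact hj)), mul_zero]

theorem degree_sum_ico (hk : 1 ≤ k) (g : ℕ → ℂ) :
    (∑ j ∈ Finset.Ico 1 k, C (g j) * X ^ j : ℂ[X]).degree < k := by
  have := hk
  apply lt_of_le_of_lt (degree_sum_le _ _)
  rw [Finset.sup_lt_iff (by exact_mod_cast (WithBot.bot_lt_coe k))]
  intro j hj
  rw [Finset.mem_Ico] at hj
  exact lt_of_le_of_lt (degree_C_mul_X_pow_le _ _) (by exact_mod_cast hj.2)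

theorem Sys.odd_identity (hS : Sys k p c b) (hc : 0 < c) (hb : ∀ j, 0 ≤ b j)
    (hJ : ∃ j ∈ Finset.Ico 1 k, b j ≠ 0)
    (hgcd : ∀ d : ℕ, d ∣ k → (∀ j ∈ Finset.Ico 1 k, b j ≠ 0 → d ∣ j) → d = 1)
    (hodd : Odd k) :
    (C 2 * X ^ k - C 2 * X ^ 1 + (∑ j ∈ Finset.Ico 1 k, C ((b j : ℂ) / c) * X ^ j) * (1 - X)
      + (∑ j ∈ Finset.Ico 1 k, C ((b j : ℂ) * (-1) ^ j) * X ^ j) * (1 + X) : ℂ[X]) = 0 := by
  classical
  have hk := hS.hk
  have hcne := cne hc
  have hm1 : P k b (-1) = 0 := hS.P_neg_one hodd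
  have hm1k : (-1 : ℂ) ^ k = -1 := hodd.neg_one_pow
  have hpm1 : P k (pb c b) (-1) = 0 := proot_of_zero hm1 hm1k
  set E : ℂ[X] := C 2 * X ^ k - C 2 * X ^ 1
      + (∑ j ∈ Finset.Ico 1 k, C ((b j : ℂ) / c) * X ^ j) * (1 - X)
      + (∑ j ∈ Finset.Ico 1 k, C ((b j : ℂ) * (-1) ^ j) * X ^ j) * (1 + X) with hE
  have heval : ∀ x : ℂ, E.eval x = P k (pb c b) x * (1 - x) - P k b (-x) * (1 + x) := by
    intro x
    rw [hE, P_pb, P_eq]
    simp only [eval_add, eval_sub, eval_mul, eval_pow, eval_X, eval_one,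
      Polynomial.eval_finsetSum, eval_C]
    have h1 : ∑ j ∈ Finset.Ico 1 k, (b j : ℂ) / c * x ^ j = Bf k b x / c := by
      unfold Bf
      rw [Finset.sum_div]
      apply Finset.sum_congr rfl
      intro j _
      ring
    have h2 : ∑ j ∈ Finset.Ico 1 k, (b j : ℂ) * (-1) ^ j * x ^ j = Bf k b (-x) := by
      unfold Bf
      apply Finset.sum_congr rfl
      intro j _
      rw [neg_pow x]; ring
    rw [h1, h2, neg_pow x, hm1k]
    ring
  have hdeg : E.degree < (k + 1 : ℕ) := by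
    have hX : (X : ℂ[X]).degree = 1 := degree_X
    have hk' : ((k : ℕ) : WithBot ℕ) < ((k + 1 : ℕ) : WithBot ℕ) := by
      exact_mod_cast Nat.lt_succ_self k
    have d1 : (C 2 * X ^ k : ℂ[X]).degree < (k + 1 : ℕ) := by
      refine lt_of_le_of_lt ?_ hk'
      exact degree_C_mul_X_pow_le _ _
    have d2 : (C 2 * X ^ 1 : ℂ[X]).degree < (k + 1 : ℕ) := by
      refine lt_of_le_of_lt (degree_C_mul_X_pow_le _ _) ?_
      exact_mod_cast (by omega : 1 < k + 1)
    have d3 : ∀ (G L : ℂ[X]), G.degree < k → L.degree ≤ 1 → (G * L).degree < (k + 1 : ℕ) := by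
      intro G L hG hL
      by_cases hG0 : G = 0
      · rw [hG0, zero_mul, degree_zero]
        exact WithBot.bot_lt_coe _
      · rw [degree_eq_natDegree hG0] at hG
        have hG' : G.natDegree < k := by exact_mod_cast hG
        apply lt_of_le_of_lt (degree_mul_le _ _)
        rw [degree_eq_natDegree hG0]
        calc (G.natDegree : WithBot ℕ) + L.degree ≤ G.natDegree + 1 := by gcongr
          _ < (k + 1 : ℕ) := by exact_mod_cast (by omega)
    have l1 : (1 - X : ℂ[X]).degree ≤ 1 := by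
      apply (degree_sub_le _ _).trans
      rw [degree_one, hX]; simp
    have l2 : (1 + X : ℂ[X]).degree ≤ 1 := by
      apply (degree_add_le _ _).trans
      rw [degree_one, hX]; simp
    rw [hE]
    refine lt_of_le_of_lt (degree_add_le _ _) (max_lt ?_ (d3 _ _ (degree_sum_ico hk _) l2))
    refine lt_of_le_of_lt (degree_add_le _ _) (max_lt ?_ (d3 _ _ (degree_sum_ico hk _) l1))
    exact lt_of_le_of_lt (degree_sub_le _ _) (max_lt d1 d2)
  have hinj : Function.Injective (fun x : ℂ => -x) := neg_injective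
  have hnot : (-1 : ℂ) ∉ (Z k b).image (fun x => -x) := by
    rw [Finset.mem_image]
    rintro ⟨x, hx, hx2⟩
    have hx' := (mem_Z hk).mp hx
    have : x = 1 := by linear_combination -hx2
    rw [this, hS.P_one] at hx'
    exact one_add_ne hc.le hx'
  apply Polynomial.eq_zero_of_degree_lt_of_eval_finset_eq_zero
    (insert (-1) ((Z k b).image (fun x => -x)))
  · rw [Finset.card_insert_of_notMem hnot, Finset.card_image_of_injective _ hinj, hS.card_Z]
    exact hdeg
  · intro y hy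
    rw [heval]
    rw [Finset.mem_insert, Finset.mem_image] at hy
    rcases hy with rfl | ⟨x, hx, rfl⟩
    · rw [hpm1]; ring
    · have hx' := (mem_Z hk).mp hx
      rw [neg_neg, hx']
      by_cases hxk : x ^ k = -1
      · have : x = -1 := hS.zero_root_unique hc hb hJ hgcd hx' hxk hm1 hm1k
        rw [this]; ring
      · have h1 := hS.cross1 hc hb hm1 hm1k hx' hxk
        rw [neg_one_mul] at h1
        rw [h1]; ring

theorem Sys.odd_coeffs (hS : Sys k p c b) (hc : 0 < c) (hb : ∀ j, 0 ≤ b j)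
    (hJ : ∃ j ∈ Finset.Ico 1 k, b j ≠ 0)
    (hgcd : ∀ d : ℕ, d ∣ k → (∀ j ∈ Finset.Ico 1 k, b j ≠ 0 → d ∣ j) → d = 1)
    (hodd : Odd k) (hk3 : 3 ≤ k) :
    b 1 * (1 - c) = 2 * c ∧ ∀ j ∈ Finset.Ico 1 k, b j = b 1 := by
  have hE := hS.odd_identity hc hb hJ hgcd hodd
  have hcne := cne hc
  have hc1 : c < 1 := by
    obtain ⟨j, hj, hbj⟩ := hJ
    have h1 : 0 < ∑ j ∈ Finset.Ico 1 k, b j :=
      Finset.sum_pos' (fun i _ => hb i) ⟨j, hj, lt_of_le_of_ne (hb j) (Ne.symm hbj)⟩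
    have := hS.hsum
    linarith
  have hco : ∀ i : ℕ, i + 1 < k → (if i + 1 = 1 then (-2 : ℂ) else 0)
      + ((b (i + 1) : ℂ) / c - if i ∈ Finset.Ico 1 k then (b i : ℂ) / c else 0)
      + ((b (i + 1) : ℂ) * (-1) ^ (i + 1)
        + if i ∈ Finset.Ico 1 k then (b i : ℂ) * (-1) ^ i else 0) = 0 := by
    intro i hi
    have h1 := congrArg (fun q : ℂ[X] => q.coeff (i + 1)) hE
    simp only [mul_sub, mul_add, mul_one, coeff_add, coeff_sub, coeff_zero, coeff_mul_X,
      coeff_sum_ico, coeff_C_mul, coeff_X_pow] at h1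
    rw [if_pos (show i + 1 ∈ Finset.Ico 1 k by rw [Finset.mem_Ico]; omega),
      if_pos (show i + 1 ∈ Finset.Ico 1 k by rw [Finset.mem_Ico]; omega),
      if_neg (show ¬ (i + 1 = k) by omega)] at h1
    refine Eq.trans ?_ h1
    split_ifs <;> ring
  have h1 := hco 0 (by omega)
  rw [if_pos rfl, if_neg (by simp), if_neg (by simp)] at h1
  have hb1 : b 1 * (1 - c) = 2 * c := by
    have : (b 1 : ℂ) * (1 - c) = 2 * c := by
      field_simp at h1
      linear_combination h1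
    exact_mod_cast this
  refine ⟨hb1, ?_⟩
  have hstep : ∀ i : ℕ, 1 ≤ i → i + 1 < k → b (i + 1) = b i := by
    intro i hi1 hi2
    have h2 := hco i hi2
    rw [if_neg (by omega), if_pos (by rw [Finset.mem_Ico]; omega),
      if_pos (by rw [Finset.mem_Ico]; omega)] at h2
    have h3 : ((1 : ℂ) + c * (-1) ^ (i + 1)) * ((b (i + 1) : ℂ) - b i) = 0 := by
      rw [pow_succ] at h2 ⊢
      field_simp at h2
      linear_combination h2
    have h4 : ((1 : ℝ) + c * (-1) ^ (i + 1)) * (b (i + 1) - b i) = 0 := by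
      exact_mod_cast h3
    rcases mul_eq_zero.mp h4 with h5 | h5
    · exfalso
      rcases neg_one_pow_eq_or ℝ (i + 1) with h6 | h6 <;> rw [h6] at h5 <;> linarith
    · linarith
  intro j hj
  rw [Finset.mem_Ico] at hj
  obtain ⟨hj1, hj2⟩ := hj
  induction j, hj1 using Nat.le_induction with
  | base => rfl
  | succ i hi ih => rw [hstep i hi hj2, ih (by omega)]

/-- The odd case. -/
theorem Sys.odd_case (hS : Sys k p c b) (hc : 0 < c) (hb : ∀ j, 0 ≤ b j)
    (hJ : ∃ j ∈ Finset.Ico 1 k, b j ≠ 0)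
    (hgcd : ∀ d : ℕ, d ∣ k → (∀ j ∈ Finset.Ico 1 k, b j ≠ 0 → d ∣ j) → d = 1)
    (hodd : Odd k) : k = 3 ∧ b 2 = b 1 ∧ c = b 1 ^ 2 := by
  classical
  have hk := hS.hk
  have hk3 : 3 ≤ k := by
    obtain ⟨j, hj, hbj⟩ := hJ
    rw [Finset.mem_Ico] at hj
    obtain ⟨m, hm⟩ := hodd
    omega
  obtain ⟨h1, h2⟩ := hS.odd_coeffs hc hb hJ hgcd hodd hk3
  have hcne := cne hc
  have hb1pos : 0 < b 1 := by
    obtain ⟨j, hj, hbj⟩ := hJ
    rw [← h2 j hj]
    exact lt_of_le_of_ne (hb j) (Ne.symm hbj)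
  have hc1 : c < 1 := by
    by_contra h
    push Not at h
    nlinarith
  have hsum : (k - 1 : ℝ) * b 1 = 1 - c := by
    have h3 := hS.hsum
    rw [Finset.sum_congr rfl h2, Finset.sum_const, Nat.card_Ico, nsmul_eq_mul] at h3
    push_cast [hk] at h3
    linarith
  -- integrality of b_{k-1}/c
  have hS' := hS.prime hc
  have hint : IsIntegral ℤ ((b 1 : ℂ) / c) := by
    have hnext : (Pol k (pb c b)).nextCoeff = (b 1 : ℂ) / c := by
      rw [nextCoeff_of_natDegree_pos (by rw [natDegree_Pol hk]; omega), natDegree_Pol hk]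
      unfold Pol
      simp only [coeff_sub, coeff_add, coeff_X_pow, coeff_one]
      rw [if_neg (by omega), if_neg (by omega), coeff_sum_ico,
        if_pos (by rw [Finset.mem_Ico]; omega)]
      unfold pb
      rw [h2 (k - 1) (by rw [Finset.mem_Ico]; omega)]
      push_cast
      ring
    have hsumroots := (IsAlgClosed.splits (Pol k (pb c b))).nextCoeff_eq_neg_sum_roots_of_monic
      (monic_Pol hk _)
    rw [hnext] at hsumroots
    rw [hsumroots]
    apply IsIntegral.neg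
    apply IsIntegral.multiset_sum
    intro x hx
    rw [mem_roots (Pol_ne_zero hk _), IsRoot, eval_Pol] at hx
    have hxp := hS'.pow_p hx
    refine ⟨X ^ p - 1, monic_X_pow_sub_C 1 (by have := hS.hp; omega), ?_⟩
    simp [hxp]
  set t : ℝ := b 1 / c - 1 with ht
  have ht2 : t ^ 2 = ((k + 1 : ℕ) : ℝ) / ((k - 1 : ℕ) : ℝ) := by
    have hk1 : (0 : ℝ) < (k : ℝ) - 1 := by
      have : (3 : ℝ) ≤ k := by exact_mod_cast hk3
      linarith
    have h1c : (0 : ℝ) < 1 - c := by linarith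
    have hb1 : b 1 = 2 * c / (1 - c) := by field_simp; linarith
    have hq : (k - 1 : ℝ) * (2 * c) = (1 - c) ^ 2 := by
      rw [← h1, ← mul_assoc, hsum]; ring
    have ht' : t = (1 + c) / (1 - c) := by
      rw [ht, hb1]; field_simp; ring
    rw [ht']
    push_cast [hk]
    rw [div_pow, div_eq_div_iff (by positivity) (by positivity)]
    nlinarith [hq]
  have hintt : IsIntegral ℤ ((t : ℂ) ^ 2) := by
    apply IsIntegral.pow
    rw [ht]
    push_cast
    exact hint.sub isIntegral_one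
  have hq : IsIntegral ℤ (((k + 1 : ℕ) : ℚ) / ((k - 1 : ℕ) : ℚ)) := by
    have e : (t : ℂ) ^ 2 = algebraMap ℚ ℂ (((k + 1 : ℕ) : ℚ) / ((k - 1 : ℕ) : ℚ)) := by
      have := congrArg (fun r : ℝ => (r : ℂ)) ht2
      simp only [Complex.ofReal_pow] at this
      rw [this]
      push_cast
      simp
    rw [e] at hintt
    exact (isIntegral_algebraMap_iff (algebraMap ℚ ℂ).injective).mp hintt
  obtain ⟨z, hz⟩ := IsIntegrallyClosed.isIntegral_iff.mp hq
  have hk1 : ((k - 1 : ℕ) : ℚ) ≠ 0 := by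
    have : k - 1 ≠ 0 := by omega
    exact_mod_cast this
  have hz2 : (z : ℤ) * ((k - 1 : ℕ) : ℤ) = ((k + 1 : ℕ) : ℤ) := by
    have h3 : (z : ℚ) * ((k - 1 : ℕ) : ℚ) = ((k + 1 : ℕ) : ℚ) := by
      have h4 : (z : ℚ) = ((k + 1 : ℕ) : ℚ) / ((k - 1 : ℕ) : ℚ) := hz
      rw [h4]
      field_simp
    exact_mod_cast h3
  have hdvd : ((k - 1 : ℕ) : ℤ) ∣ ((k + 1 : ℕ) : ℤ) := ⟨z, by linarith⟩
  have hdvd2 : (k - 1) ∣ (k + 1) := by exact_mod_cast hdvd
  have hdvd3 : (k - 1) ∣ 2 := by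
    have : k + 1 = (k - 1) + 2 := by omega
    rw [this] at hdvd2
    exact (Nat.dvd_add_right (dvd_refl _)).mp hdvd2
  have hle : k - 1 ≤ 2 := Nat.le_of_dvd (by norm_num) hdvd3
  have hk3' : k = 3 := by omega
  subst hk3'
  refine ⟨rfl, h2 2 (by decide), ?_⟩
  push_cast at hsum
  nlinarith

end Pool.Agent.Helper60.Per
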