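import Pool.Agent.Helper60.Per.EvenCase
import Pool.Agent.Helper60.Per.OddCase
import Pool.Agent.Helper60.Per.CaseZero3

set_option autoImplicit false

namespace Pool.Agent.Helper60.Per

open Finset Polynomial

variable {k p : ℕ} {c : ℝ} {b : ℕ → ℝ}

theorem Sys.not_antipodal (hS : Sys k p c b) (hc : 0 < c) (hb : ∀ j, 0 ≤ b j)
    (hgcd : ∀ d : ℕ, d ∣ k → (∀ j ∈ Finset.Ico 1 k, b j ≠ 0 → d ∣ j) → d = 1)
    (heven : Even k) {y : ℂ} (hy : P k (pb c b) y = 0) (hyk : y ^ k ≠ -1) :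
    P k (pb c b) (-y) ≠ 0 := by
  intro hy'
  have hS' := hS.prime hc
  have hc' : (0:ℝ) ≤ 1 / c := by positivity
  have h := hS'.antipodal hc' heven hy hy' hyk
  rw [P_pb, P_pb, heven.neg_one_pow, one_pow] at h
  have hcne := cne hc
  have h1 : Bf k b (-1) = Bf k b 1 := by
    field_simp at h
    linear_combination h
  have h2 : ∑ j ∈ Finset.Ico 1 k, b j * (1 - (-1) ^ j) = 0 := by
    have : ((∑ j ∈ Finset.Ico 1 k, b j * (1 - (-1) ^ j) : ℝ) : ℂ) = 0 := by
      have h3 : Bf k b 1 - Bf k b (-1) = 0 := by rw [h1]; ring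
      unfold Bf at h3
      rw [← Finset.sum_sub_distrib] at h3
      push_cast
      rw [← h3]
      apply Finset.sum_congr rfl
      intro j _
      rw [one_pow]; ring
    exact_mod_cast this
  have hnn : ∀ j : ℕ, (0 : ℝ) ≤ 1 - (-1) ^ j := by
    intro j
    rcases neg_one_pow_eq_or ℝ j with h | h <;> rw [h] <;> norm_num
  rw [Finset.sum_eq_zero_iff_of_nonneg (fun j _ => mul_nonneg (hb j) (hnn j))] at h2
  have h3 := hgcd 2 heven.two_dvd (by
    intro j hj hbj
    rcases mul_eq_zero.mp (h2 j hj) with h4 | h4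
    · exact absurd h4 hbj
    · rcases Nat.even_or_odd j with h5 | h5
      · exact h5.two_dvd
      · rw [h5.neg_one_pow] at h4; norm_num at h4)
  omega

theorem Sys.even_support (hS : Sys k p c b) (hc : 0 < c) (hb : ∀ j, 0 ≤ b j)
    (hJ : ∃ j ∈ Finset.Ico 1 k, b j ≠ 0)
    (hgcd : ∀ d : ℕ, d ∣ k → (∀ j ∈ Finset.Ico 1 k, b j ≠ 0 → d ∣ j) → d = 1)
    (heven : Even k) : k = 2 := by
  classical
  have hk := hS.hk
  have hS' := hS.prime hc
  have hcne := cne hc
  have hk2 : 2 ≤ k := by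
    obtain ⟨j, hj, _⟩ := hJ
    rw [Finset.mem_Ico] at hj
    omega
  obtain ⟨n, hn⟩ := heven
  have hkn : k = 2 * n := by omega
  have heven : Even k := ⟨n, hn⟩
  -- pick a root
  have hne : (Z k (pb c b)).Nonempty := by
    rw [← Finset.card_pos, hS'.card_Z]; omega
  obtain ⟨y0, hy0⟩ := hne
  rw [mem_Z hk] at hy0
  have hz : ∀ y, P k (pb c b) y = 0 → y ^ k ≠ -1 := fun y hy =>
    hS.even_zeta hc hb hJ hgcd heven hy
  obtain ⟨η, Y, s, hη, hηη, hY, hs, hYs, hs0, hspos, hB⟩ := hS.root_data hc hy0 (hz y0 hy0)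
  set T : ℂ := ((-((c + 1) * (s - 1) / s) - c * s : ℝ) : ℂ) with hT
  have hval : ∀ y, P k (pb c b) y = 0 → Bf k b (y * y) = T * y ^ k := by
    intro y hy
    obtain ⟨η', Y', s', hη', hηη', hY', hs', hYs', hs0', hspos', hB'⟩ :=
      hS.root_data hc hy (hz y hy)
    have hss : s = s' := by
      have := hS.same_class hc hb hy0 hy (hz y0 hy0) (hz y hy)
      rw [← hs, ← hs'] at this
      exact_mod_cast this
    have hyk : y ^ k ≠ 0 := pow_ne_zero _ (hS'.ne_zero hy)
    rw [hT, hss, ← hB']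
    field_simp
  have hinj : Set.InjOn (fun y : ℂ => y * y) (Z k (pb c b)) := by
    intro x hx y hy hxy
    rw [Finset.mem_coe, mem_Z hk] at hx hy
    have h1 : (x - y) * (x + y) = 0 := by
      have : x * x = y * y := hxy
      linear_combination this
    rcases mul_eq_zero.mp h1 with h2 | h2
    · exact sub_eq_zero.mp h2
    · exfalso
      have h3 : y = -x := by linear_combination h2
      rw [h3] at hy
      exact hS.not_antipodal hc hb hgcd heven hx (hz x hx) hy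
  have hzero : BPol k b - C T * X ^ n = 0 := by
    apply Polynomial.eq_zero_of_degree_lt_of_eval_finset_eq_zero
      ((Z k (pb c b)).image (fun y => y * y))
    · rw [Finset.card_image_of_injOn hinj, hS'.card_Z]
      apply lt_of_le_of_lt (degree_sub_le _ _)
      rw [max_lt_iff]
      refine ⟨degree_BPol hk b, lt_of_le_of_lt (degree_C_mul_X_pow_le _ _) ?_⟩
      exact_mod_cast (by omega : n < k)
    · intro x hx
      rw [Finset.mem_image] at hx
      obtain ⟨y, hy, rfl⟩ := hx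
      rw [mem_Z hk] at hy
      rw [eval_sub, eval_BPol, hval y hy]
      simp only [eval_mul, eval_C, eval_pow, eval_X]
      rw [← pow_two, ← pow_mul, ← hkn]
      ring
  have hsupp : ∀ j ∈ Finset.Ico 1 k, b j ≠ 0 → n ∣ j := by
    intro j hj hbj
    have h1 := congrArg (fun q : ℂ[X] => q.coeff j) hzero
    simp only [coeff_sub, coeff_C_mul, coeff_X_pow, coeff_zero, coeff_BPol b hj] at h1
    by_cases hjn : j = n
    · rw [hjn]
    · exfalso
      rw [if_neg hjn, mul_zero, sub_zero] at h1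
      exact hbj (by exact_mod_cast h1)
  have := hgcd n ⟨2, by omega⟩ hsupp
  omega

theorem Sys.even_case (hS : Sys k p c b) (hc : 0 < c) (hb : ∀ j, 0 ≤ b j)
    (hJ : ∃ j ∈ Finset.Ico 1 k, b j ≠ 0)
    (hgcd : ∀ d : ℕ, d ∣ k → (∀ j ∈ Finset.Ico 1 k, b j ≠ 0 → d ∣ j) → d = 1)
    (heven : Even k) : k = 2 ∧ c = b 1 ^ 2 := by
  have hk2 := hS.even_support hc hb hJ hgcd heven
  subst hk2
  refine ⟨rfl, ?_⟩
  have hsum := hS.hsum
  have hIco : Finset.Ico 1 2 = {1} := by decide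
  rw [hIco, Finset.sum_singleton] at hsum
  have hne : (Z 2 b).Nonempty := by
    rw [← Finset.card_pos, hS.card_Z]; omega
  obtain ⟨x, hx⟩ := hne
  rw [mem_Z hS.hk] at hx
  have hx0 := hS.ne_zero hx
  have hPx : ∀ w : ℂ, P 2 b w = w ^ 2 + 1 - b 1 * w := by
    intro w
    unfold P
    rw [hIco, Finset.sum_singleton, pow_one]
  have hbc : (b 1 : ℝ) = 1 - c := by linarith
  have hb1 : 0 < b 1 := by
    obtain ⟨j, hj, hbj⟩ := hJ
    rw [hIco, Finset.mem_singleton] at hj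
    subst hj
    exact lt_of_le_of_ne (hb 1) (Ne.symm hbj)
  have hx2 : x ^ 2 ≠ -1 := by
    intro h
    rw [hPx, h] at hx
    have h1 : (b 1 : ℂ) * x = 0 := by linear_combination -hx
    rcases mul_eq_zero.mp h1 with h2 | h2
    · exact hb1.ne' (by exact_mod_cast h2)
    · exact hx0 h2
  have hD := hS.D hc.le hx hx2
  have hroot := hx
  rw [hPx] at hroot
  rw [hPx] at hD
  have hcC : (c : ℂ) = 1 - b 1 := by rw [hbc]; push_cast; ring
  rw [hcC] at hD
  -- x + 1/x = b
  set B : ℂ := (b 1 : ℂ) with hBdef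
  have hxinv : x + x⁻¹ = B := by
    field_simp
    linear_combination hroot
  have hs : x ^ 2 + (x ^ 2)⁻¹ = B ^ 2 - 2 := by
    rw [← hxinv]
    field_simp
    ring
  rw [hs] at hD
  have hP2 : (x * x) ^ 2 + 1 - B * (x * x) = x ^ 2 * (B ^ 2 - 2 - B) := by
    rw [← hs]
    field_simp
  rw [hP2] at hD
  have hx2ne : x ^ 2 ≠ 0 := pow_ne_zero _ hx0
  have hpoly : (B - 1) * (B - 2) * (B ^ 2 + B - 1) = 0 := by
    have : x ^ 2 * ((B - 1) * (B - 2) * (B ^ 2 + B - 1)) = 0 := by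
      linear_combination hD
    rcases mul_eq_zero.mp this with h | h
    · exact absurd h hx2ne
    · exact h
  have hpolyR : (b 1 - 1) * (b 1 - 2) * (b 1 ^ 2 + b 1 - 1) = 0 := by
    rw [hBdef] at hpoly
    exact_mod_cast hpoly
  rcases mul_eq_zero.mp hpolyR with h | h
  · exfalso
    rcases mul_eq_zero.mp h with h' | h' <;> linarith
  · linarith

/-- **Classification** of normalised periodic recurrences with primitive support. -/
theorem Sys.classify (hS : Sys k p c b) (hc : 0 ≤ c) (hb : ∀ j, 0 ≤ b j)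
    (hJ : ∃ j ∈ Finset.Ico 1 k, b j ≠ 0)
    (hgcd : ∀ d : ℕ, d ∣ k → (∀ j ∈ Finset.Ico 1 k, b j ≠ 0 → d ∣ j) → d = 1) :
    (k = 2 ∧ (c = 0 ∨ c = b 1 ^ 2)) ∨ (k = 3 ∧ b 2 = b 1 ∧ c = b 1 ^ 2) := by
  rcases eq_or_lt_of_le hc with h0 | h0
  · subst h0
    exact Or.inl ⟨hS.case_zero hb hgcd, Or.inl rfl⟩
  · rcases Nat.even_or_odd k with he | ho
    · obtain ⟨h1, h2⟩ := hS.even_case h0 hb hJ hgcd he
      exact Or.inl ⟨h1, Or.inr h2⟩
    · exact Or.inr (hS.odd_case h0 hb hJ hgcd ho)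

end Pool.Agent.Helper60.Per
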