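import Pool.Agent.Helper60.Per.Basic2

set_option autoImplicit false

namespace Pool.Agent.Helper60.Per

open Finset Polynomial

variable {k p : ℕ} {c : ℝ} {b : ℕ → ℝ}

/-- The coefficients at the second fixed point `-c`, after rescaling. -/
noncomputable def pb (c : ℝ) (b : ℕ → ℝ) : ℕ → ℝ := fun j => -(b j) / c

/-- The system seen from the second fixed point `-c`. -/
theorem Sys.prime (hS : Sys k p c b) (hc : 0 < c) : Sys k p (1 / c) (pb c b) where
  hk := hS.hk
  hp := hS.hp
  hsum := by
    have h := hS.hsum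
    unfold pb
    rw [← Finset.sum_div, Finset.sum_neg_distrib]
    field_simp
    linarith
  hper := by
    intro R _ _ x hx hrec n
    have h := hS.hper R (fun n => (-c) • x n) (fun n => by
        rw [Algebra.smul_def]
        exact IsUnit.mul ((isUnit_iff_ne_zero.mpr (by simpa using hc.ne')).map (algebraMap ℝ R))
          (hx n))
      (fun n => by
        simp only
        have h1 := hrec n
        rw [smul_mul_smul_comm, h1, smul_add, Finset.smul_sum, smul_smul]
        congr 1
        · congr 1; field_simp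
        · apply Finset.sum_congr rfl
          intro j _
          rw [smul_smul, smul_smul]
          congr 1
          unfold pb
          field_simp
          ) n
    have h2 := congrArg (fun z => (-c)⁻¹ • z) h
    simp only [smul_smul] at h2
    have h3 : (-c)⁻¹ * (-c) = 1 := inv_mul_cancel₀ (by simpa using hc.ne')
    rw [h3, one_smul, one_smul] at h2
    exact h2

theorem Bf_pb (x : ℂ) : Bf k (pb c b) x = -(Bf k b x) / c := by
  unfold Bf pb
  rw [← Finset.sum_neg_distrib, Finset.sum_div]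
  apply Finset.sum_congr rfl
  intro j _
  push_cast
  ring

theorem P_pb (x : ℂ) : P k (pb c b) x = x ^ k + 1 + Bf k b x / c := by
  rw [P_eq, Bf_pb]
  ring

theorem cne (hc : 0 < c) : (c : ℂ) ≠ 0 := by exact_mod_cast hc.ne'

theorem Bf_of_proot (hc : 0 < c) {x : ℂ} (hx : P k (pb c b) x = 0) :
    Bf k b x = -c * (x ^ k + 1) := by
  have h := cne hc
  rw [P_pb] at hx
  field_simp at hx
  linear_combination hx

/-- common roots -/
theorem proot_of_zero {x : ℂ} (hx : P k b x = 0) (hk : x ^ k = -1) :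
    P k (pb c b) x = 0 := by
  have h := Bf_of_root hx
  rw [P_pb, h, hk]
  simp

theorem root_of_pzero (hc : 0 < c) {x : ℂ} (hx : P k (pb c b) x = 0) (hk : x ^ k = -1) :
    P k b x = 0 := by
  have h := Bf_of_proot hc hx
  rw [P_eq, h, hk]
  ring

theorem not_both (hc : 0 < c) {x : ℂ} (hx : P k b x = 0) (hx' : P k (pb c b) x = 0) :
    x ^ k = -1 := by
  have h1 := Bf_of_root hx
  have h2 := Bf_of_proot hc hx'
  have h3 := one_add_ne hc.le
  have h4 : (1 + c : ℂ) * (x ^ k + 1) = 0 := by
    linear_combination -h1 + h2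
  rcases mul_eq_zero.mp h4 with h5 | h5
  · exact absurd h5 h3
  · linear_combination h5

theorem Sys.cross1 (hS : Sys k p c b) (hc : 0 < c) (hb : ∀ j, 0 ≤ b j) {μ x : ℂ}
    (hμ : P k b μ = 0) (hμk : μ ^ k = -1) (hx : P k b x = 0) (hxk : x ^ k ≠ -1) :
    P k (pb c b) (μ * x) = 0 := by
  have h := hS.mulroot hc.le hμ hx (by rw [hμk]; norm_num) (hS.zeta_ne_one hc.le hb hx)
    (by rw [hμk]; exact fun h => hxk h.symm)
    (by rw [hμk]; intro h; apply hxk; linear_combination -h)
  have hcne := cne hc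
  rw [P_eq, mul_pow, hμk] at h
  rw [P_pb, mul_pow, hμk]
  field_simp
  linear_combination -h

theorem Sys.cross2 (hS : Sys k p c b) (hc : 0 < c) {μ y : ℂ}
    (hμ : P k b μ = 0) (hμk : μ ^ k = -1) (hy : P k (pb c b) y = 0) (hyk : y ^ k ≠ -1)
    (hyk' : y ^ k ≠ 1) : P k b (μ * y) = 0 := by
  have hc' : (0:ℝ) ≤ 1 / c := by positivity
  have h := (hS.prime hc).mulroot hc' (proot_of_zero hμ hμk) hy (by rw [hμk]; norm_num) hyk'
    (by rw [hμk]; exact fun h => hyk h.symm)
    (by rw [hμk]; intro h; apply hyk; linear_combination -h)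
  have hcne := cne hc
  rw [P_pb, mul_pow, hμk] at h
  rw [P_eq, mul_pow, hμk]
  push_cast at h
  field_simp at h
  linear_combination -h

theorem mul_pow_k {μ x : ℂ} (hμk : μ ^ k = -1) : (μ * x) ^ k = - x ^ k := by
  rw [mul_pow, hμk]; ring

/-- At most one zero-root. -/
theorem Sys.zero_root_unique (hS : Sys k p c b) (hc : 0 < c) (hb : ∀ j, 0 ≤ b j)
    (hJ : ∃ j ∈ Finset.Ico 1 k, b j ≠ 0)
    (hgcd : ∀ d : ℕ, d ∣ k → (∀ j ∈ Finset.Ico 1 k, b j ≠ 0 → d ∣ j) → d = 1)
    {μ ν : ℂ} (hμ : P k b μ = 0) (hμk : μ ^ k = -1) (hν : P k b ν = 0) (hνk : ν ^ k = -1) :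
    μ = ν := by
  classical
  by_contra hne
  have hk := hS.hk
  have hS' := hS.prime hc
  have hμ0 := hS.ne_zero hμ
  have hν0 := hS.ne_zero hν
  set γ : ℂ := μ * ν⁻¹ with hγ
  have hνi : P k b ν⁻¹ = 0 := hS.P_inv hν
  have hνik : ν⁻¹ ^ k = -1 := by rw [inv_pow, hνk]; norm_num
  have hγk : γ ^ k = 1 := by rw [hγ, mul_pow, hμk, hνik]; norm_num
  set N1 : Finset ℂ := (Z k b).filter (fun x => x ^ k ≠ -1) with hN1
  set Z0 : Finset ℂ := (Z k b).filter (fun x => x ^ k = -1) with hZ0
  have hmemN1 : ∀ x, x ∈ N1 ↔ P k b x = 0 ∧ x ^ k ≠ -1 := by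
    intro x; rw [hN1, Finset.mem_filter, mem_Z hk]
  have hmemZ0 : ∀ x, x ∈ Z0 ↔ P k b x = 0 ∧ x ^ k = -1 := by
    intro x; rw [hZ0, Finset.mem_filter, mem_Z hk]
  have hcard : Z0.card + N1.card = k := by
    rw [hZ0, hN1, Finset.card_filter_add_card_filter_not, hS.card_Z]
  set N2 : Finset ℂ := (Z k (pb c b)).filter (fun x => x ^ k ≠ -1) with hN2
  have hmemN2 : ∀ x, x ∈ N2 ↔ P k (pb c b) x = 0 ∧ x ^ k ≠ -1 := by
    intro x; rw [hN2, Finset.mem_filter, mem_Z hk]
  have hcard2 : Z0.card + N2.card = k := by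
    have h1 : Z0 = (Z k (pb c b)).filter (fun x => x ^ k = -1) := by
      ext x
      rw [hmemZ0, Finset.mem_filter, mem_Z hk]
      constructor
      · rintro ⟨h1, h2⟩; exact ⟨proot_of_zero h1 h2, h2⟩
      · rintro ⟨h1, h2⟩; exact ⟨root_of_pzero hc h1 h2, h2⟩
    rw [h1, hN2, Finset.card_filter_add_card_filter_not, hS'.card_Z]
  -- N1 is nonempty
  have hN1ne : N1.Nonempty := by
    by_contra hemp
    rw [Finset.not_nonempty_iff_eq_empty] at hemp
    have hB : BPol k b = 0 := by
      apply Polynomial.eq_zero_of_degree_lt_of_eval_finset_eq_zero (Z k b)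
      · rw [hS.card_Z]; exact degree_BPol hk b
      · intro x hx
        have hx' := (mem_Z hk).mp hx
        have : x ^ k = -1 := by
          by_contra h
          have : x ∈ N1 := (hmemN1 x).mpr ⟨hx', h⟩
          rw [hemp] at this
          exact absurd this (Finset.notMem_empty x)
        rw [eval_BPol, Bf_of_root hx', this]; ring
    obtain ⟨j, hj, hbj⟩ := hJ
    have := coeff_BPol b hj
    rw [hB, coeff_zero] at this
    exact hbj (by exact_mod_cast this.symm)
  obtain ⟨x0, hx0⟩ := hN1ne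
  have hx0' := (hmemN1 x0).mp hx0
  have hx00 := hS.ne_zero hx0'.1
  -- |Z0| ≤ |N2|
  have hle : Z0.card ≤ N2.card := by
    apply Finset.card_le_card_of_injOn (fun m => m * x0)
    · intro m hm
      have hm' := (hmemZ0 m).mp (Finset.mem_coe.mp hm)
      apply Finset.mem_coe.mpr
      rw [hmemN2]
      refine ⟨hS.cross1 hc hb hm'.1 hm'.2 hx0'.1 hx0'.2, ?_⟩
      rw [mul_pow_k hm'.2]
      intro h
      apply hS.zeta_ne_one hc.le hb hx0'.1
      linear_combination -h
    · intro m1 _ m2 _ h
      exact mul_right_cancel₀ hx00 h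
  set T : Finset ℂ := N1 ∪ N1.image (fun x => μ * x) with hT
  have hTcard : T.card = N1.card + N1.card := by
    rw [hT, Finset.card_union_of_disjoint, Finset.card_image_of_injective _
      (mul_right_injective₀ hμ0)]
    rw [Finset.disjoint_left]
    intro x hx hx2
    rw [Finset.mem_image] at hx2
    obtain ⟨y, hy, rfl⟩ := hx2
    have hx' := (hmemN1 _).mp hx
    have hy' := (hmemN1 _).mp hy
    exact hx'.2 (not_both hc hx'.1 (hS.cross1 hc hb hμ hμk hy'.1 hy'.2))
  have hdeg : (∑ j ∈ Finset.Ico 1 k, C ((b j : ℂ) * (γ ^ j - 1)) * X ^ j : ℂ[X]).degree < k := by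
    apply lt_of_le_of_lt (degree_sum_le _ _)
    rw [Finset.sup_lt_iff (by exact_mod_cast (WithBot.bot_lt_coe k))]
    intro j hj
    rw [Finset.mem_Ico] at hj
    exact lt_of_le_of_lt (degree_C_mul_X_pow_le _ _) (by exact_mod_cast hj.2)
  have hzero : (∑ j ∈ Finset.Ico 1 k, C ((b j : ℂ) * (γ ^ j - 1)) * X ^ j : ℂ[X]) = 0 := by
    apply Polynomial.eq_zero_of_degree_lt_of_eval_finset_eq_zero T
    · apply lt_of_lt_of_le hdeg
      have : k ≤ T.card := by omega
      exact_mod_cast this
    · intro x hx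
      have heval : (∑ j ∈ Finset.Ico 1 k, C ((b j : ℂ) * (γ ^ j - 1)) * X ^ j : ℂ[X]).eval x
          = Bf k b (γ * x) - Bf k b x := by
        unfold Bf
        rw [← Finset.sum_sub_distrib, Polynomial.eval_finsetSum]
        apply Finset.sum_congr rfl
        intro j _
        simp only [eval_mul, eval_C, eval_pow, eval_X]
        rw [mul_pow]; ring
      rw [heval]
      rw [hT, Finset.mem_union] at hx
      rcases hx with hx | hx
      · have hx' := (hmemN1 x).mp hx
        have h1 : P k (pb c b) (ν⁻¹ * x) = 0 := hS.cross1 hc hb hνi hνik hx'.1 hx'.2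
        have hx1 := hS.zeta_ne_one hc.le hb hx'.1
        have h2 : P k b (μ * (ν⁻¹ * x)) = 0 := by
          apply hS.cross2 hc hμ hμk h1
          · rw [mul_pow_k hνik]; intro h; apply hx1; linear_combination -h
          · rw [mul_pow_k hνik]; intro h; apply hx'.2; linear_combination -h
        rw [← mul_assoc, ← hγ] at h2
        rw [Bf_of_root h2, Bf_of_root hx'.1, mul_pow, hγk]
        ring
      · rw [Finset.mem_image] at hx
        obtain ⟨z, hz, rfl⟩ := hx
        have hz' := (hmemN1 z).mp hz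
        have hz1 := hS.zeta_ne_one hc.le hb hz'.1
        have hy : P k (pb c b) (μ * z) = 0 := hS.cross1 hc hb hμ hμk hz'.1 hz'.2
        have hyk : (μ * z) ^ k = - z ^ k := mul_pow_k hμk
        have h1 : P k b (ν⁻¹ * (μ * z)) = 0 := by
          apply hS.cross2 hc hνi hνik hy
          · rw [hyk]; intro h; apply hz1; linear_combination -h
          · rw [hyk]; intro h; apply hz'.2; linear_combination -h
        have h2 : P k (pb c b) (μ * (ν⁻¹ * (μ * z))) = 0 := by
          apply hS.cross1 hc hb hμ hμk h1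
          rw [mul_pow_k hνik, hyk]
          intro h; apply hz'.2; linear_combination h
        rw [← mul_assoc μ, ← hγ] at h2
        rw [Bf_of_proot hc h2, Bf_of_proot hc hy, mul_pow γ, hγk]
        ring
  have hγj : ∀ j ∈ Finset.Ico 1 k, b j ≠ 0 → γ ^ j = 1 := by
    intro j hj hbj
    have h1 := congrArg (fun q : ℂ[X] => q.coeff j) hzero
    simp only [finsetSum_coeff, coeff_C_mul, coeff_X_pow, coeff_zero] at h1
    rw [Finset.sum_eq_single_of_mem j hj] at h1
    · simp only [if_true, mul_one] at h1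
      rcases mul_eq_zero.mp h1 with h2 | h2
      · exact absurd (by exact_mod_cast h2) hbj
      · linear_combination h2
    · intro i _ hij
      rw [if_neg (fun h => hij h.symm), mul_zero]
  have h1 := hgcd (orderOf γ) (orderOf_dvd_of_pow_eq_one hγk)
    (fun j hj hbj => orderOf_dvd_of_pow_eq_one (hγj j hj hbj))
  rw [orderOf_eq_one_iff] at h1
  apply hne
  have h2 : μ = γ * ν := by rw [hγ, inv_mul_cancel_right₀ hν0]
  rw [h2, h1, one_mul]

end Pool.Agent.Helper60.Per
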