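import Pool.Agent.Helper60.Per.Main

set_option autoImplicit false

namespace Pool.Agent.Helper60.Per

open Finset

/-- sums over multiples of `g` -/
theorem sum_mult {M : Type*} [AddCommMonoid M] (g k' : ℕ) (hg : 0 < g) (f : ℕ → M)
    (hf : ∀ j ∈ Finset.Ico 1 (g * k'), ¬ g ∣ j → f j = 0) :
    ∑ j ∈ Finset.Ico 1 (g * k'), f j = ∑ j ∈ Finset.Ico 1 k', f (g * j) := by
  symm
  apply Finset.sum_of_injOn (fun j => g * j)
  · intro a _ b _ h
    exact Nat.eq_of_mul_eq_mul_left hg h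
  · intro j hj
    rw [Finset.coe_Ico, Set.mem_Ico] at hj
    simp only [Finset.coe_Ico, Set.mem_Ico]
    constructor
    · exact Nat.mul_pos hg hj.1
    · exact Nat.mul_lt_mul_of_pos_left hj.2 hg
  · intro j hj hnot
    apply hf j hj
    rintro ⟨q, rfl⟩
    apply hnot
    refine ⟨q, ?_, rfl⟩
    rw [Finset.mem_Ico] at hj
    rw [Finset.coe_Ico, Set.mem_Ico]
    constructor
    · rcases Nat.eq_zero_or_pos q with h | h
      · subst h; simp at hj
      · exact h
    · exact Nat.lt_of_mul_lt_mul_left hj.2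
  · intro j _
    rfl

theorem reduce (k p g k' : ℕ) (hg : 0 < g) (hk : k = g * k') (hk' : 1 ≤ k') (hp : 1 ≤ p)
    (a0 : ℝ) (aj : ℕ → ℝ) (ha0 : 0 ≤ a0) (haj : ∀ j, 0 ≤ aj j)
    (hdvd : ∀ j ∈ Finset.Ico 1 k, aj j ≠ 0 → g ∣ j)
    (hJ : ∃ j ∈ Finset.Ico 1 k, aj j ≠ 0)
    (hper : ∀ x : ℕ → ℝ, (∀ n, 0 < x n) →
      (∀ n, x n * x (n + k) = a0 + ∑ j ∈ Finset.Ico 1 k, aj j * x (n + j)) →
      ∀ n, x (n + p) = x n) :
    ∃ s : ℝ, 0 < s ∧ Sys k' p (a0 / s ^ 2) (fun j => aj (g * j) / s) := by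
  have hnd : ∀ j ∈ Finset.Ico 1 (g * k'), ¬ g ∣ j → aj j = 0 := by
    intro j hj hnd
    by_contra h
    exact hnd (hdvd j (by rw [hk]; exact hj) h)
  set σ : ℝ := ∑ j ∈ Finset.Ico 1 k', aj (g * j) with hσ
  have hσ' : ∑ j ∈ Finset.Ico 1 k, aj j = σ := by
    rw [hk, sum_mult g k' hg aj hnd]
  have hσpos : 0 < σ := by
    rw [← hσ']
    obtain ⟨j, hj, hne⟩ := hJ
    exact Finset.sum_pos' (fun i _ => haj i) ⟨j, hj, lt_of_le_of_ne (haj j) (Ne.symm hne)⟩
  -- the fixed point
  set s : ℝ := (σ + Real.sqrt (σ ^ 2 + 4 * a0)) / 2 with hs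
  have hspos : 0 < s := by
    have := Real.sqrt_nonneg (σ ^ 2 + 4 * a0)
    rw [hs]; linarith
  have hsq : s ^ 2 = a0 + σ * s := by
    have h1 : Real.sqrt (σ ^ 2 + 4 * a0) ^ 2 = σ ^ 2 + 4 * a0 := Real.sq_sqrt (by positivity)
    rw [hs]
    nlinarith [h1]
  refine ⟨s, hspos, ?_⟩
  have hsum : a0 / s ^ 2 + ∑ j ∈ Finset.Ico 1 k', aj (g * j) / s = 1 := by
    rw [← Finset.sum_div, ← hσ]
    field_simp
    linarith
  refine ⟨hk', hp, hsum, ?_⟩
  apply transfer k' p hk' (a0 / s ^ 2) (fun j => aj (g * j) / s) (by positivity)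
    (fun j => div_nonneg (haj _) hspos.le) (by rw [hsum]; norm_num)
  intro X hX hrec
  -- interleave
  set x : ℕ → ℝ := fun m => s * X (m / g) with hx
  have hxpos : ∀ n, 0 < x n := fun n => mul_pos hspos (hX _)
  have hxrec : ∀ n, x n * x (n + k) = a0 + ∑ j ∈ Finset.Ico 1 k, aj j * x (n + j) := by
    intro m
    have h1 : ∑ j ∈ Finset.Ico 1 k, aj j * x (m + j)
        = ∑ j ∈ Finset.Ico 1 k', aj (g * j) * x (m + g * j) := by
      rw [hk]
      apply sum_mult g k' hg (fun j => aj j * x (m + j))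
      intro j hj hnd'
      rw [hnd j hj hnd', zero_mul]
    rw [h1]
    simp only [hx]
    have h2 : (m + k) / g = m / g + k' := by rw [hk, Nat.add_mul_div_left _ _ hg]
    have h3 : ∀ j, (m + g * j) / g = m / g + j := fun j => Nat.add_mul_div_left _ _ hg
    simp only [h2, h3]
    have h4 := hrec (m / g)
    simp only [smul_eq_mul, mul_one] at h4
    calc s * X (m / g) * (s * X (m / g + k')) = s ^ 2 * (X (m / g) * X (m / g + k')) := by ring
      _ = s ^ 2 * (a0 / s ^ 2 + ∑ j ∈ Finset.Ico 1 k', aj (g * j) / s * X (m / g + j)) := by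
          rw [h4]
      _ = a0 + ∑ j ∈ Finset.Ico 1 k', aj (g * j) * (s * X (m / g + j)) := by
          rw [mul_add, Finset.mul_sum]
          congr 1
          · field_simp
          · apply Finset.sum_congr rfl
            intro j _
            field_simp
  have hxper := hper x hxpos hxrec
  have hxper' : ∀ i m, x (m + i * p) = x m := by
    intro i
    induction i with
    | zero => intro m; simp
    | succ i ih => intro m; rw [show m + (i + 1) * p = m + i * p + p by ring, hxper, ih]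
  intro n
  have h1 := hxper' g (g * n)
  simp only [hx] at h1
  rw [show g * n + g * p = g * (n + p) by ring, Nat.mul_div_cancel_left _ hg,
    Nat.mul_div_cancel_left _ hg] at h1
  exact mul_left_cancel₀ hspos.ne' h1

theorem classify_II (k p : ℕ) (hk : 1 ≤ k) (hp : 1 ≤ p)
    (a0 : ℝ) (aj : ℕ → ℝ) (ha0 : 0 ≤ a0) (haj : ∀ j, 0 ≤ aj j)
    (hJ : ∃ j ∈ Finset.Ico 1 k, aj j ≠ 0)
    (hper : ∀ x : ℕ → ℝ, (∀ n, 0 < x n) →
      (∀ n, x n * x (n + k) = a0 + ∑ j ∈ Finset.Ico 1 k, aj j * x (n + j)) →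
      ∀ n, x (n + p) = x n) :
    (∃ g, 1 ≤ g ∧ k = 2 * g ∧ (∀ j ∈ Finset.Ico 1 k, j ≠ g → aj j = 0) ∧ 0 < aj g ∧
      (a0 = 0 ∨ a0 = (aj g) ^ 2)) ∨
    (∃ g, 1 ≤ g ∧ k = 3 * g ∧ (∀ j ∈ Finset.Ico 1 k, j ≠ g → j ≠ 2 * g → aj j = 0) ∧
      0 < aj g ∧ aj (2 * g) = aj g ∧ a0 = (aj g) ^ 2) := by
  classical
  set S : Finset ℕ := insert k ((Finset.Ico 1 k).filter (fun j => aj j ≠ 0)) with hSdef
  set g : ℕ := S.gcd id with hgdef
  have hgk : g ∣ k := by
    exact Finset.gcd_dvd (f := id) (Finset.mem_insert_self k _ : k ∈ S)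
  have hgpos : 0 < g := Nat.pos_of_dvd_of_pos hgk hk
  have hdvd : ∀ j ∈ Finset.Ico 1 k, aj j ≠ 0 → g ∣ j := by
    intro j hj hne
    have : j ∈ S := Finset.mem_insert_of_mem (Finset.mem_filter.mpr ⟨hj, hne⟩)
    exact Finset.gcd_dvd (f := id) this
  obtain ⟨k', hk'⟩ := hgk
  have hk'1 : 1 ≤ k' := by
    rcases Nat.eq_zero_or_pos k' with h | h
    · subst h; simp at hk'; omega
    · exact h
  obtain ⟨s, hs, hS⟩ := reduce k p g k' hgpos hk' hk'1 hp a0 aj ha0 haj hdvd hJ hper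
  have hc : 0 ≤ a0 / s ^ 2 := by positivity
  have hb : ∀ j, 0 ≤ (fun j => aj (g * j) / s) j := fun j => div_nonneg (haj _) hs.le
  have hJ' : ∃ j ∈ Finset.Ico 1 k', (fun j => aj (g * j) / s) j ≠ 0 := by
    obtain ⟨j, hj, hne⟩ := hJ
    obtain ⟨q, rfl⟩ := hdvd j hj hne
    refine ⟨q, ?_, div_ne_zero hne hs.ne'⟩
    rw [Finset.mem_Ico] at hj ⊢
    rw [hk'] at hj
    constructor
    · rcases Nat.eq_zero_or_pos q with h | h
      · subst h; simp at hj
      · exact h
    · exact Nat.lt_of_mul_lt_mul_left hj.2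
  have hgcd : ∀ d : ℕ, d ∣ k' →
      (∀ j ∈ Finset.Ico 1 k', (fun j => aj (g * j) / s) j ≠ 0 → d ∣ j) → d = 1 := by
    intro d hd hdj
    have h1 : g * d ∣ g := by
      rw [hgdef]
      apply Finset.dvd_gcd
      intro j hj
      rw [hSdef, Finset.mem_insert, Finset.mem_filter] at hj
      rw [← hgdef]
      simp only [id]
      rcases hj with rfl | ⟨hj, hne⟩
      · rw [hk']; exact mul_dvd_mul_left g hd
      · obtain ⟨q, rfl⟩ := hdvd j hj hne
        apply mul_dvd_mul_left g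
        apply hdj q _ (div_ne_zero hne hs.ne')
        rw [Finset.mem_Ico] at hj ⊢
        rw [hk'] at hj
        constructor
        · rcases Nat.eq_zero_or_pos q with h | h
          · subst h; simp at hj
          · exact h
        · exact Nat.lt_of_mul_lt_mul_left hj.2
    have h2 : g * d ≤ g := Nat.le_of_dvd hgpos h1
    have hdpos : 0 < d := Nat.pos_of_dvd_of_pos hd hk'1
    nlinarith
  -- support of aj
  have hsupp : ∀ j ∈ Finset.Ico 1 k, aj j ≠ 0 → ∃ q ∈ Finset.Ico 1 k', j = g * q := by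
    intro j hj hne
    obtain ⟨q, rfl⟩ := hdvd j hj hne
    refine ⟨q, ?_, rfl⟩
    rw [Finset.mem_Ico] at hj ⊢
    rw [hk'] at hj
    constructor
    · rcases Nat.eq_zero_or_pos q with h | h
      · subst h; simp at hj
      · exact h
    · exact Nat.lt_of_mul_lt_mul_left hj.2
  rcases hS.classify hc hb hJ' hgcd with ⟨h2, h3⟩ | ⟨h2, h3, h4⟩
  · left
    subst h2
    refine ⟨g, hgpos, by rw [hk']; ring, ?_, ?_, ?_⟩
    · intro j hj hjg
      by_contra hne
      obtain ⟨q, hq, rfl⟩ := hsupp j hj hne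
      rw [Finset.mem_Ico] at hq
      have : q = 1 := by omega
      subst this
      exact hjg (mul_one g)
    · obtain ⟨j, hj, hne⟩ := hJ
      obtain ⟨q, hq, rfl⟩ := hsupp j hj hne
      rw [Finset.mem_Ico] at hq
      have : q = 1 := by omega
      subst this
      rw [mul_one] at hne
      exact lt_of_le_of_ne (haj g) (Ne.symm hne)
    · rcases h3 with h3 | h3
      · left
        have : s ^ 2 ≠ 0 := by positivity
        field_simp at h3
        simpa using h3
      · right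
        simp only [mul_one] at h3
        have : s ≠ 0 := hs.ne'
        field_simp at h3
        exact h3
  · right
    subst h2
    simp only [mul_one] at h3 h4
    have hs0 : s ≠ 0 := hs.ne'
    have h5 : aj (g * 2) = aj g := by
      field_simp at h3
      exact h3
    have h6 : a0 = aj g ^ 2 := by
      field_simp at h4
      exact h4
    have h7 : aj (2 * g) = aj g := by rw [mul_comm]; exact h5
    refine ⟨g, hgpos, by rw [hk']; ring, ?_, ?_, h7, h6⟩
    · intro j hj hjg hj2g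
      by_contra hne
      obtain ⟨q, hq, rfl⟩ := hsupp j hj hne
      rw [Finset.mem_Ico] at hq
      have : q = 1 ∨ q = 2 := by omega
      rcases this with h | h
      · subst h; exact hjg (mul_one g)
      · subst h; exact hj2g (mul_comm g 2)
    · obtain ⟨j, hj, hne⟩ := hJ
      obtain ⟨q, hq, rfl⟩ := hsupp j hj hne
      rw [Finset.mem_Ico] at hq
      have : q = 1 ∨ q = 2 := by omega
      rcases this with h | h
      · subst h
        rw [mul_one] at hne
        exact lt_of_le_of_ne (haj g) (Ne.symm hne)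
      · subst h
        rw [h5] at hne
        exact lt_of_le_of_ne (haj g) (Ne.symm hne)

end Pool.Agent.Helper60.Per
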