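import Pool.Agent.Helper60.Per.Transfer

set_option autoImplicit false

namespace Pool.Agent.Helper60.Per

open Finset

variable {k p : ℕ} {c : ℝ} {b : ℕ → ℝ}

/-- Linearisation along a solution with values in a commutative `ℝ`-algebra. -/
theorem Sys.tangent (hS : Sys k p c b) (S : Type) [CommRing S] [Algebra ℝ S] (X Y : ℕ → S)
    (hX : ∀ n, IsUnit (X n)) (hrec : Rec k c b X)
    (hlin : ∀ n, X n * Y (n + k) + X (n + k) * Y n = ∑ j ∈ Finset.Ico 1 k, b j • Y (n + j)) :
    ∀ n, Y (n + p) = Y n := by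
  have h := hS.hper (DualNumber S)
    (fun n => (TrivSqZeroExt.inl (X n) + TrivSqZeroExt.inr (Y n) : TrivSqZeroExt S S))
    (fun n => by
      rw [TrivSqZeroExt.isUnit_iff_isUnit_fst]
      simpa using hX n)
    (fun n => by
      apply TrivSqZeroExt.ext
      · simp only [TrivSqZeroExt.fst_mul, TrivSqZeroExt.fst_add, TrivSqZeroExt.fst_inl,
          TrivSqZeroExt.fst_inr, add_zero, TrivSqZeroExt.fst_smul, TrivSqZeroExt.fst_one,
          TrivSqZeroExt.fst_sum]
        exact hrec n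
      · simp only [TrivSqZeroExt.snd_mul, TrivSqZeroExt.fst_add, TrivSqZeroExt.fst_inl,
          TrivSqZeroExt.fst_inr, add_zero, TrivSqZeroExt.snd_smul, TrivSqZeroExt.snd_one,
          TrivSqZeroExt.snd_sum, TrivSqZeroExt.snd_add, TrivSqZeroExt.snd_inl,
          TrivSqZeroExt.snd_inr, zero_add, smul_zero, smul_eq_mul,
          MulOpposite.smul_eq_mul_unop, MulOpposite.unop_op]
        rw [← hlin n]
        ring)
  intro n
  have h2 := congrArg TrivSqZeroExt.snd (h n)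
  simpa using h2

/-- The characteristic function at the fixed point `1`. -/
noncomputable def P (k : ℕ) (b : ℕ → ℝ) (x : ℂ) : ℂ :=
  x ^ k + 1 - ∑ j ∈ Finset.Ico 1 k, (b j : ℂ) * x ^ j

/-- `x * P'(x)`. -/
noncomputable def Q (k : ℕ) (b : ℕ → ℝ) (x : ℂ) : ℂ :=
  k * x ^ k - ∑ j ∈ Finset.Ico 1 k, (b j : ℂ) * (j * x ^ j)

theorem Sys.rec_one (hS : Sys k p c b) (S : Type) [CommRing S] [Algebra ℝ S] :
    Rec k c b (fun _ : ℕ => (1 : S)) := by
  intro n
  rw [← Finset.sum_smul, ← add_smul, hS.hsum]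
  simp

theorem Sys.sumC (hS : Sys k p c b) : (c : ℂ) + ∑ j ∈ Finset.Ico 1 k, (b j : ℂ) = 1 := by
  have := hS.hsum
  exact_mod_cast this

theorem Sys.P_one (hS : Sys k p c b) : P k b 1 = 1 + c := by
  have h := hS.sumC
  unfold P
  simp only [one_pow, mul_one]
  linear_combination -h

theorem Sys.lin (hS : Sys k p c b) (w : ℕ → ℂ)
    (hw : ∀ n, w (n + k) + w n = ∑ j ∈ Finset.Ico 1 k, (b j : ℂ) * w (n + j)) :
    ∀ n, w (n + p) = w n := by
  apply hS.tangent ℂ (fun _ => 1) w (fun _ => isUnit_one) (hS.rec_one ℂ)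
  intro n
  rw [one_mul, one_mul, hw n]
  apply Finset.sum_congr rfl
  intro j _
  exact (Complex.real_smul).symm

theorem pow_sol {x : ℂ} (hx : P k b x = 0) (n : ℕ) :
    x ^ (n + k) + x ^ n = ∑ j ∈ Finset.Ico 1 k, (b j : ℂ) * x ^ (n + j) := by
  have h : ∑ j ∈ Finset.Ico 1 k, (b j : ℂ) * x ^ (n + j)
      = x ^ n * ∑ j ∈ Finset.Ico 1 k, (b j : ℂ) * x ^ j := by
    rw [Finset.mul_sum]
    apply Finset.sum_congr rfl
    intro j _
    ring
  rw [h]
  unfold P at hx
  linear_combination (x ^ n) * hx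

theorem npow_sol {x : ℂ} (hx : P k b x = 0) (n : ℕ) :
    ((n + k : ℕ) : ℂ) * x ^ (n + k) + (n : ℂ) * x ^ n
      = (∑ j ∈ Finset.Ico 1 k, (b j : ℂ) * (((n + j : ℕ) : ℂ) * x ^ (n + j))) + x ^ n * Q k b x := by
  have h : ∑ j ∈ Finset.Ico 1 k, (b j : ℂ) * (((n + j : ℕ) : ℂ) * x ^ (n + j))
      = n * (x ^ n * ∑ j ∈ Finset.Ico 1 k, (b j : ℂ) * x ^ j)
        + x ^ n * ∑ j ∈ Finset.Ico 1 k, (b j : ℂ) * (j * x ^ j) := by
    rw [Finset.mul_sum, Finset.mul_sum, Finset.mul_sum, ← Finset.sum_add_distrib]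
    apply Finset.sum_congr rfl
    intro j _
    push_cast
    ring
  rw [h]
  unfold P at hx
  unfold Q
  push_cast
  linear_combination (n : ℂ) * (x ^ n) * hx

theorem P_zero_ne (hk : 1 ≤ k) : P k b 0 = 1 := by
  unfold P
  rw [zero_pow (by omega), Finset.sum_eq_zero]
  · ring
  · intro j hj
    rw [Finset.mem_Ico] at hj
    rw [zero_pow (by omega), mul_zero]

theorem Sys.ne_zero (hS : Sys k p c b) {x : ℂ} (hx : P k b x = 0) : x ≠ 0 := by
  rintro rfl
  rw [P_zero_ne hS.hk] at hx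
  exact one_ne_zero hx

/-- (F1a) -/
theorem Sys.pow_p (hS : Sys k p c b) {x : ℂ} (hx : P k b x = 0) : x ^ p = 1 := by
  have h := hS.lin (fun n => x ^ n) (pow_sol hx) 0
  simpa using h

/-- (F1b) -/
theorem Sys.Q_ne (hS : Sys k p c b) {x : ℂ} (hx : P k b x = 0) : Q k b x ≠ 0 := by
  intro hQ
  have h := hS.lin (fun n => (n : ℂ) * x ^ n) (by
    intro n
    have := npow_sol hx n
    rw [hQ, mul_zero, add_zero] at this
    exact this) 0
  simp only [zero_add, CharP.cast_eq_zero, zero_mul, mul_eq_zero, Nat.cast_eq_zero] at h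
  rcases h with h | h
  · have := hS.hp; omega
  · exact pow_ne_zero _ (hS.ne_zero hx) h

/-- (F2) -/
theorem Sys.res2 (hS : Sys k p c b) {x y : ℂ} (hx : P k b x = 0) (hy : P k b y = 0)
    (hxy : P k b (x * y) = 0) : x ^ k + y ^ k = 0 := by
  have hQ := hS.Q_ne hxy
  set τ : ℂ := -(x ^ k + y ^ k) / Q k b (x * y) with hτ
  have hτQ : τ * Q k b (x * y) = -(x ^ k + y ^ k) := by
    rw [hτ]; field_simp
  have hX : ∀ n, IsUnit ((TrivSqZeroExt.inl (1 : ℂ) + TrivSqZeroExt.inr (x ^ n) :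
      TrivSqZeroExt ℂ ℂ)) := fun n => by
    rw [TrivSqZeroExt.isUnit_iff_isUnit_fst]
    simp
  have h := hS.tangent (DualNumber ℂ)
    (fun n => (TrivSqZeroExt.inl (1 : ℂ) + TrivSqZeroExt.inr (x ^ n) : TrivSqZeroExt ℂ ℂ))
    (fun n => (TrivSqZeroExt.inl (y ^ n) + TrivSqZeroExt.inr (τ * (n * (x * y) ^ n)) :
      TrivSqZeroExt ℂ ℂ)) hX
    (fun n => by
      apply TrivSqZeroExt.ext
      · simp only [TrivSqZeroExt.fst_mul, TrivSqZeroExt.fst_add, TrivSqZeroExt.fst_inl,
          TrivSqZeroExt.fst_inr, add_zero, TrivSqZeroExt.fst_smul, TrivSqZeroExt.fst_one,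
          TrivSqZeroExt.fst_sum]
        exact hS.rec_one ℂ n
      · simp only [TrivSqZeroExt.snd_mul, TrivSqZeroExt.fst_add, TrivSqZeroExt.fst_inl,
          TrivSqZeroExt.fst_inr, add_zero, TrivSqZeroExt.snd_smul, TrivSqZeroExt.snd_one,
          TrivSqZeroExt.snd_sum, TrivSqZeroExt.snd_add, TrivSqZeroExt.snd_inl,
          TrivSqZeroExt.snd_inr, zero_add, smul_zero, smul_eq_mul, MulOpposite.op_one, one_smul,
          MulOpposite.smul_eq_mul_unop, MulOpposite.unop_op, one_mul, Complex.real_smul]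
        rw [← pow_sol hx n])
    (fun n => by
      apply TrivSqZeroExt.ext
      · simp only [TrivSqZeroExt.fst_mul, TrivSqZeroExt.fst_add, TrivSqZeroExt.fst_inl,
          TrivSqZeroExt.fst_inr, add_zero, TrivSqZeroExt.fst_smul, TrivSqZeroExt.fst_one,
          TrivSqZeroExt.fst_sum, one_mul, Complex.real_smul]
        exact pow_sol hy n
      · simp only [TrivSqZeroExt.snd_mul, TrivSqZeroExt.fst_add, TrivSqZeroExt.fst_inl,
          TrivSqZeroExt.fst_inr, add_zero, TrivSqZeroExt.snd_smul, TrivSqZeroExt.snd_one,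
          TrivSqZeroExt.snd_sum, TrivSqZeroExt.snd_add, TrivSqZeroExt.snd_inl,
          TrivSqZeroExt.snd_inr, zero_add, smul_zero, smul_eq_mul, MulOpposite.op_one, one_smul,
          MulOpposite.smul_eq_mul_unop, MulOpposite.unop_op, one_mul, Complex.real_smul]
        have h1 := npow_sol hxy n
        have h2 : ∑ j ∈ Finset.Ico 1 k, (b j : ℂ) * (τ * (((n + j : ℕ) : ℂ) * (x * y) ^ (n + j)))
            = τ * ∑ j ∈ Finset.Ico 1 k, (b j : ℂ) * (((n + j : ℕ) : ℂ) * (x * y) ^ (n + j)) := by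
          rw [Finset.mul_sum]
          apply Finset.sum_congr rfl
          intro j _
          ring
        rw [h2]
        have e1 : (x * y) ^ n = x ^ n * y ^ n := mul_pow x y n
        have e2 : x ^ (n + k) = x ^ n * x ^ k := pow_add x n k
        have e3 : y ^ (n + k) = y ^ n * y ^ k := pow_add y n k
        rw [e2, e3]
        linear_combination τ * h1 + (x * y) ^ n * hτQ - (x ^ k + y ^ k) * e1) 0
  have h2 := congrArg TrivSqZeroExt.snd h
  simp only [TrivSqZeroExt.snd_add, TrivSqZeroExt.snd_inl, TrivSqZeroExt.snd_inr, zero_add,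
    CharP.cast_eq_zero, zero_mul, mul_zero] at h2
  have hne : (x * y) ^ p ≠ 0 := pow_ne_zero _ (hS.ne_zero hxy)
  have hp' : (p : ℂ) ≠ 0 := by
    have := hS.hp
    exact_mod_cast (by omega : p ≠ 0)
  have hτ0 : τ = 0 := by
    rcases mul_eq_zero.mp h2 with h3 | h3
    · exact h3
    · rcases mul_eq_zero.mp h3 with h4 | h4
      · exact absurd h4 hp'
      · exact absurd h4 hne
  rw [hτ0, zero_mul] at hτQ
  linear_combination hτQ

theorem kpow_sol {x : ℂ} (a : ℂ) (n : ℕ) :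
    a * x ^ (n + k) + a * x ^ n
      = (∑ j ∈ Finset.Ico 1 k, (b j : ℂ) * (a * x ^ (n + j))) + x ^ n * (P k b x * a) := by
  have h : ∑ j ∈ Finset.Ico 1 k, (b j : ℂ) * (a * x ^ (n + j))
      = a * (x ^ n * ∑ j ∈ Finset.Ico 1 k, (b j : ℂ) * x ^ j) := by
    rw [Finset.mul_sum, Finset.mul_sum]
    apply Finset.sum_congr rfl
    intro j _
    ring
  rw [h]
  unfold P
  ring

/-- (F3) the third-order resonance identity. -/
theorem Sys.res3 (hS : Sys k p c b) {x y z κ₁ κ₂ κ₃ : ℂ} (hx : P k b x = 0) (hy : P k b y = 0)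
    (hz : P k b z = 0) (hxyz : P k b (x * y * z) = 0)
    (h12 : P k b (x * y) * κ₃ = -(x ^ k + y ^ k))
    (h13 : P k b (x * z) * κ₂ = -(x ^ k + z ^ k))
    (h23 : P k b (y * z) * κ₁ = -(y ^ k + z ^ k)) :
    κ₃ * (x ^ k * y ^ k + z ^ k) + κ₂ * (x ^ k * z ^ k + y ^ k) + κ₁ * (y ^ k * z ^ k + x ^ k)
      = 0 := by
  have hQ := hS.Q_ne hxyz
  set σ : ℂ := κ₃ * (x ^ k * y ^ k + z ^ k) + κ₂ * (x ^ k * z ^ k + y ^ k)
    + κ₁ * (y ^ k * z ^ k + x ^ k) with hσ
  set τ : ℂ := -σ / Q k b (x * y * z) with hτ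
  have hτQ : τ * Q k b (x * y * z) = -σ := by
    rw [hτ]; field_simp
  have h := hS.tangent (DualNumber (DualNumber ℂ))
    (fun n => (TrivSqZeroExt.inl (TrivSqZeroExt.inl (1 : ℂ) + TrivSqZeroExt.inr (x ^ n) :
        TrivSqZeroExt ℂ ℂ) + TrivSqZeroExt.inr (TrivSqZeroExt.inl (y ^ n) +
        TrivSqZeroExt.inr (κ₃ * (x * y) ^ n) : TrivSqZeroExt ℂ ℂ) :
      TrivSqZeroExt (TrivSqZeroExt ℂ ℂ) (TrivSqZeroExt ℂ ℂ)))
    (fun n => (TrivSqZeroExt.inl (TrivSqZeroExt.inl (z ^ n) +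
        TrivSqZeroExt.inr (κ₂ * (x * z) ^ n) :
        TrivSqZeroExt ℂ ℂ) + TrivSqZeroExt.inr (TrivSqZeroExt.inl (κ₁ * (y * z) ^ n) +
        TrivSqZeroExt.inr (τ * (n * (x * y * z) ^ n)) : TrivSqZeroExt ℂ ℂ) :
      TrivSqZeroExt (TrivSqZeroExt ℂ ℂ) (TrivSqZeroExt ℂ ℂ)))
    (fun n => by
      rw [TrivSqZeroExt.isUnit_iff_isUnit_fst]
      simp only [TrivSqZeroExt.fst_add, TrivSqZeroExt.fst_inl,
          TrivSqZeroExt.fst_inr, add_zero]
      rw [TrivSqZeroExt.isUnit_iff_isUnit_fst]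
      simp)
    (fun n => by
      have e12 : (x * y) ^ n = x ^ n * y ^ n := mul_pow x y n
      have ex : x ^ (n + k) = x ^ n * x ^ k := pow_add x n k
      have ey : y ^ (n + k) = y ^ n * y ^ k := pow_add y n k
      have hX := pow_sol hx n
      have hY := pow_sol hy n
      have h1 := hS.sumC
      have hXY := kpow_sol (k := k) (b := b) (x := x * y) κ₃ n
      apply TrivSqZeroExt.ext <;> apply TrivSqZeroExt.ext <;>
      simp only [TrivSqZeroExt.fst_mul, TrivSqZeroExt.fst_add, TrivSqZeroExt.fst_inl,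
          TrivSqZeroExt.fst_inr, add_zero, TrivSqZeroExt.fst_smul, TrivSqZeroExt.fst_one,
          TrivSqZeroExt.fst_sum, TrivSqZeroExt.snd_mul, TrivSqZeroExt.snd_smul,
          TrivSqZeroExt.snd_one, TrivSqZeroExt.snd_zero, TrivSqZeroExt.fst_zero,
          TrivSqZeroExt.snd_sum, TrivSqZeroExt.snd_add, TrivSqZeroExt.snd_inl,
          TrivSqZeroExt.snd_inr, zero_add, smul_zero, smul_eq_mul, one_smul,
          MulOpposite.smul_eq_mul_unop, MulOpposite.unop_op, one_mul, mul_one, mul_zero,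
          Complex.real_smul]
      · linear_combination -h1
      · linear_combination hX
      · linear_combination hY
      · rw [ey, ex]
        linear_combination hXY + (x * y) ^ n * h12 - (x ^ k + y ^ k) * e12)
    (fun n => by
      have e12 : (x * y) ^ n = x ^ n * y ^ n := mul_pow x y n
      have e13 : (x * z) ^ n = x ^ n * z ^ n := mul_pow x z n
      have e23 : (y * z) ^ n = y ^ n * z ^ n := mul_pow y z n
      have e123 : (x * y * z) ^ n = x ^ n * y ^ n * z ^ n := by rw [mul_pow, mul_pow]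
      have ex : x ^ (n + k) = x ^ n * x ^ k := pow_add x n k
      have ey : y ^ (n + k) = y ^ n * y ^ k := pow_add y n k
      have ez : z ^ (n + k) = z ^ n * z ^ k := pow_add z n k
      have exy : (x * y) ^ (n + k) = (x ^ n * y ^ n) * (x ^ k * y ^ k) := by
        rw [mul_pow]; ring
      have exz : (x * z) ^ (n + k) = (x ^ n * z ^ n) * (x ^ k * z ^ k) := by
        rw [mul_pow]; ring
      have eyz : (y * z) ^ (n + k) = (y ^ n * z ^ n) * (y ^ k * z ^ k) := by
        rw [mul_pow]; ring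
      have hZ := pow_sol hz n
      have hXZ := kpow_sol (k := k) (b := b) (x := x * z) κ₂ n
      have hYZ := kpow_sol (k := k) (b := b) (x := y * z) κ₁ n
      have h1 := npow_sol hxyz n
      have h2 : ∑ j ∈ Finset.Ico 1 k, (b j : ℂ) * (τ * (((n + j : ℕ) : ℂ) *
            (x * y * z) ^ (n + j)))
          = τ * ∑ j ∈ Finset.Ico 1 k, (b j : ℂ) * (((n + j : ℕ) : ℂ) *
            (x * y * z) ^ (n + j)) := by
        rw [Finset.mul_sum]
        apply Finset.sum_congr rfl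
        intro j _
        ring
      apply TrivSqZeroExt.ext <;> apply TrivSqZeroExt.ext <;>
      simp only [TrivSqZeroExt.fst_mul, TrivSqZeroExt.fst_add, TrivSqZeroExt.fst_inl,
          TrivSqZeroExt.fst_inr, add_zero, TrivSqZeroExt.fst_smul, TrivSqZeroExt.fst_one,
          TrivSqZeroExt.fst_sum, TrivSqZeroExt.snd_mul, TrivSqZeroExt.snd_smul,
          TrivSqZeroExt.snd_one, TrivSqZeroExt.snd_zero, TrivSqZeroExt.fst_zero,
          TrivSqZeroExt.snd_sum, TrivSqZeroExt.snd_add, TrivSqZeroExt.snd_inl,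
          TrivSqZeroExt.snd_inr, zero_add, smul_zero, smul_eq_mul, one_smul,
          MulOpposite.smul_eq_mul_unop, MulOpposite.unop_op, one_mul, mul_one, mul_zero,
          Complex.real_smul]
      · linear_combination hZ
      · rw [ez, ex] 
        linear_combination hXZ + (x * z) ^ n * h13 - (x ^ k + z ^ k) * e13
      · rw [ez, ey]
        linear_combination hYZ + (y * z) ^ n * h23 - (y ^ k + z ^ k) * e23
      · rw [h2, ez, ex, ey, exy, exz, eyz, e12, e13, e23]
        linear_combination τ * h1 + (x * y * z) ^ n * hτQ + (-σ) * e123) 0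
  have h2 := congrArg (fun w => TrivSqZeroExt.snd (TrivSqZeroExt.snd w)) h
  simp only [TrivSqZeroExt.snd_add, TrivSqZeroExt.snd_inl, TrivSqZeroExt.snd_inr, zero_add,
    CharP.cast_eq_zero, zero_mul, mul_zero] at h2
  have hne : (x * y * z) ^ p ≠ 0 := pow_ne_zero _ (hS.ne_zero hxyz)
  have hp' : (p : ℂ) ≠ 0 := by
    have := hS.hp
    exact_mod_cast (by omega : p ≠ 0)
  have hτ0 : τ = 0 := by
    rcases mul_eq_zero.mp h2 with h3 | h3
    · exact h3
    · rcases mul_eq_zero.mp h3 with h4 | h4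
      · exact absurd h4 hp'
      · exact absurd h4 hne
  rw [hτ0, zero_mul] at hτQ
  linear_combination hτQ

end Pool.Agent.Helper60.Per
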