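import Pool.Agent.Helper60.Per.Roots

set_option autoImplicit false

namespace Pool.Agent.Helper60.Per

open Finset Polynomial

variable {k p : ℕ} {c : ℝ} {b : ℕ → ℝ}

/-- The characteristic polynomial. -/
noncomputable def Pol (k : ℕ) (b : ℕ → ℝ) : ℂ[X] :=
  X ^ k + 1 - ∑ j ∈ Finset.Ico 1 k, C (b j : ℂ) * X ^ j

theorem eval_Pol (x : ℂ) : (Pol k b).eval x = P k b x := by
  unfold Pol P
  simp [Polynomial.eval_finsetSum]

theorem eval_derivative_Pol (x : ℂ) : x * (derivative (Pol k b)).eval x = Q k b x := by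
  unfold Pol Q
  simp only [derivative_sub, derivative_add, derivative_X_pow, derivative_one, add_zero,
    derivative_sum, derivative_C_mul, eval_sub, eval_mul, eval_C, eval_pow, eval_X,
    Polynomial.eval_finsetSum, map_natCast, eval_natCast]
  rw [mul_sub, Finset.mul_sum]
  congr 1
  · rcases Nat.eq_zero_or_pos k with h | h
    · simp [h]
    · obtain ⟨m, rfl⟩ : ∃ m, k = m + 1 := ⟨k - 1, by omega⟩
      simp only [Nat.add_sub_cancel]
      ring
  · apply Finset.sum_congr rfl
    intro j hj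
    rw [Finset.mem_Ico] at hj
    obtain ⟨m, rfl⟩ : ∃ m, j = m + 1 := ⟨j - 1, by omega⟩
    simp only [Nat.add_sub_cancel]
    ring

/-- `1 - ∑ b_j X^j` has degree less than `k`. -/
theorem degree_aux (hk : 1 ≤ k) (b : ℕ → ℝ) :
    (1 - ∑ j ∈ Finset.Ico 1 k, C (b j : ℂ) * X ^ j : ℂ[X]).degree < k := by
  apply lt_of_le_of_lt (degree_sub_le _ _)
  rw [max_lt_iff]
  constructor
  · rw [degree_one]
    exact_mod_cast hk
  · apply lt_of_le_of_lt (degree_sum_le _ _)
    rw [Finset.sup_lt_iff (by exact_mod_cast (WithBot.bot_lt_coe k))]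
    intro j hj
    rw [Finset.mem_Ico] at hj
    exact lt_of_le_of_lt (degree_C_mul_X_pow_le _ _) (by exact_mod_cast hj.2)

theorem Pol_eq (k : ℕ) (b : ℕ → ℝ) :
    Pol k b = X ^ k + (1 - ∑ j ∈ Finset.Ico 1 k, C (b j : ℂ) * X ^ j) := by
  unfold Pol; ring

theorem monic_Pol (hk : 1 ≤ k) (b : ℕ → ℝ) : (Pol k b).Monic := by
  rw [Pol_eq]
  exact monic_X_pow_add (degree_aux hk b)

theorem natDegree_Pol (hk : 1 ≤ k) (b : ℕ → ℝ) : (Pol k b).natDegree = k := by
  rw [Pol_eq]
  apply natDegree_eq_of_degree_eq_some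
  rw [degree_add_eq_left_of_degree_lt (by rw [degree_X_pow]; exact degree_aux hk b), degree_X_pow]

theorem Pol_ne_zero (hk : 1 ≤ k) (b : ℕ → ℝ) : Pol k b ≠ 0 := (monic_Pol hk b).ne_zero

theorem Sys.nodup (hS : Sys k p c b) : (Pol k b).roots.Nodup := by
  classical
  rw [Multiset.nodup_iff_count_le_one]
  intro x
  rw [count_roots]
  by_contra hcon
  push Not at hcon
  rw [one_lt_rootMultiplicity_iff_isRoot (Pol_ne_zero hS.hk b)] at hcon
  have h1 : P k b x = 0 := by rw [← eval_Pol]; exact hcon.1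
  have h2 : Q k b x = 0 := by
    rw [← eval_derivative_Pol, show (derivative (Pol k b)).eval x = 0 from hcon.2, mul_zero]
  exact hS.Q_ne h1 h2

/-- The finite set of roots. -/
noncomputable def Z (k : ℕ) (b : ℕ → ℝ) : Finset ℂ := (Pol k b).roots.toFinset

theorem mem_Z (hk : 1 ≤ k) {x : ℂ} : x ∈ Z k b ↔ P k b x = 0 := by
  unfold Z
  rw [Multiset.mem_toFinset, mem_roots (Pol_ne_zero hk b), IsRoot, eval_Pol]

theorem Sys.card_Z (hS : Sys k p c b) : (Z k b).card = k := by
  unfold Z
  rw [Multiset.toFinset_card_of_nodup hS.nodup]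
  rw [← (IsAlgClosed.splits (Pol k b)).natDegree_eq_card_roots, natDegree_Pol hS.hk]

theorem Sys.norm_one (hS : Sys k p c b) {x : ℂ} (hx : P k b x = 0) : ‖x‖ = 1 := by
  have h := hS.pow_p hx
  have hp := hS.hp
  exact Complex.norm_eq_one_of_pow_eq_one h (by omega)

theorem Sys.conj_eq_inv (hS : Sys k p c b) {x : ℂ} (hx : P k b x = 0) :
    (starRingEnd ℂ) x = x⁻¹ := by
  rw [Complex.inv_def, Complex.normSq_eq_norm_sq, hS.norm_one hx]
  simp

theorem P_conj (x : ℂ) : P k b ((starRingEnd ℂ) x) = (starRingEnd ℂ) (P k b x) := by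
  unfold P
  simp [map_sub, map_add, map_sum, map_mul, map_pow]

theorem Sys.P_inv (hS : Sys k p c b) {x : ℂ} (hx : P k b x = 0) : P k b x⁻¹ = 0 := by
  rw [← hS.conj_eq_inv hx, P_conj, hx, map_zero]

/-- (F1c) palindromicity. -/
theorem Sys.palin (hS : Sys k p c b) : ∀ j ∈ Finset.Ico 1 k, b (k - j) = b j := by
  classical
  have hk := hS.hk
  -- the polynomial with reversed coefficients
  set b' : ℕ → ℝ := fun j => b (k - j) with hb'
  have hrev : ∀ x : ℂ, x ≠ 0 → P k b' x = x ^ k * P k b x⁻¹ := by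
    intro x hx
    unfold P
    have h1 : ∑ j ∈ Finset.Ico 1 k, (b' j : ℂ) * x ^ j
        = x ^ k * ∑ j ∈ Finset.Ico 1 k, (b j : ℂ) * x⁻¹ ^ j := by
      rw [Finset.mul_sum]
      apply Finset.sum_bij' (fun j _ => k - j) (fun j _ => k - j)
      · intro j hj
        rw [Finset.mem_Ico] at hj ⊢
        omega
      · intro j hj
        rw [Finset.mem_Ico] at hj ⊢
        omega
      · intro j hj
        rw [Finset.mem_Ico] at hj
        omega
      · intro j hj
        rw [Finset.mem_Ico] at hj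
        omega
      · intro j hj
        rw [Finset.mem_Ico] at hj
        simp only [hb']
        have : x ^ k = x ^ j * x ^ (k - j) := by
          rw [← pow_add]; congr 1; omega
        rw [this, inv_pow]
        field_simp
    rw [h1, mul_sub, mul_add, inv_pow]
    field_simp
    ring
  have hdiff : (Pol k b - Pol k b').degree < k := by
    have : Pol k b - Pol k b' = (1 - ∑ j ∈ Finset.Ico 1 k, C (b j : ℂ) * X ^ j)
      - (1 - ∑ j ∈ Finset.Ico 1 k, C (b' j : ℂ) * X ^ j) := by
      rw [Pol_eq, Pol_eq]; ring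
    rw [this]
    apply lt_of_le_of_lt (degree_sub_le _ _)
    rw [max_lt_iff]
    exact ⟨degree_aux hk b, degree_aux hk b'⟩
  have hzero : Pol k b - Pol k b' = 0 := by
    apply Polynomial.eq_zero_of_degree_lt_of_eval_finset_eq_zero (Z k b)
    · rw [hS.card_Z]; exact hdiff
    · intro x hx
      rw [mem_Z hk] at hx
      rw [eval_sub, eval_Pol, eval_Pol, hrev x (hS.ne_zero hx), hS.P_inv hx, hx]
      ring
  intro j hj
  have hj' := Finset.mem_Ico.mp hj
  have hcoef : (Pol k b).coeff j = (Pol k b').coeff j := by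
    rw [sub_eq_zero.mp hzero]
  have hc : ∀ b'' : ℕ → ℝ, (Pol k b'').coeff j = -(b'' j : ℂ) := by
    intro b''
    unfold Pol
    simp only [coeff_sub, coeff_add, coeff_X_pow, coeff_one, finsetSum_coeff, coeff_C_mul]
    rw [if_neg (by omega), if_neg (by omega)]
    rw [Finset.sum_eq_single_of_mem j hj]
    · simp
    · intro i _ hij
      rw [if_neg (fun h => hij h.symm), mul_zero]
  rw [hc, hc] at hcoef
  simp only [neg_inj, Complex.ofReal_inj, hb'] at hcoef
  exact hcoef.symm

theorem Sys.P_inv_eq (hS : Sys k p c b) {x : ℂ} (hx : x ≠ 0) :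
    x ^ k * P k b x⁻¹ = P k b x := by
  have hpal := hS.palin
  unfold P
  have h1 : ∑ j ∈ Finset.Ico 1 k, (b j : ℂ) * x ^ j
      = x ^ k * ∑ j ∈ Finset.Ico 1 k, (b j : ℂ) * x⁻¹ ^ j := by
    rw [Finset.mul_sum]
    apply Finset.sum_bij' (fun j _ => k - j) (fun j _ => k - j)
    · intro j hj
      rw [Finset.mem_Ico] at hj ⊢
      omega
    · intro j hj
      rw [Finset.mem_Ico] at hj ⊢
      omega
    · intro j hj
      rw [Finset.mem_Ico] at hj
      omega
    · intro j hj
      rw [Finset.mem_Ico] at hj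
      omega
    · intro j hj
      rw [hpal j hj]
      rw [Finset.mem_Ico] at hj
      have : x ^ k = x ^ j * x ^ (k - j) := by
        rw [← pow_add]; congr 1; omega
      rw [this, inv_pow]
      field_simp
  rw [h1, mul_sub, mul_add, inv_pow]
  field_simp
  ring

end Pool.Agent.Helper60.Per
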