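import Pool.Agent.Helper60.Per.Roots2

set_option autoImplicit false

namespace Pool.Agent.Helper60.Per

open Finset

variable {k p : ℕ} {c : ℝ} {b : ℕ → ℝ}

theorem one_add_ne (hc : 0 ≤ c) : (1 + c : ℂ) ≠ 0 := by
  have : (1 + c : ℝ) ≠ 0 := by positivity
  exact_mod_cast this

/-- existence of the second order coefficient -/
theorem Sys.exists_kappa (hS : Sys k p c b) {x y : ℂ} (hx : P k b x = 0) (hy : P k b y = 0) :
    ∃ κ : ℂ, P k b (x * y) * κ = -(x ^ k + y ^ k) := by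
  by_cases h : P k b (x * y) = 0
  · refine ⟨0, ?_⟩
    rw [hS.res2 hx hy h]
    ring
  · exact ⟨-(x ^ k + y ^ k) / P k b (x * y), by field_simp⟩

theorem Sys.P_sq_ne (hS : Sys k p c b) {x : ℂ} (hx : P k b x = 0) : P k b (x * x) ≠ 0 := by
  intro h
  have h1 := hS.res2 hx hx h
  have h2 : x ^ k ≠ 0 := pow_ne_zero _ (hS.ne_zero hx)
  apply h2
  linear_combination h1 / 2

/-- (D) raw form -/
theorem Sys.rawD (hS : Sys k p c b) (hc : 0 ≤ c) {x κ : ℂ} (hx : P k b x = 0)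
    (hκ : P k b (x * x) * κ = -(x ^ k + x ^ k)) :
    κ * (x ^ k * x ^ k + (x ^ k)⁻¹)
      = 2 * ((x ^ k + (x ^ k)⁻¹) / (1 + c)) * (1 + x ^ k) := by
  have hx0 := hS.ne_zero hx
  have hne := one_add_ne hc
  have hxk : x ^ k ≠ 0 := pow_ne_zero _ hx0
  have h := hS.res3 (x := x) (y := x⁻¹) (z := x) (κ₁ := -((x ^ k + (x ^ k)⁻¹) / (1 + c)))
    (κ₂ := κ) (κ₃ := -((x ^ k + (x ^ k)⁻¹) / (1 + c))) hx (hS.P_inv hx) hx
    (by rw [mul_inv_cancel₀ hx0, one_mul]; exact hx)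
    (by rw [mul_inv_cancel₀ hx0, hS.P_one, inv_pow]; field_simp)
    hκ
    (by rw [inv_mul_cancel₀ hx0, hS.P_one, inv_pow]; field_simp; ring)
  rw [inv_pow] at h
  field_simp at h ⊢
  linear_combination h

/-- (D) -/
theorem Sys.D (hS : Sys k p c b) (hc : 0 ≤ c) {x : ℂ} (hx : P k b x = 0) (ha : x ^ k ≠ -1) :
    P k b (x * x) * (x ^ k + (x ^ k)⁻¹)
      = -(1 + c) * (x ^ k * (x ^ k + (x ^ k)⁻¹ - 1)) := by
  obtain ⟨κ, hκ⟩ := hS.exists_kappa hx hx
  have h := hS.rawD hc hx hκ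
  have hx0 := hS.ne_zero hx
  have hne := one_add_ne hc
  have hxk : x ^ k ≠ 0 := pow_ne_zero _ hx0
  have ha' : 1 + x ^ k ≠ 0 := fun h => ha (by linear_combination h)
  set a := x ^ k with hadef
  have h2 : κ * (a * a - a + 1) * (1 + c) = 2 * (a * a + 1) := by
    have h3 : (1 + a) * (κ * (a * a - a + 1) * (1 + c)) = (1 + a) * (2 * (a * a + 1)) := by
      field_simp at h
      linear_combination h
    exact mul_left_cancel₀ ha' h3
  have h4 : P k b (x * x) * κ * (a * a - a + 1) * (1 + c)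
      = P k b (x * x) * (2 * (a * a + 1)) := by
    linear_combination P k b (x * x) * h2
  rw [hκ] at h4
  generalize P k b (x * x) = w at h4 ⊢
  clear_value a
  field_simp
  linear_combination (-1 / 2) * h4

theorem Sys.s_ne (hS : Sys k p c b) (hc : 0 ≤ c) {x : ℂ} (hx : P k b x = 0) (ha : x ^ k ≠ -1) :
    x ^ k + (x ^ k)⁻¹ ≠ 0 := by
  intro h
  have hD := hS.D hc hx ha
  rw [h] at hD
  have hne := one_add_ne hc
  have hxk : x ^ k ≠ 0 := pow_ne_zero _ (hS.ne_zero hx)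
  have : (1 + c : ℂ) * x ^ k = 0 := by linear_combination -hD
  rcases mul_eq_zero.mp this with h1 | h1
  · exact hne h1
  · exact hxk h1

/-- (F4) -/
theorem Sys.antipodal (hS : Sys k p c b) (hc : 0 ≤ c) (hk : Even k) {x : ℂ} (hx : P k b x = 0)
    (hx' : P k b (-x) = 0) (ha : x ^ k ≠ -1) : P k b (-1) = P k b 1 := by
  have hx0 := hS.ne_zero hx
  have hne := one_add_ne hc
  have hxk : x ^ k ≠ 0 := pow_ne_zero _ hx0
  obtain ⟨κ, hκ⟩ := hS.exists_kappa hx hx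
  have hD := hS.rawD hc hx hκ
  have hinv : P k b (-x⁻¹) = 0 := by
    have := hS.P_inv hx'
    rwa [inv_neg] at this
  have hnk : (-x⁻¹) ^ k = (x ^ k)⁻¹ := by rw [hk.neg_pow, inv_pow]
  obtain ⟨κ', hκ'⟩ := hS.exists_kappa hx hinv
  have e1 : x * -x⁻¹ = -1 := by field_simp
  have h := hS.res3 (x := x) (y := x) (z := -x⁻¹) (κ₁ := κ') (κ₂ := κ') (κ₃ := κ) hx hx hinv
    (by rw [mul_assoc, e1, mul_neg, mul_one]; exact hx') hκ hκ' hκ'
  rw [e1] at hκ'
  rw [hnk] at h hκ'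
  have ha' : 1 + x ^ k ≠ 0 := fun h => ha (by linear_combination h)
  have hs := hS.s_ne hc hx ha
  set a := x ^ k with hadef
  have h3 : κ' = -((a + a⁻¹) / (1 + c)) := by
    have h4 : (1 + a) * κ' = (1 + a) * (-((a + a⁻¹) / (1 + c))) := by
      have h5 : a * a⁻¹ = 1 := mul_inv_cancel₀ hxk
      linear_combination (1 / 2 : ℂ) * h - (1 / 2 : ℂ) * hD - κ' * h5
    exact mul_left_cancel₀ ha' h4
  rw [hS.P_one]
  rw [h3] at hκ'
  have h6 : P k b (-1) * (a + a⁻¹) = (1 + c) * (a + a⁻¹) := by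
    field_simp at hκ' ⊢
    linear_combination -hκ'
  exact mul_right_cancel₀ hs h6

/-- (F5) -/
theorem Sys.mulroot (hS : Sys k p c b) (hc : 0 ≤ c) {x y : ℂ} (hx : P k b x = 0)
    (hy : P k b y = 0) (ha : x ^ k ≠ 1) (hb : y ^ k ≠ 1) (hab : x ^ k ≠ y ^ k)
    (hab' : x ^ k * y ^ k ≠ 1) : P k b (x * y) = -(1 + c) * (x ^ k + y ^ k) := by
  have hx0 := hS.ne_zero hx
  have hy0 := hS.ne_zero hy
  have hne := one_add_ne hc
  have hxk : x ^ k ≠ 0 := pow_ne_zero _ hx0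
  have hyk : y ^ k ≠ 0 := pow_ne_zero _ hy0
  obtain ⟨κ, hκ⟩ := hS.exists_kappa hx hy
  obtain ⟨κ', hκ'⟩ := hS.exists_kappa (hS.P_inv hx) hy
  -- `κ'` also works for `(x, y⁻¹)`
  have hκ'' : P k b (x * y⁻¹) * κ' = -(x ^ k + y⁻¹ ^ k) := by
    have h1 := hS.P_inv_eq (x := x * y⁻¹) (mul_ne_zero hx0 (inv_ne_zero hy0))
    rw [← h1, mul_inv, inv_inv, mul_assoc, hκ', mul_pow, inv_pow, inv_pow]
    field_simp
    ring
  have h1 := hS.res3 (x := x) (y := x⁻¹) (z := y) (κ₁ := κ') (κ₂ := κ)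
    (κ₃ := -((x ^ k + (x ^ k)⁻¹) / (1 + c))) hx (hS.P_inv hx) hy
    (by rw [mul_inv_cancel₀ hx0, one_mul]; exact hy)
    (by rw [mul_inv_cancel₀ hx0, hS.P_one, inv_pow]; field_simp) hκ hκ'
  have h2 := hS.res3 (x := y) (y := y⁻¹) (z := x) (κ₁ := κ') (κ₂ := κ)
    (κ₃ := -((y ^ k + (y ^ k)⁻¹) / (1 + c))) hy (hS.P_inv hy) hx
    (by rw [mul_inv_cancel₀ hy0, one_mul]; exact hx)
    (by rw [mul_inv_cancel₀ hy0, hS.P_one, inv_pow]; field_simp)
    (by rw [mul_comm y x, hκ]; ring) (by rw [mul_comm y⁻¹ x, hκ'']; ring)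
  rw [inv_pow] at h1 h2
  set A := x ^ k with hA
  set B := y ^ k with hB
  have h1' : κ * (A * B + A⁻¹) + κ' * (A⁻¹ * B + A) = (A + A⁻¹) * (1 + B) / (1 + c) := by
    field_simp at h1 ⊢
    linear_combination h1
  have h2' : κ * (A * B + B⁻¹) + κ' * (B⁻¹ * A + B) = (B + B⁻¹) * (1 + A) / (1 + c) := by
    field_simp at h2 ⊢
    linear_combination h2
  have hdet : (1 - A) * (1 - B) * (A - B) * (1 - A * B) ≠ 0 := by
    refine mul_ne_zero (mul_ne_zero (mul_ne_zero ?_ ?_) ?_) ?_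
    · exact sub_ne_zero.mpr (Ne.symm ha)
    · exact sub_ne_zero.mpr (Ne.symm hb)
    · exact sub_ne_zero.mpr hab
    · exact sub_ne_zero.mpr (Ne.symm hab')
  have hκval : κ * (1 + c) = 1 := by
    clear_value A B
    have : ((1 - A) * (1 - B) * (A - B) * (1 - A * B)) * (κ * (1 + c) - 1) = 0 := by
      field_simp at h1' h2'
      linear_combination (A + B ^ 2) * h1' - (B + A ^ 2) * h2'
    rcases mul_eq_zero.mp this with h3 | h3
    · exact absurd h3 hdet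
    · linear_combination h3
  linear_combination (1 + c : ℂ) * hκ - P k b (x * y) * hκval

end Pool.Agent.Helper60.Per
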