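import Mathlib

/-!
# Transfer principle for globally periodic rational recurrences

`x n * x (n+k) = c + ∑_{j=1}^{k-1} b j * x (n+j)`.
If all positive real solutions are `p`-periodic then all unit-valued solutions in every commutative
`ℝ`-algebra are `p`-periodic.
-/

set_option autoImplicit false

namespace Pool.Agent.Helper60.Per

open Finset

/-- Existence of a sequence with prescribed first `k` terms and a `k`-step recursion. -/
theorem exists_seq {α : Type*} (k : ℕ) (hk : 1 ≤ k) (v : ℕ → α) (F : (Fin k → α) → α) :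
    ∃ x : ℕ → α, (∀ i < k, x i = v i) ∧ ∀ n, x (n + k) = F (fun i => x (n + i)) := by
  classical
  let step : (Fin k → α) → (Fin k → α) := fun g i =>
    if h : (i : ℕ) + 1 < k then g ⟨(i : ℕ) + 1, h⟩ else F g
  let s : ℕ → (Fin k → α) := fun n => step^[n] (fun i => v i)
  have hs0 : s 0 = fun i : Fin k => v i := rfl
  have hs : ∀ n, s (n + 1) = step (s n) := fun n => Function.iterate_succ_apply' step n _
  have key : ∀ i (hi : i < k) n, s n ⟨i, hi⟩ = s (n + i) ⟨0, hk⟩ := by
    intro i
    induction i with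
    | zero => intro hi n; rfl
    | succ i ih =>
      intro hi n
      have h1 : s (n + 1) ⟨i, by omega⟩ = s n ⟨i + 1, hi⟩ := by
        rw [hs n]
        show (if h : i + 1 < k then s n ⟨i + 1, h⟩ else F (s n)) = _
        rw [dif_pos hi]
      rw [← h1, ih (by omega) (n + 1), show n + 1 + i = n + (i + 1) by omega]
  refine ⟨fun n => s n ⟨0, hk⟩, ?_, ?_⟩
  · intro i hi
    have := key i hi 0
    rw [hs0] at this
    simpa using this.symm
  · intro n
    have h1 : s (n + 1) ⟨k - 1, by omega⟩ = F (s n) := by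
      rw [hs n]
      show (if h : (k - 1) + 1 < k then s n ⟨(k - 1) + 1, h⟩ else F (s n)) = _
      rw [dif_neg (by omega)]
    have h2 := key (k - 1) (by omega) (n + 1)
    have h3 : n + 1 + (k - 1) = n + k := by omega
    rw [h3, h1] at h2
    show s (n + k) ⟨0, hk⟩ = F (fun i => s (n + i) ⟨0, hk⟩)
    rw [← h2]
    congr 1
    funext i
    exact key i i.2 n

/-- The normalised recurrence in a commutative `ℝ`-algebra. -/
def Rec {R : Type} [CommRing R] [Algebra ℝ R] (k : ℕ) (c : ℝ) (b : ℕ → ℝ) (x : ℕ → R) : Prop :=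
  ∀ n, x n * x (n + k) = c • (1 : R) + ∑ j ∈ Finset.Ico 1 k, b j • x (n + j)

/-- A recurrence all of whose unit-valued solutions in every commutative `ℝ`-algebra are
`p`-periodic, normalised so that `1` is a fixed point. -/
structure Sys (k p : ℕ) (c : ℝ) (b : ℕ → ℝ) : Prop where
  hk : 1 ≤ k
  hp : 1 ≤ p
  hsum : c + ∑ j ∈ Finset.Ico 1 k, b j = 1
  hper : ∀ (R : Type) [CommRing R] [Algebra ℝ R] (x : ℕ → R), (∀ n, IsUnit (x n)) →
    Rec k c b x → ∀ n, x (n + p) = x n

theorem exists_real_orbit (k : ℕ) (hk : 1 ≤ k) (c : ℝ) (b : ℕ → ℝ) (hc : 0 ≤ c)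
    (hb : ∀ j, 0 ≤ b j) (hpos : 0 < c + ∑ j ∈ Finset.Ico 1 k, b j) (v : ℕ → ℝ)
    (hv : ∀ i < k, 0 < v i) :
    ∃ x : ℕ → ℝ, (∀ i < k, x i = v i) ∧ (∀ n, 0 < x n) ∧ Rec k c b x := by
  obtain ⟨x, hx1, hx2⟩ := exists_seq k hk v
    (fun g => (c + ∑ j : Fin k, if 1 ≤ (j : ℕ) then b j * g j else 0) / g ⟨0, hk⟩)
  have hsumeq : ∀ n, (∑ j : Fin k, if 1 ≤ (j : ℕ) then b j * x (n + j) else 0)
      = ∑ j ∈ Finset.Ico 1 k, b j * x (n + j) := by
    intro n
    rw [Fin.sum_univ_eq_sum_range (fun j => if 1 ≤ j then b j * x (n + j) else 0) k,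
      ← Finset.sum_filter]
    apply Finset.sum_congr _ (fun _ _ => rfl)
    ext j
    simp only [Finset.mem_filter, Finset.mem_range, Finset.mem_Ico]
    tauto
  have hrec : ∀ n, x (n + k) = (c + ∑ j ∈ Finset.Ico 1 k, b j * x (n + j)) / x n := by
    intro n
    rw [hx2 n, ← hsumeq n]
    simp
  have hxpos : ∀ n, 0 < x n := by
    intro n
    induction n using Nat.strong_induction_on with
    | _ n ih =>
      by_cases hn : n < k
      · rw [hx1 n hn]; exact hv n hn
      · obtain ⟨m, rfl⟩ : ∃ m, n = m + k := ⟨n - k, by omega⟩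
        rw [hrec m]
        apply div_pos _ (ih m (by omega))
        have hterm : ∀ j ∈ Finset.Ico 1 k, 0 ≤ b j * x (m + j) := by
          intro j hj
          rw [Finset.mem_Ico] at hj
          exact mul_nonneg (hb j) (ih (m + j) (by omega)).le
        by_cases hc0 : 0 < c
        · have := Finset.sum_nonneg hterm
          linarith
        · have hc1 : c = 0 := le_antisymm (not_lt.mp hc0) hc
          rw [hc1, zero_add] at hpos ⊢
          obtain ⟨j, hj, hjpos⟩ : ∃ j ∈ Finset.Ico 1 k, 0 < b j := by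
            by_contra hcon
            push Not at hcon
            have := Finset.sum_nonpos hcon
            linarith
          apply Finset.sum_pos' hterm
          refine ⟨j, hj, mul_pos hjpos ?_⟩
          rw [Finset.mem_Ico] at hj
          exact ih (m + j) (by omega)
  refine ⟨x, hx1, hxpos, ?_⟩
  intro n
  rw [hrec n]
  simp only [smul_eq_mul, mul_one]
  field_simp [(hxpos n).ne']

theorem exists_polys (k : ℕ) (hk : 1 ≤ k) (c : ℝ) (b : ℕ → ℝ) (n : ℕ) :
    ∃ N D : MvPolynomial (Fin k) ℝ, ∀ (R : Type) [CommRing R] [Algebra ℝ R] (x : ℕ → R),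
      (∀ n, IsUnit (x n)) → Rec k c b x →
      IsUnit (MvPolynomial.aeval (fun i : Fin k => x i) D) ∧
      MvPolynomial.aeval (fun i : Fin k => x i) D * x n
        = MvPolynomial.aeval (fun i : Fin k => x i) N := by
  classical
  induction n using Nat.strong_induction_on with
  | _ n ih =>
    by_cases hn : n < k
    · refine ⟨MvPolynomial.X ⟨n, hn⟩, 1, ?_⟩
      intro R _ _ x hx hrec
      simp
    · obtain ⟨m, rfl⟩ : ∃ m, n = m + k := ⟨n - k, by omega⟩
      choose! N D hND using ih
      refine ⟨D m * (c • ∏ j ∈ Finset.Ico 1 k, D (m + j) + ∑ j ∈ Finset.Ico 1 k,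
        b j • (N (m + j) * ∏ i ∈ (Finset.Ico 1 k).erase j, D (m + i))),
        N m * ∏ j ∈ Finset.Ico 1 k, D (m + j), ?_⟩
      intro R _ _ x hx hrec
      set φ := MvPolynomial.aeval (R := ℝ) (fun i : Fin k => x i) with hφ
      have hm := hND m (by omega) R x hx hrec
      have hj : ∀ j ∈ Finset.Ico 1 k, IsUnit (φ (D (m + j))) ∧
          φ (D (m + j)) * x (m + j) = φ (N (m + j)) := by
        intro j hj
        rw [Finset.mem_Ico] at hj
        exact hND (m + j) (by omega) R x hx hrec
      constructor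
      · rw [map_mul, map_prod, ← hm.2]
        refine IsUnit.mul (IsUnit.mul hm.1 (hx m)) ?_
        have : ∀ s : Finset ℕ, s ⊆ Finset.Ico 1 k → IsUnit (∏ j ∈ s, φ (D (m + j))) := by
          intro s
          induction s using Finset.induction_on with
          | empty => intro _; simp
          | insert a s ha ih2 =>
            intro hs
            rw [Finset.prod_insert ha]
            exact IsUnit.mul (hj a (hs (Finset.mem_insert_self a s))).1
              (ih2 (fun z hz => hs (Finset.mem_insert_of_mem hz)))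
        exact this _ (Finset.Subset.refl _)
      · have h1 : φ (N m * ∏ j ∈ Finset.Ico 1 k, D (m + j)) * x (m + k)
            = φ (D m) * (∏ j ∈ Finset.Ico 1 k, φ (D (m + j))) * (x m * x (m + k)) := by
          rw [map_mul, map_prod, ← hm.2]; ring
        rw [h1, hrec m, map_mul, map_add, map_smul, map_prod, map_sum, mul_assoc]
        congr 1
        rw [mul_add, mul_smul_comm, mul_one]
        congr 1
        rw [Finset.mul_sum]
        apply Finset.sum_congr rfl
        intro j hjm
        rw [map_smul, map_mul, map_prod, ← (hj j hjm).2, mul_smul_comm,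
          ← Finset.mul_prod_erase _ _ hjm]
        congr 1
        ring

theorem transfer (k p : ℕ) (hk : 1 ≤ k) (c : ℝ) (b : ℕ → ℝ) (hc : 0 ≤ c)
    (hb : ∀ j, 0 ≤ b j) (hpos : 0 < c + ∑ j ∈ Finset.Ico 1 k, b j)
    (hper : ∀ x : ℕ → ℝ, (∀ n, 0 < x n) → Rec k c b x → ∀ n, x (n + p) = x n) :
    ∀ (R : Type) [CommRing R] [Algebra ℝ R] (x : ℕ → R), (∀ n, IsUnit (x n)) →
    Rec k c b x → ∀ n, x (n + p) = x n := by
  classical
  obtain ⟨N, D, hND⟩ := exists_polys k hk c b p
  have hpoly : N = MvPolynomial.X ⟨0, hk⟩ * D := by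
    apply MvPolynomial.funext_set (fun _ : Fin k => Set.Ioi (0 : ℝ)) (fun _ => Set.Ioi_infinite 0)
    intro v hv
    have hv' : ∀ i : Fin k, 0 < v i := fun i => by
      have := hv i (Set.mem_univ i)
      exact this
    obtain ⟨x, hx1, hx2, hx3⟩ := exists_real_orbit k hk c b hc hb hpos
      (fun i => if h : i < k then v ⟨i, h⟩ else 1) (by
        intro i hi
        simp only [hi, dif_pos]
        exact hv' _)
    have hxv : (fun i : Fin k => x i) = v := by
      funext i
      rw [hx1 i i.2]
      simp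
    have h := hND ℝ x (fun n => (hx2 n).ne'.isUnit) hx3
    rw [hxv] at h
    have h2 := h.2
    have h0 : x p = x 0 := by simpa using hper x hx2 hx3 0
    rw [h0, hx1 0 (by omega)] at h2
    simp only [show (0:ℕ) < k from hk, dif_pos] at h2
    have e : ∀ q : MvPolynomial (Fin k) ℝ, MvPolynomial.eval v q = MvPolynomial.aeval v q := by
      intro q
      rw [← MvPolynomial.coe_aeval_eq_eval]
      rfl
    rw [e, e, map_mul, ← h2, MvPolynomial.aeval_X, mul_comm]
  intro R _ _ x hx hrec n
  have h := hND R (fun m => x (n + m)) (fun m => hx (n + m)) (by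
    intro m
    have := hrec (n + m)
    simpa [add_assoc] using this)
  rw [hpoly, map_mul, MvPolynomial.aeval_X] at h
  have h2 := h.2
  rw [mul_comm] at h2
  exact h.1.mul_right_cancel h2

end Pool.Agent.Helper60.Per
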